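import Mathlib

set_option autoImplicit false

/-!
# Sumsets of some sets of natural numbers
-/

namespace Pool.Agent.Lib.MP_0db35b_al

/-- The `k`-fold sumset. -/
def ksum (B : Set ℕ) : ℕ → Set ℕ
  | 0 => {e | e = 0}
  | k + 1 => {e | ∃ a ∈ ksum B k, ∃ b ∈ B, e = a + b}

theorem mem_ksum_zero {B : Set ℕ} {e : ℕ} : e ∈ ksum B 0 ↔ e = 0 := Iff.rfl

theorem mem_ksum_succ {B : Set ℕ} {k e : ℕ} :
    e ∈ ksum B (k + 1) ↔ ∃ a ∈ ksum B k, ∃ b ∈ B, e = a + b := Iff.rfl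

theorem ksum_mono {B B' : Set ℕ} (h : B ⊆ B') (k : ℕ) : ksum B k ⊆ ksum B' k := by
  induction k with
  | zero => exact fun e he => he
  | succ k ih =>
    rintro e ⟨a, ha, b, hb, rfl⟩
    exact ⟨a, ih ha, b, h hb, rfl⟩

theorem ksum_one {B : Set ℕ} {e : ℕ} : e ∈ ksum B 1 ↔ e ∈ B := by
  rw [mem_ksum_succ]
  constructor
  · rintro ⟨a, ha, b, hb, rfl⟩
    rw [mem_ksum_zero] at ha
    subst ha
    simpa using hb
  · intro h
    exact ⟨0, rfl, e, h, by omega⟩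

theorem ksum_add {B : Set ℕ} {k l a b : ℕ} (ha : a ∈ ksum B k) (hb : b ∈ ksum B l) :
    a + b ∈ ksum B (k + l) := by
  induction l generalizing b with
  | zero =>
    rw [mem_ksum_zero] at hb
    subst hb
    exact ha
  | succ l ih =>
    obtain ⟨c, hc, d, hd, rfl⟩ := hb
    exact ⟨a + c, ih hc, d, hd, by omega⟩

theorem ksum_mul {B : Set ℕ} {b : ℕ} (hb : b ∈ B) (k : ℕ) : k * b ∈ ksum B k := by
  induction k with
  | zero => simp [mem_ksum_zero]
  | succ k ih => exact ⟨k * b, ih, b, hb, by ring⟩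

theorem ksum_le {B : Set ℕ} (h0 : 0 ∈ B) {k l a : ℕ} (ha : a ∈ ksum B k) (hkl : k ≤ l) :
    a ∈ ksum B l := by
  obtain ⟨m, rfl⟩ := Nat.exists_eq_add_of_le hkl
  have := ksum_add ha (ksum_mul h0 m)
  simpa using this

theorem ksum_bound {B : Set ℕ} {N : ℕ} (h : ∀ b ∈ B, b ≤ N) {k e : ℕ} (he : e ∈ ksum B k) :
    e ≤ k * N := by
  induction k generalizing e with
  | zero => rw [mem_ksum_zero] at he; omega
  | succ k ih =>
    obtain ⟨a, ha, b, hb, rfl⟩ := he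
    have h1 := ih ha
    have h2 := h b hb
    rw [Nat.succ_mul]
    omega

/-- The set `{0, 1} ∪ [c + 1, 2 c] ∪ {2 c + 2}`. -/
def BA (c : ℕ) : Set ℕ := {e | e = 0 ∨ e = 1 ∨ (c + 1 ≤ e ∧ e ≤ 2 * c) ∨ e = 2 * c + 2}

/-- The set `{0, 1} ∪ [c + 1, 2 c + 2]`. -/
def BR (c : ℕ) : Set ℕ := {e | e = 0 ∨ e = 1 ∨ (c + 1 ≤ e ∧ e ≤ 2 * c + 2)}

theorem mem_BA {c e : ℕ} :
    e ∈ BA c ↔ e = 0 ∨ e = 1 ∨ (c + 1 ≤ e ∧ e ≤ 2 * c) ∨ e = 2 * c + 2 := Iff.rfl

theorem mem_BR {c e : ℕ} : e ∈ BR c ↔ e = 0 ∨ e = 1 ∨ (c + 1 ≤ e ∧ e ≤ 2 * c + 2) := Iff.rfl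

theorem BA_sub_BR (c : ℕ) : BA c ⊆ BR c := by
  intro e he
  rw [mem_BA] at he
  rw [mem_BR]
  omega

/-- Fullness of the `k`-fold sumset of `BA c` for `k ≥ c`. -/
theorem BA_full {c k e : ℕ} (hc : 1 ≤ c) (hk : c ≤ k) (he : e ≤ k * (2 * c + 2))
    (hne : e + 1 ≠ k * (2 * c + 2)) : e ∈ ksum (BA c) k := by
  have h0 : (0 : ℕ) ∈ BA c := Or.inl rfl
  have h1 : (1 : ℕ) ∈ BA c := Or.inr (Or.inl rfl)
  have hN : 2 * c + 2 ∈ BA c := Or.inr (Or.inr (Or.inr rfl))
  obtain ⟨q, r, hr, rfl⟩ : ∃ q r, r < 2 * c + 2 ∧ e = q * (2 * c + 2) + r :=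
    ⟨e / (2 * c + 2), e % (2 * c + 2), Nat.mod_lt _ (by omega), (Nat.div_add_mod' _ _).symm⟩
  have hqk : q ≤ k := by
    by_contra h
    push Not at h
    have : (k + 1) * (2 * c + 2) ≤ q * (2 * c + 2) := Nat.mul_le_mul_right _ h
    rw [Nat.succ_mul] at this
    omega
  have hq := ksum_mul hN q
  by_cases hqk' : q = k
  · subst hqk'
    have : r = 0 := by omega
    subst this
    exact hq
  have hlt : q < k := by omega
  by_cases hrB : r ∈ BA c
  · exact ksum_le h0 (ksum_add hq (ksum_one.2 hrB)) (by omega)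
  rw [mem_BA] at hrB
  by_cases hrc : r ≤ c
  · by_cases hqr : q + r ≤ k
    · have := ksum_add hq (ksum_mul h1 r)
      rw [mul_one] at this
      exact ksum_le h0 this hqr
    · -- q ≥ 1; use two elements
      obtain ⟨q', rfl⟩ : ∃ q', q = q' + 1 := ⟨q - 1, by omega⟩
      have ha : c + 1 ∈ BA c := Or.inr (Or.inr (Or.inl ⟨le_rfl, by omega⟩))
      have hb : c + 1 + r ∈ BA c ∨ (c + 1 + r = 2 * c + 1) := by
        rw [mem_BA]; omega
      rcases hb with hb | hb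
      · have := ksum_add (ksum_mul hN q') (ksum_add (ksum_one.2 ha) (ksum_one.2 hb))
        have e1 : (q' + 1) * (2 * c + 2) + r = q' * (2 * c + 2) + (c + 1 + (c + 1 + r)) := by ring
        rw [e1]
        exact ksum_le h0 this (by omega)
      · -- r = c
        have hr' : r = c := by omega
        subst hr'
        by_cases hr2 : 2 ≤ r
        · have ha' : r + 2 ∈ BA r := Or.inr (Or.inr (Or.inl ⟨by omega, by omega⟩))
          have hb' : 2 * r ∈ BA r := Or.inr (Or.inr (Or.inl ⟨by omega, le_rfl⟩))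
          have := ksum_add (ksum_mul hN q') (ksum_add (ksum_one.2 ha') (ksum_one.2 hb'))
          have e1 : (q' + 1) * (2 * r + 2) + r = q' * (2 * r + 2) + (r + 2 + (2 * r)) := by ring
          rw [e1]
          exact ksum_le h0 this (by omega)
        · exact absurd (Or.inr (Or.inl (by omega))) hrB
  · -- r = 2 c + 1
    have hr' : r = 2 * c + 1 := by omega
    subst hr'
    have hb : 2 * c ∈ BA c := Or.inr (Or.inr (Or.inl ⟨by omega, le_rfl⟩))
    have := ksum_add hq (ksum_add (ksum_one.2 h1) (ksum_one.2 hb))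
    have e1 : q * (2 * c + 2) + (2 * c + 1) = q * (2 * c + 2) + (1 + 2 * c) := by ring
    rw [e1]
    refine ksum_le h0 this ?_
    by_contra h
    have hq1 : q + 1 = k := by omega
    apply hne
    rw [← hq1]
    ring

theorem BR_full {c k e : ℕ} (hc : 1 ≤ c) (hk : c ≤ k) (he : e ≤ k * (2 * c + 2)) :
    e ∈ ksum (BR c) k := by
  by_cases hne : e + 1 = k * (2 * c + 2)
  · obtain ⟨k', rfl⟩ : ∃ k', k = k' + 1 := ⟨k - 1, by omega⟩
    have hN : 2 * c + 2 ∈ BR c := Or.inr (Or.inr ⟨by omega, le_rfl⟩)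
    have hN' : 2 * c + 1 ∈ BR c := Or.inr (Or.inr ⟨by omega, by omega⟩)
    have := ksum_add (ksum_mul hN k') (ksum_one.2 hN')
    have e1 : e = k' * (2 * c + 2) + (2 * c + 1) := by
      rw [Nat.succ_mul] at hne; omega
    rw [e1]
    exact this
  · exact ksum_mono (BA_sub_BR c) k (BA_full hc hk he hne)

/-- The number `c` is not a sum of `c - 1` elements of `BR c`. -/
theorem c_notMem {c k : ℕ} (hk : k < c) : c ∉ ksum (BR c) k := by
  intro h
  have key : ∀ k e, e ∈ ksum (BR c) k → e ≤ k ∨ c < e := by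
    intro k
    induction k with
    | zero =>
      intro e he
      rw [mem_ksum_zero] at he
      omega
    | succ k ih =>
      rintro e ⟨a, ha, b, hb, rfl⟩
      have h1 := ih a ha
      rw [mem_BR] at hb
      omega
  have := key k c h
  omega

/-- The set of the elements `2 i + (2 v + 1) j` with `i + j ≤ k`. -/
def BV (v : ℕ) : Set ℕ := {e | e = 0 ∨ e = 2 ∨ e = 2 * v + 1}

theorem mem_ksum_BV {v k e : ℕ} :
    e ∈ ksum (BV v) k ↔ ∃ i j, i + j ≤ k ∧ e = 2 * i + (2 * v + 1) * j := by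
  induction k generalizing e with
  | zero =>
    rw [mem_ksum_zero]
    constructor
    · rintro rfl
      exact ⟨0, 0, le_rfl, by simp⟩
    · rintro ⟨i, j, h, rfl⟩
      have hi : i = 0 := by omega
      have hj : j = 0 := by omega
      subst hi; subst hj; simp
  | succ k ih =>
    rw [mem_ksum_succ]
    constructor
    · rintro ⟨a, ha, b, hb, rfl⟩
      obtain ⟨i, j, h, rfl⟩ := ih.1 ha
      rcases hb with rfl | rfl | rfl
      · exact ⟨i, j, by omega, by ring⟩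
      · exact ⟨i + 1, j, by omega, by ring⟩
      · exact ⟨i, j + 1, by omega, by ring⟩
    · rintro ⟨i, j, h, rfl⟩
      by_cases hij : i + j ≤ k
      · exact ⟨_, ih.2 ⟨i, j, hij, rfl⟩, 0, Or.inl rfl, by ring⟩
      · rcases i with _ | i
        · rcases j with _ | j
          · omega
          · exact ⟨_, ih.2 ⟨0, j, by omega, rfl⟩, _, Or.inr (Or.inr rfl), by ring⟩
        · exact ⟨_, ih.2 ⟨i, j, by omega, rfl⟩, _, Or.inr (Or.inl rfl), by ring⟩

/-- Positions in the powers of the third ideal: `i` is the exponent of `z`. -/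
def FA (c : ℕ) : ℕ → ℕ → Set ℕ
  | 0, i => {e | e = 0 ∧ i = 0}
  | k + 1, i => {e | (∃ a ∈ FA c k i, ∃ b ∈ BA c, e = a + b) ∨
      ∃ i', i = i' + 1 ∧ ∃ a ∈ FA c k i', e = a + c}

theorem mem_FA_zero {c i e : ℕ} : e ∈ FA c 0 i ↔ e = 0 ∧ i = 0 := Iff.rfl

theorem mem_FA_succ {c k i e : ℕ} : e ∈ FA c (k + 1) i ↔
    (∃ a ∈ FA c k i, ∃ b ∈ BA c, e = a + b) ∨
      ∃ i', i = i' + 1 ∧ ∃ a ∈ FA c k i', e = a + c := Iff.rfl

theorem FA_index {c k i e : ℕ} (h : e ∈ FA c k i) : i ≤ k := by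
  induction k generalizing i e with
  | zero => exact h.2.le
  | succ k ih =>
    rcases h with ⟨a, ha, b, hb, rfl⟩ | ⟨i', rfl, a, ha, rfl⟩
    · have := ih ha; omega
    · have := ih ha; omega

theorem FA_bound {c k i e : ℕ} (hc : 1 ≤ c) (h : e ∈ FA c k i) :
    (e = k * (2 * c + 2) ∧ i = 0) ∨ e + 2 ≤ k * (2 * c + 2) := by
  induction k generalizing i e with
  | zero => left; rw [mem_FA_zero] at h; exact ⟨by omega, h.2⟩
  | succ k ih =>
    rw [Nat.succ_mul]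
    rcases h with ⟨a, ha, b, hb, rfl⟩ | ⟨i', rfl, a, ha, rfl⟩
    · have := ih ha
      rw [mem_BA] at hb
      omega
    · have := ih ha
      omega

theorem FA_zero_eq {c k : ℕ} : FA c k 0 = ksum (BA c) k := by
  induction k with
  | zero => ext e; simp [mem_FA_zero, mem_ksum_zero]
  | succ k ih =>
    ext e
    rw [mem_FA_succ, mem_ksum_succ, ih]
    constructor
    · rintro (h | ⟨i', h, _⟩)
      · exact h
      · omega
    · exact Or.inl

theorem FA_add {c k i e : ℕ} (h : e ∈ FA c k i) {l j f : ℕ} (h' : f ∈ FA c l j) :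
    e + f ∈ FA c (k + l) (i + j) := by
  induction l generalizing j f with
  | zero =>
    obtain ⟨rfl, rfl⟩ := h'
    exact h
  | succ l ih =>
    rcases h' with ⟨a, ha, b, hb, rfl⟩ | ⟨j', rfl, a, ha, rfl⟩
    · exact Or.inl ⟨e + a, ih ha, b, hb, by omega⟩
    · exact Or.inr ⟨i + j', by omega, e + a, ih ha, by omega⟩

theorem FA_one {c i e : ℕ} : e ∈ FA c 1 i ↔ (i = 0 ∧ e ∈ BA c) ∨ (i = 1 ∧ e = c) := by
  rw [mem_FA_succ]
  constructor
  · rintro (⟨a, ⟨rfl, rfl⟩, b, hb, rfl⟩ | ⟨i', rfl, a, ⟨rfl, rfl⟩, rfl⟩)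
    · left; exact ⟨rfl, by simpa using hb⟩
    · right; exact ⟨rfl, by omega⟩
  · rintro (⟨rfl, h⟩ | ⟨rfl, rfl⟩)
    · exact Or.inl ⟨0, ⟨rfl, rfl⟩, e, h, by omega⟩
    · exact Or.inr ⟨0, rfl, 0, ⟨rfl, rfl⟩, by omega⟩

/-- Splitting off the last summand. -/
theorem FA_split {c k i e : ℕ} : e ∈ FA c (k + 1) i ↔
    ∃ a i₁, a ∈ FA c k i₁ ∧ ∃ b i₂, b ∈ FA c 1 i₂ ∧ e = a + b ∧ i = i₁ + i₂ := by
  constructor
  · rintro (⟨a, ha, b, hb, rfl⟩ | ⟨i', rfl, a, ha, rfl⟩)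
    · exact ⟨a, i, ha, b, 0, FA_one.2 (Or.inl ⟨rfl, hb⟩), rfl, rfl⟩
    · exact ⟨a, i', ha, c, 1, FA_one.2 (Or.inr ⟨rfl, rfl⟩), rfl, rfl⟩
  · rintro ⟨a, i₁, ha, b, i₂, hb, rfl, rfl⟩
    exact FA_add ha hb

/-- Two-term identities: `(2c+1) + b` is a sum of two elements of `BA c` unless `b = 2c+2`. -/
theorem BA_two {c b : ℕ} (hc : 1 ≤ c) (hb : b ∈ BA c ∨ b = c) (hne : b ≠ 2 * c + 2) :
    (2 * c + 1) + b ∈ ksum (BA c) 2 := by
  have h0 : (0 : ℕ) ∈ BA c := Or.inl rfl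
  have h1 : (1 : ℕ) ∈ BA c := Or.inr (Or.inl rfl)
  have hN : 2 * c + 2 ∈ BA c := Or.inr (Or.inr (Or.inr rfl))
  have hc1 : c + 1 ∈ BA c := Or.inr (Or.inr (Or.inl ⟨le_rfl, by omega⟩))
  have h2c : 2 * c ∈ BA c := Or.inr (Or.inr (Or.inl ⟨by omega, le_rfl⟩))
  have add2 : ∀ {a b : ℕ}, a ∈ BA c → b ∈ BA c → a + b ∈ ksum (BA c) 2 := fun ha hb =>
    ksum_add (ksum_one.2 ha) (ksum_one.2 hb)
  rcases hb with hb | rfl
  · rw [mem_BA] at hb
    rcases hb with rfl | rfl | ⟨h2, h3⟩ | rfl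
    · have := add2 h1 h2c
      rwa [show 2 * c + 1 + 0 = 1 + 2 * c by ring]
    · have := add2 h0 hN
      rwa [show 2 * c + 1 + 1 = 0 + (2 * c + 2) by ring]
    · by_cases hb2 : b = 2 * c
      · subst hb2
        by_cases hc2 : 2 ≤ c
        · have h4 : 2 * c - 1 ∈ BA c := Or.inr (Or.inr (Or.inl ⟨by omega, by omega⟩))
          have := add2 h4 hN
          rwa [show 2 * c + 1 + 2 * c = 2 * c - 1 + (2 * c + 2) by omega]
        · have hc' : c = 1 := by omega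
          subst hc'
          have := add2 h1 hN
          simpa using this
      · have h4 : b + 1 ∈ BA c := Or.inr (Or.inr (Or.inl ⟨by omega, by omega⟩))
        have := add2 h4 h2c
        rwa [show 2 * c + 1 + b = b + 1 + 2 * c by ring]
    · exact absurd rfl hne
  · have := add2 hc1 h2c
    rwa [show 2 * b + 1 + b = b + 1 + 2 * b by ring]

/-- Shifting a position by `2c + 1`. -/
theorem FA_shift {c k i e : ℕ} (hc : 1 ≤ c) (h : e ∈ FA c k i) :
    (e = k * (2 * c + 2) ∧ i = 0) ∨ ∃ i', i' ≤ i ∧ e + (2 * c + 1) ∈ FA c (k + 1) i' := by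
  induction k generalizing i e with
  | zero => left; rw [mem_FA_zero] at h; exact ⟨by omega, h.2⟩
  | succ k ih =>
    obtain ⟨a, i₁, ha, b, i₂, hb, rfl, rfl⟩ := FA_split.1 h
    by_cases hbN : b = 2 * c + 2
    · have hi₂ : i₂ = 0 := by
        rw [FA_one] at hb
        omega
      subst hi₂
      subst hbN
      rcases ih ha with ⟨rfl, rfl⟩ | ⟨i', hi', h'⟩
      · left
        exact ⟨by ring, rfl⟩
      · right
        refine ⟨i', by omega, ?_⟩
        have := FA_add h' hb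
        rw [show a + (2 * c + 2) + (2 * c + 1) = a + (2 * c + 1) + (2 * c + 2) by ring]
        exact this
    · right
      refine ⟨i₁, by omega, ?_⟩
      have h2 : (2 * c + 1) + b ∈ ksum (BA c) 2 := by
        refine BA_two hc ?_ hbN
        rw [FA_one] at hb
        rcases hb with ⟨_, h⟩ | ⟨_, h⟩
        · exact Or.inl h
        · exact Or.inr h
      rw [← FA_zero_eq] at h2
      have := FA_add ha h2
      rw [show a + b + (2 * c + 1) = a + (2 * c + 1 + b) by ring]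
      exact this

end Pool.Agent.Lib.MP_0db35b_al
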