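import Pool.Agent.Lib.MP_0db35b_al.Hibi
import Pool.Agent.Lib.MP_0db35b_al.Comb

set_option autoImplicit false
set_option linter.unusedSectionVars false

/-!
# The ideal controlling the associated primes
-/

namespace Pool.Agent.Lib.MP_0db35b_al

variable {σ : Type*} [Fintype σ] [LinearOrder σ]

/-- The part of the `k`-th power without `u`. -/
def AS (c : ℕ) (x y z : σ) (k : ℕ) : Set (σ →₀ ℕ) :=
  {w | ∃ i, i ≤ w z ∧ ∃ e ∈ FA c k i, 2 * e ≤ w x ∧ 2 * (k * (2 * c + 2) - e) ≤ w y}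

/-- The generator involving `u`. -/
def AT (c h : ℕ) (x y u : σ) (k : ℕ) : Set (σ →₀ ℕ) :=
  {w | 2 * (k * (2 * c + 2) - 1) ≤ w x ∧ 2 ≤ w y ∧ h ≤ w u}

/-- The exponents of the `k`-th power of the third ideal. -/
def UA (c h : ℕ) (x y z u : σ) (k : ℕ) : Set (σ →₀ ℕ) := AS c x y z k ∪ AT c h x y u k

section

variable {c h : ℕ} {x y z u : σ}

theorem mem_AS {k : ℕ} {w : σ →₀ ℕ} : w ∈ AS c x y z k ↔
    ∃ i, i ≤ w z ∧ ∃ e ∈ FA c k i, 2 * e ≤ w x ∧ 2 * (k * (2 * c + 2) - e) ≤ w y := Iff.rfl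

theorem mem_AT {k : ℕ} {w : σ →₀ ℕ} : w ∈ AT c h x y u k ↔
    2 * (k * (2 * c + 2) - 1) ≤ w x ∧ 2 ≤ w y ∧ h ≤ w u := Iff.rfl

theorem dep_AS (k : ℕ) : DepOn {x, y, z} (AS c x y z k) := by
  rintro w w' hw ⟨i, h1, e, he, h2, h3⟩
  have hx := hw x (by simp)
  have hy := hw y (by simp)
  have hz := hw z (by simp)
  exact ⟨i, by omega, e, he, by omega, by omega⟩

theorem dep_UA (k : ℕ) : DepOn {x, y, z, u} (UA c h x y z u k) := by
  rintro w w' hw (h1 | ⟨h1, h2, h3⟩)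
  · exact Or.inl (dep_AS k w w' (fun j hj => hw j (by
      simp only [Set.mem_insert_iff, Set.mem_singleton_iff] at hj ⊢; tauto)) h1)
  · have hx := hw x (by simp)
    have hy := hw y (by simp)
    have hu := hw u (by simp)
    exact Or.inr ⟨by omega, by omega, by omega⟩

theorem isUpperSet_AS (k : ℕ) : IsUpperSet (AS c x y z k) := by
  rintro w w' hw ⟨i, h1, e, he, h2, h3⟩
  exact ⟨i, h1.trans (hw _), e, he, h2.trans (hw _), h3.trans (hw _)⟩

theorem isUpperSet_UA (k : ℕ) : IsUpperSet (UA c h x y z u k) := by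
  rintro w w' hw (h1 | ⟨h1, h2, h3⟩)
  · exact Or.inl (isUpperSet_AS k hw h1)
  · exact Or.inr ⟨h1.trans (hw _), h2.trans (hw _), h3.trans (hw _)⟩

theorem shift_single {V : Set σ} {U : Set (σ →₀ ℕ)} (hU : DepOn V U) {z : σ} (hz : z ∉ V)
    (a : ℕ) : (Finsupp.single z a + ·) '' U = {w | a ≤ w z ∧ w ∈ U} := by
  have h0 : ∀ j, j ∈ V → Finsupp.single z a j = 0 := by
    intro j hj
    have h1 : j ≠ z := fun h => hz (h ▸ hj)
    rw [Finsupp.single_eq_of_ne h1]
  ext w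
  constructor
  · rintro ⟨v, hv, rfl⟩
    refine ⟨by simp, hU v _ (fun j hj => ?_) hv⟩
    simp [h0 j hj]
  · rintro ⟨h1, h3⟩
    have hle : Finsupp.single z a ≤ w := by rwa [Finsupp.single_le_iff]
    refine ⟨w - Finsupp.single z a, hU w _ (fun j hj => ?_) h3, add_tsub_cancel_of_le hle⟩
    simp [h0 j hj]

theorem single_eq_zero_of {V : Set σ} {z j : σ} (hz : z ∈ V) (hj : j ∉ V) (a : ℕ) :
    Finsupp.single z a j = 0 := by
  have h1 : j ≠ z := fun h => hj (h ▸ hz)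
  rw [Finsupp.single_eq_of_ne h1]

theorem zero_mem_FA (k : ℕ) : 0 ∈ FA c k 0 := by
  rw [FA_zero_eq]
  have := ksum_mul (B := BA c) (b := 0) (Or.inl rfl) k
  simpa using this

theorem top_mem_FA (k : ℕ) : k * (2 * c + 2) ∈ FA c k 0 := by
  rw [FA_zero_eq]
  exact ksum_mul (Or.inr (Or.inr (Or.inr rfl))) k

theorem top2_mem_FA (hc : 1 ≤ c) {k : ℕ} (hk : 1 ≤ k) : k * (2 * c + 2) - 2 ∈ FA c k 0 := by
  rw [FA_zero_eq]
  obtain ⟨k, rfl⟩ : ∃ k', k = k' + 1 := ⟨k - 1, by omega⟩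
  have h2c : 2 * c ∈ BA c := Or.inr (Or.inr (Or.inl ⟨by omega, le_rfl⟩))
  have h1 := ksum_add (ksum_mul (B := BA c) (b := 2 * c + 2) (Or.inr (Or.inr (Or.inr rfl))) k)
    (ksum_one.2 h2c)
  have e : (k + 1) * (2 * c + 2) - 2 = k * (2 * c + 2) + 2 * c := by
    rw [Nat.succ_mul]; omega
  rwa [e]

theorem FA_le (hc : 1 ≤ c) {k i e : ℕ} (he : e ∈ FA c k i) : e ≤ k * (2 * c + 2) := by
  have := FA_bound hc he
  omega

theorem nice_AS {V : Set σ} (hx : x ∈ V) (hy : y ∈ V) (hz : z ∈ V) (hxy : x ≠ y) (hxz : x ≠ z)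
    (hyz : y ≠ z) (hc : 1 ≤ c) {k : ℕ} (hk : 1 ≤ k)
    (hh : 2 * (c * (2 * c + 2)) + c ≤ h) :
    Nice V (AS c x y z k) 2 (2 * (k * (2 * c + 2)) + h + 2) := by
  obtain ⟨N, hN⟩ : ∃ N, N = k * (2 * c + 2) := ⟨_, rfl⟩
  have hN2 : 2 * c + 2 ≤ N := by
    rw [hN]; exact Nat.le_mul_of_pos_left _ hk
  rw [← hN]
  by_cases hkc : c ≤ k
  · -- the stable case
    have e : AS c x y z k = St x y (2 * N) {e' | ∃ e, e' = 2 * e ∧ e ≤ N ∧ e + 1 ≠ N} := by
      ext w
      rw [mem_AS, mem_St, ← hN]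
      constructor
      · rintro ⟨i, _, e, he, h2, h3⟩
        have hb := FA_bound hc he
        rw [← hN] at hb
        exact ⟨2 * e, ⟨e, rfl, by omega, by omega⟩, h2, by omega⟩
      · rintro ⟨_, ⟨e, rfl, h1, h2⟩, h3, h4⟩
        refine ⟨0, Nat.zero_le _, e, ?_, h3, by omega⟩
        rw [FA_zero_eq]
        exact BA_full hc hkc (by omega) (by omega)
    rw [e]
    refine (nice_St (V := V) hx hy hxy (M := 2 * N) (g := 4) ?_ (by omega) ?_).mono (by omega)
      (by omega)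
    · rintro _ ⟨e, rfl, h1, _⟩
      omega
    · rintro _ ⟨e, rfl, h1, h2⟩ ⟨_, ⟨e', rfl, h3, h4⟩, h5⟩
      by_cases he : e = N
      · exact ⟨2 * (e - 2), ⟨e - 2, rfl, by omega, by omega⟩, by omega, by omega⟩
      · exact ⟨2 * (e - 1), ⟨e - 1, rfl, by omega, by omega⟩, by omega, by omega⟩
  · -- the crude bound
    push Not at hkc
    have hT : ∀ l, Nice V (St x y (2 * N) {e' | ∃ i, i ≤ l ∧ ∃ e ∈ FA c k i, e' = 2 * e}) 1
        (4 * N - 1) := by
      intro l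
      refine (nice_St (V := V) hx hy hxy (M := 2 * N) (g := 2 * N) ?_ (by omega) ?_).mono le_rfl
        (by omega)
      · rintro _ ⟨i, _, e, he, rfl⟩
        have := FA_le hc he
        omega
      · rintro _ ⟨i, _, e, he, rfl⟩ ⟨e', _, h5⟩
        have := FA_le hc he
        exact ⟨0, ⟨0, Nat.zero_le _, 0, zero_mem_FA k, rfl⟩, by omega, by omega⟩
    have hdT : ∀ l, DepOn {x, y} (St x y (2 * N)
        {e' | ∃ i, i ≤ l ∧ ∃ e ∈ FA c k i, e' = 2 * e}) := fun l => dep_St _ _ _ _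
    have hzT : z ∉ ({x, y} : Set σ) := by simp [hxz.symm, hyz.symm]
    have hTs : ∀ l a, Nice V {w | a ≤ w z ∧ w ∈ St x y (2 * N)
        {e' | ∃ i, i ≤ l ∧ ∃ e ∈ FA c k i, e' = 2 * e}} 1 (4 * N - 1 + a) := by
      intro l a
      rw [← shift_single (hdT l) hzT a]
      have := (hT l).shift (u := Finsupp.single z a) (fun j hj => single_eq_zero_of hz hj a)
      rwa [Finsupp.degree_single] at this
    have key : ∀ l, Nice V {w : σ →₀ ℕ | ∃ i, i ≤ l ∧ i ≤ w z ∧ ∃ e ∈ FA c k i,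
        2 * e ≤ w x ∧ 2 * (N - e) ≤ w y} 2 (4 * N - 1 + l) := by
      intro l
      induction l with
      | zero =>
        have e : {w : σ →₀ ℕ | ∃ i, i ≤ 0 ∧ i ≤ w z ∧ ∃ e ∈ FA c k i,
            2 * e ≤ w x ∧ 2 * (N - e) ≤ w y} = {w | 0 ≤ w z ∧ w ∈ St x y (2 * N)
              {e' | ∃ i, i ≤ 0 ∧ ∃ e ∈ FA c k i, e' = 2 * e}} := by
          ext w
          simp only [Set.mem_ofPred_eq, mem_St]
          constructor
          · rintro ⟨i, h1, h2, e, he, h3, h4⟩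
            exact ⟨Nat.zero_le _, 2 * e, ⟨i, h1, e, he, rfl⟩, h3, by omega⟩
          · rintro ⟨_, _, ⟨i, h1, e, he, rfl⟩, h3, h4⟩
            exact ⟨i, h1, by omega, e, he, h3, by omega⟩
        rw [e]
        exact (hTs 0 0).mono (by omega) (by omega)
      | succ l ih =>
        have e : {w : σ →₀ ℕ | ∃ i, i ≤ l + 1 ∧ i ≤ w z ∧ ∃ e ∈ FA c k i,
            2 * e ≤ w x ∧ 2 * (N - e) ≤ w y} =
            {w : σ →₀ ℕ | ∃ i, i ≤ l ∧ i ≤ w z ∧ ∃ e ∈ FA c k i,
              2 * e ≤ w x ∧ 2 * (N - e) ≤ w y} ∪ {w | l + 1 ≤ w z ∧ w ∈ St x y (2 * N)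
              {e' | ∃ i, i ≤ l + 1 ∧ ∃ e ∈ FA c k i, e' = 2 * e}} := by
          ext w
          simp only [Set.mem_ofPred_eq, mem_St, Set.mem_union]
          constructor
          · rintro ⟨i, h1, h2, e, he, h3, h4⟩
            by_cases hi : i = l + 1
            · subst hi
              exact Or.inr ⟨h2, 2 * e, ⟨_, le_rfl, e, he, rfl⟩, h3, by omega⟩
            · exact Or.inl ⟨i, by omega, h2, e, he, h3, h4⟩
          · rintro (⟨i, h1, h2, e, he, h3, h4⟩ | ⟨h0, _, ⟨i, h1, e, he, rfl⟩, h3, h4⟩)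
            · exact ⟨i, by omega, h2, e, he, h3, h4⟩
            · exact ⟨i, h1, by omega, e, he, h3, by omega⟩
        have ei : {w : σ →₀ ℕ | ∃ i, i ≤ l ∧ i ≤ w z ∧ ∃ e ∈ FA c k i,
              2 * e ≤ w x ∧ 2 * (N - e) ≤ w y} ∩ {w | l + 1 ≤ w z ∧ w ∈ St x y (2 * N)
              {e' | ∃ i, i ≤ l + 1 ∧ ∃ e ∈ FA c k i, e' = 2 * e}} =
            {w | l + 1 ≤ w z ∧ w ∈ St x y (2 * N)
              {e' | ∃ i, i ≤ l ∧ ∃ e ∈ FA c k i, e' = 2 * e}} := by
          ext w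
          simp only [Set.mem_ofPred_eq, mem_St, Set.mem_inter_iff]
          constructor
          · rintro ⟨⟨i, h1, h2, e, he, h3, h4⟩, h0, _⟩
            exact ⟨h0, 2 * e, ⟨i, h1, e, he, rfl⟩, h3, by omega⟩
          · rintro ⟨h0, _, ⟨i, h1, e, he, rfl⟩, h3, h4⟩
            exact ⟨⟨i, h1, by omega, e, he, h3, by omega⟩, h0, 2 * e,
              ⟨i, by omega, e, he, rfl⟩, h3, h4⟩
        rw [e]
        refine Nice.union (t := 1) (ih.mono le_rfl (by omega)) ?_ ?_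
        · exact (hTs _ _).mono (by omega) (by omega)
        · rw [ei]
          exact (hTs _ _).mono (by omega) (by omega)
    have e : AS c x y z k = {w : σ →₀ ℕ | ∃ i, i ≤ k ∧ i ≤ w z ∧ ∃ e ∈ FA c k i,
        2 * e ≤ w x ∧ 2 * (N - e) ≤ w y} := by
      ext w
      rw [mem_AS, Set.mem_ofPred_eq, ← hN]
      constructor
      · rintro ⟨i, h1, e, he, h2⟩
        exact ⟨i, FA_index he, h1, e, he, h2⟩
      · rintro ⟨i, _, h1, e, he, h2⟩
        exact ⟨i, h1, e, he, h2⟩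
    rw [e]
    refine (key k).mono le_rfl ?_
    have h1 : N ≤ c * (2 * c + 2) := by
      rw [hN]; exact Nat.mul_le_mul_right _ hkc.le
    omega

/-- Membership above the generator involving `u`. -/
theorem mem_AS_of_AT (hc : 1 ≤ c) {k : ℕ} (hk : 1 ≤ k) {w : σ →₀ ℕ}
    (h1 : 2 * (k * (2 * c + 2) - 1) ≤ w x) (h2 : 2 ≤ w y) :
    w ∈ AS c x y z k ↔ 2 * (k * (2 * c + 2)) ≤ w x ∨ 4 ≤ w y := by
  obtain ⟨N, hN⟩ : ∃ N, N = k * (2 * c + 2) := ⟨_, rfl⟩
  have hN2 : 2 * c + 2 ≤ N := by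
    rw [hN]; exact Nat.le_mul_of_pos_left _ hk
  rw [mem_AS]
  rw [← hN] at h1 ⊢
  constructor
  · rintro ⟨i, _, e, he, h3, h4⟩
    have := FA_bound hc he
    rw [← hN] at this
    omega
  · rintro (h3 | h3)
    · refine ⟨0, Nat.zero_le _, N, ?_, h3, by omega⟩
      rw [hN]; exact top_mem_FA k
    · refine ⟨0, Nat.zero_le _, N - 2, ?_, by omega, by omega⟩
      rw [hN]; exact top2_mem_FA hc hk

theorem nice_UA {V : Set σ} (hx : x ∈ V) (hy : y ∈ V) (hz : z ∈ V) (hu : u ∈ V) (hxy : x ≠ y)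
    (hxz : x ≠ z) (hyz : y ≠ z) (hxu : x ≠ u) (hyu : y ≠ u) (hc : 1 ≤ c) {k : ℕ} (hk : 1 ≤ k)
    (hh : 2 * (c * (2 * c + 2)) + c ≤ h) :
    Nice V (UA c h x y z u k) 2 (2 * (k * (2 * c + 2)) + h + 2) := by
  obtain ⟨N, hN⟩ : ∃ N, N = k * (2 * c + 2) := ⟨_, rfl⟩
  have hN2 : 2 * c + 2 ≤ N := by
    rw [hN]; exact Nat.le_mul_of_pos_left _ hk
  have hdeg : ∀ a b, ((two x y a b + Finsupp.single u h : σ →₀ ℕ)).degree = a + b + h := by
    intro a b
    rw [map_add, degree_two, Finsupp.degree_single]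
  have hsupp : ∀ a b, ∀ j, j ∉ V → (two x y a b + Finsupp.single u h : σ →₀ ℕ) j = 0 := by
    intro a b j hj
    rw [Finsupp.add_apply, two_eq_zero hx hy hj, single_eq_zero_of hu hj]
  have hle : ∀ (a b : ℕ) (w : σ →₀ ℕ), two x y a b + Finsupp.single u h ≤ w ↔
      a ≤ w x ∧ b ≤ w y ∧ h ≤ w u := by
    intro a b w
    constructor
    · intro hle
      have h1 := hle x
      have h2 := hle y
      have h3 := hle u
      simp only [two, Finsupp.add_apply, Finsupp.single_eq_same, Finsupp.single_eq_of_ne hxy,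
        Finsupp.single_eq_of_ne hxy.symm, Finsupp.single_eq_of_ne hxu,
        Finsupp.single_eq_of_ne hxu.symm, Finsupp.single_eq_of_ne hyu,
        Finsupp.single_eq_of_ne hyu.symm] at h1 h2 h3
      exact ⟨by omega, by omega, by omega⟩
    · rintro ⟨h1, h2, h3⟩ j
      rw [Finsupp.add_apply]
      by_cases hj : j = u
      · subst hj
        rw [two, Finsupp.add_apply, Finsupp.single_eq_of_ne hxu.symm,
          Finsupp.single_eq_of_ne hyu.symm, Finsupp.single_eq_same]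
        omega
      · rw [Finsupp.single_eq_of_ne hj, add_zero]
        exact (two_le hxy).2 ⟨h1, h2⟩ j
  have hup : ∀ a b, up (two x y a b + Finsupp.single u h) =
      {w : σ →₀ ℕ | a ≤ w x ∧ b ≤ w y ∧ h ≤ w u} := by
    intro a b
    ext w
    exact hle a b w
  have hnup : ∀ a b, Nice V {w : σ →₀ ℕ | a ≤ w x ∧ b ≤ w y ∧ h ≤ w u} 0 (a + b + h) := by
    intro a b
    rw [← hup]
    exact nice_up (hsupp a b) (by rw [hdeg])
  rw [UA]
  refine Nice.union (t := 1) (nice_AS hx hy hz hxy hxz hyz hc hk hh) ?_ ?_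
  · rw [AT]
    refine (hnup _ _).mono (by omega) ?_
    omega
  · have e : AS c x y z k ∩ AT c h x y u k =
        {w : σ →₀ ℕ | 2 * N ≤ w x ∧ 2 ≤ w y ∧ h ≤ w u} ∪
        {w : σ →₀ ℕ | 2 * (N - 1) ≤ w x ∧ 4 ≤ w y ∧ h ≤ w u} := by
      ext w
      simp only [Set.mem_inter_iff, mem_AT, Set.mem_union, Set.mem_ofPred_eq]
      constructor
      · rintro ⟨h1, h2, h3, h4⟩
        rw [mem_AS_of_AT hc hk h2 h3, ← hN] at h1
        rw [← hN] at h2
        omega
      · intro h1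
        have h2 : 2 * (k * (2 * c + 2) - 1) ≤ w x := by rw [← hN]; omega
        have h3 : 2 ≤ w y := by omega
        refine ⟨?_, h2, h3, by omega⟩
        rw [mem_AS_of_AT hc hk h2 h3, ← hN]
        omega
    have ei : {w : σ →₀ ℕ | 2 * N ≤ w x ∧ 2 ≤ w y ∧ h ≤ w u} ∩
        {w : σ →₀ ℕ | 2 * (N - 1) ≤ w x ∧ 4 ≤ w y ∧ h ≤ w u} =
        {w : σ →₀ ℕ | 2 * N ≤ w x ∧ 4 ≤ w y ∧ h ≤ w u} := by
      ext w
      simp only [Set.mem_inter_iff, Set.mem_ofPred_eq]
      omega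
    rw [e, ← hN]
    refine Nice.union (t := 0) ?_ ?_ ?_
    · exact (hnup _ _).mono (by omega) (by omega)
    · exact (hnup _ _).mono (by omega) (by omega)
    · rw [ei]
      exact (hnup _ _).mono (by omega) (by omega)

theorem AS_add (hxy : x ≠ y) (hxz : x ≠ z) (hyz : y ≠ z) (hc : 1 ≤ c) {k : ℕ} {w : σ →₀ ℕ} :
    w ∈ AS c x y z (k + 1) ↔ ∃ v ∈ AS c x y z k, ∃ v' ∈ AS c x y z 1, v + v' = w := by
  constructor
  · rintro ⟨i, h1, e, he, h2, h3⟩
    obtain ⟨a, i₁, ha, b, i₂, hb, rfl, rfl⟩ := FA_split.1 he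
    have ha' := FA_le hc ha
    have hb' := FA_le hc hb
    rw [one_mul] at hb'
    have hs : (k + 1) * (2 * c + 2) = k * (2 * c + 2) + (2 * c + 2) := by ring
    let v' : σ →₀ ℕ := two x y (2 * b) (2 * (2 * c + 2 - b)) + Finsupp.single z i₂
    have hvx : v' x = 2 * b := by
      simp [v', two, Finsupp.single_eq_of_ne hxy, Finsupp.single_eq_of_ne hxz]
    have hvy : v' y = 2 * (2 * c + 2 - b) := by
      simp [v', two, Finsupp.single_eq_of_ne hxy.symm, Finsupp.single_eq_of_ne hyz]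
    have hvz : v' z = i₂ := by
      simp [v', two, Finsupp.single_eq_of_ne hxz.symm, Finsupp.single_eq_of_ne hyz.symm]
    have hle : v' ≤ w := by
      intro j
      by_cases hjx : j = x
      · subst hjx; rw [hvx]; omega
      · by_cases hjy : j = y
        · subst hjy; rw [hvy]; omega
        · by_cases hjz : j = z
          · subst hjz; rw [hvz]; omega
          · have : v' j = 0 := by
              simp [v', two, Finsupp.single_eq_of_ne hjx, Finsupp.single_eq_of_ne hjy,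
                Finsupp.single_eq_of_ne hjz]
            rw [this]; exact Nat.zero_le _
    refine ⟨w - v', ⟨i₁, ?_, a, ha, ?_, ?_⟩, v', ⟨i₂, ?_, b, hb, ?_, ?_⟩,
      tsub_add_cancel_of_le hle⟩
    · rw [Finsupp.tsub_apply, hvz]; omega
    · rw [Finsupp.tsub_apply, hvx]; omega
    · rw [Finsupp.tsub_apply, hvy]; omega
    · rw [hvz]
    · rw [hvx]
    · rw [hvy, one_mul]
  · rintro ⟨v, ⟨i, h1, e, he, h2, h3⟩, v', ⟨i', h4, e', he', h5, h6⟩, rfl⟩
    have h7 := FA_le hc he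
    have h8 := FA_le hc he'
    rw [one_mul] at h6 h8
    have hs : (k + 1) * (2 * c + 2) = k * (2 * c + 2) + (2 * c + 2) := by ring
    refine ⟨i + i', ?_, e + e', FA_add he he', ?_, ?_⟩
    · rw [Finsupp.add_apply]; omega
    · rw [Finsupp.add_apply]; omega
    · rw [Finsupp.add_apply]; omega

theorem UA_succ (hxy : x ≠ y) (hxz : x ≠ z) (hyz : y ≠ z) (hxu : x ≠ u) (hc : 1 ≤ c) {k : ℕ}
    (hk : 1 ≤ k) {w : σ →₀ ℕ} :
    w ∈ UA c h x y z u (k + 1) ↔
      ∃ v ∈ UA c h x y z u k, ∃ v' ∈ UA c h x y z u 1, v + v' = w := by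
  have hs : (k + 1) * (2 * c + 2) = k * (2 * c + 2) + (2 * c + 2) := by ring
  have hk2 : 2 * c + 2 ≤ k * (2 * c + 2) := Nat.le_mul_of_pos_left _ hk
  constructor
  · rintro (h1 | ⟨h1, h2, h3⟩)
    · obtain ⟨v, hv, v', hv', rfl⟩ := (AS_add hxy hxz hyz hc).1 h1
      exact ⟨v, Or.inl hv, v', Or.inl hv', rfl⟩
    · let v : σ →₀ ℕ := Finsupp.single x (2 * (k * (2 * c + 2)))
      have hvx : v x = 2 * (k * (2 * c + 2)) := by simp [v]
      have hvj : ∀ j, j ≠ x → v j = 0 := fun j hj => by simp [v, Finsupp.single_eq_of_ne hj]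
      have hle : v ≤ w := by
        intro j
        by_cases hjx : j = x
        · subst hjx; rw [hvx]; omega
        · rw [hvj j hjx]; exact Nat.zero_le _
      refine ⟨v, Or.inl ⟨0, Nat.zero_le _, _, top_mem_FA k, hvx.ge, by omega⟩, w - v, ?_,
        add_tsub_cancel_of_le hle⟩
      right
      refine ⟨?_, ?_, ?_⟩
      · rw [Finsupp.tsub_apply, hvx, one_mul]; omega
      · rw [Finsupp.tsub_apply, hvj y hxy.symm]; omega
      · rw [Finsupp.tsub_apply, hvj u hxu.symm]; omega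
  · rintro ⟨v, hv, v', hv', rfl⟩
    rcases hv with hv | ⟨h1, h2, h3⟩
    · rcases hv' with hv' | ⟨h4, h5, h6⟩
      · exact Or.inl ((AS_add hxy hxz hyz hc).2 ⟨v, hv, v', hv', rfl⟩)
      · rw [one_mul] at h4
        obtain ⟨i, h1, e, he, h2, h3⟩ := hv
        rcases FA_shift hc he with ⟨rfl, rfl⟩ | ⟨i', hi', he'⟩
        · right
          refine ⟨?_, ?_, ?_⟩ <;> (rw [Finsupp.add_apply]; omega)
        · left
          have := FA_le hc he
          have := FA_le hc he'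
          refine ⟨i', ?_, _, he', ?_, ?_⟩ <;> (rw [Finsupp.add_apply]; omega)
    · rcases hv' with hv' | ⟨h4, h5, h6⟩
      · obtain ⟨i, h7, e, he, h8, h9⟩ := hv'
        rw [one_mul] at h9
        have he2 := FA_le hc he
        rw [one_mul] at he2
        by_cases heN : e = 2 * c + 2
        · right
          refine ⟨?_, ?_, ?_⟩ <;> (rw [Finsupp.add_apply]; omega)
        · left
          -- position `k N - 1 + e = (k - 1) N + (2 c + 1 + e)`
          obtain ⟨k', rfl⟩ : ∃ k', k = k' + 1 := ⟨k - 1, by omega⟩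
          have h10 : (2 * c + 1) + e ∈ ksum (BA c) 2 := by
            refine BA_two hc ?_ heN
            rw [FA_one] at he
            rcases he with ⟨_, h⟩ | ⟨_, h⟩
            · exact Or.inl h
            · exact Or.inr h
          rw [← FA_zero_eq] at h10
          have h11 := FA_add (top_mem_FA (c := c) k') h10
          have hs' : (k' + 1) * (2 * c + 2) = k' * (2 * c + 2) + (2 * c + 2) := by ring
          have h12 := FA_le hc h11
          refine ⟨0, Nat.zero_le _, _, h11, ?_, ?_⟩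
          · rw [Finsupp.add_apply]; omega
          · rw [Finsupp.add_apply]; omega
      · left
        rw [one_mul] at h4
        refine ⟨0, Nat.zero_le _, _, top2_mem_FA hc (by omega : 1 ≤ k + 1), ?_, ?_⟩
        · rw [Finsupp.add_apply]; omega
        · rw [Finsupp.add_apply]; omega

end

end Pool.Agent.Lib.MP_0db35b_al
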