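import Pool.Agent.Lib.MP_0db35b_al.DepthMono

set_option autoImplicit false
set_option linter.unusedSectionVars false

/-!
# Associated primes, v-number and initial degree of monomial ideals
-/

universe u

namespace Pool.Agent.Lib.MP_0db35b_al

open MvPolynomial

variable {σ : Type} [Fintype σ] [LinearOrder σ] {K : Type u} [Field K]

variable (K) in
/-- The prime ideal generated by the variables in `F`. -/
noncomputable def PF (F : Set σ) : Ideal (MvPolynomial σ K) := Ideal.span (X '' F)

theorem mem_PF {F : Set σ} {f : MvPolynomial σ K} :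
    f ∈ PF K F ↔ ∀ m ∈ f.support, ∃ j ∈ F, m j ≠ 0 := mem_ideal_span_X_image

theorem X_mem_PF {F : Set σ} {j : σ} : (X j : MvPolynomial σ K) ∈ PF K F ↔ j ∈ F := by
  rw [mem_PF]
  constructor
  · intro h
    obtain ⟨l, hl, hl'⟩ := h (Finsupp.single j 1) (by
      rw [mem_support_iff, X, coeff_monomial, if_pos rfl]; exact one_ne_zero)
    by_cases hjl : l = j
    · exact hjl ▸ hl
    · rw [Finsupp.single_eq_of_ne hjl] at hl'
      exact absurd rfl hl'
  · intro h m hm
    rw [mem_support_iff, X, coeff_monomial] at hm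
    split_ifs at hm with h1
    · refine ⟨j, h, ?_⟩
      rw [← h1]; simp
    · exact absurd rfl hm

theorem PF_injective : Function.Injective (PF K : Set σ → Ideal (MvPolynomial σ K)) := by
  intro F G h
  ext j
  rw [← X_mem_PF (K := K), h, X_mem_PF]

open Classical in
/-- The part of `f` without the variables in `F`. -/
noncomputable def outer (F : Set σ) (f : MvPolynomial σ K) : MvPolynomial σ K :=
  ∑ m ∈ f.support with (∀ j ∈ F, m j = 0), monomial m (coeff m f)

theorem coeff_outer (F : Set σ) (f : MvPolynomial σ K) (m : σ →₀ ℕ) [Decidable (∀ j ∈ F, m j = 0)] :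
    coeff m (outer F f) = if ∀ j ∈ F, m j = 0 then coeff m f else 0 := by
  classical
  rw [outer, coeff_sum]
  simp only [coeff_monomial]
  rw [Finset.sum_ite_eq']
  by_cases h1 : ∀ j ∈ F, m j = 0
  · rw [if_pos h1]
    split_ifs with h2
    · rfl
    · rw [Finset.mem_filter, not_and_or] at h2
      rcases h2 with h2 | h2
      · exact (notMem_support_iff.1 h2).symm
      · exact absurd h1 h2
  · rw [if_neg h1, if_neg]
    rw [Finset.mem_filter]
    exact fun h => h1 h.2

theorem mem_PF_iff_outer {F : Set σ} {f : MvPolynomial σ K} : f ∈ PF K F ↔ outer F f = 0 := by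
  classical
  rw [mem_PF]
  constructor
  · intro h
    ext m
    rw [coeff_outer, coeff_zero]
    split_ifs with h1
    · by_contra h2
      obtain ⟨j, hj, hj'⟩ := h m (mem_support_iff.2 h2)
      exact hj' (h1 j hj)
    · rfl
  · intro h m hm
    by_contra hcon
    push Not at hcon
    have := congrArg (coeff m) h
    rw [coeff_outer, if_pos hcon, coeff_zero] at this
    exact (mem_support_iff.1 hm) this

theorem sub_outer_mem (F : Set σ) (f : MvPolynomial σ K) : f - outer F f ∈ PF K F := by
  classical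
  rw [mem_PF]
  intro m hm
  by_contra hcon
  push Not at hcon
  rw [mem_support_iff, coeff_sub, coeff_outer, if_pos hcon, sub_self] at hm
  exact hm rfl

theorem outer_mul_ne_zero {F : Set σ} {f g : MvPolynomial σ K} (hf : f ∉ PF K F)
    (hg : g ∉ PF K F) : f * g ∉ PF K F := by
  classical
  have hf' : outer F f ≠ 0 := fun h => hf (mem_PF_iff_outer.2 h)
  have hg' : outer F g ≠ 0 := fun h => hg (mem_PF_iff_outer.2 h)
  have hfg : outer F f * outer F g ≠ 0 := mul_ne_zero hf' hg'
  intro h
  have h1 : outer F f * outer F g ∈ PF K F := by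
    have e : outer F f * outer F g = f * g - (f - outer F f) * g -
        outer F f * (g - outer F g) := by ring
    rw [e]
    exact Ideal.sub_mem _ (Ideal.sub_mem _ h (Ideal.mul_mem_right _ _ (sub_outer_mem F f)))
      (Ideal.mul_mem_left _ _ (sub_outer_mem F g))
  obtain ⟨m, hm⟩ := support_nonempty.2 hfg
  obtain ⟨j, hj, hj'⟩ := mem_PF.1 h1 m hm
  obtain ⟨a, ha, b, hb, rfl⟩ := Finset.mem_add.1 (support_mul _ _ hm)
  rw [mem_support_iff, coeff_outer] at ha hb
  split_ifs at ha with h2
  · split_ifs at hb with h3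
    · apply hj'
      rw [Finsupp.add_apply, h2 j hj, h3 j hj]
    · exact hb rfl
  · exact ha rfl

theorem PF_isPrime (F : Set σ) : (PF K F).IsPrime := by
  constructor
  · intro h
    have h1 : (1 : MvPolynomial σ K) ∈ PF K F := by rw [h]; trivial
    rw [mem_PF] at h1
    obtain ⟨j, _, hj⟩ := h1 0 (by rw [mem_support_iff]; simp)
    exact hj rfl
  · intro f g h
    by_contra hcon
    push Not at hcon
    exact outer_mul_ne_zero hcon.1 hcon.2 h

/-- `(I_U : x^u)` is the prime ideal generated by the variables in `F`. -/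
def Wit (U : Set (σ →₀ ℕ)) (u : σ →₀ ℕ) (F : Set σ) : Prop :=
  ∀ w : σ →₀ ℕ, u + w ∈ U ↔ ∃ j ∈ F, w j ≠ 0

theorem colon_monomial {U : Set (σ →₀ ℕ)} (hU : IsUpperSet U) {u : σ →₀ ℕ} {F : Set σ}
    (h : Wit U u F) : Submodule.colon (mid K U) {monomial u (1 : K)} = PF K F := by
  ext f
  rw [Submodule.mem_colon_singleton, smul_eq_mul, mem_mid' hU, mem_PF]
  constructor
  · intro h1 m hm
    rw [← h m]
    refine h1 _ ?_
    rw [add_comm, coeff_mul_monomial, mul_one]
    exact mem_support_iff.1 hm
  · intro h1 v hv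
    obtain ⟨a, ha, b, hb, rfl⟩ := Finset.mem_add.1 (support_mul _ _ (mem_support_iff.2 hv))
    have hb' : b = u := by
      have := support_monomial_subset hb
      simpa using this
    subst hb'
    rw [add_comm, h a]
    exact h1 a ha

theorem monomial_notMem {p : Ideal (MvPolynomial σ K)} (hp : p.IsPrime) {w : σ →₀ ℕ}
    (hw : ∀ j, X j ∈ p → w j = 0) : monomial w (1 : K) ∉ p := by
  intro h
  rw [monomial_eq, map_one, one_mul, Finsupp.prod] at h
  obtain ⟨j, hj, hj'⟩ := (hp.prod_mem_iff).1 h
  have h1 := hp.mem_of_pow_mem _ hj'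
  exact (Finsupp.mem_support_iff.1 hj) (hw j h1)

/-- The associated primes of a monomial ideal are generated by variables, and they are annihilators
of monomials. -/
theorem exists_wit {U : Set (σ →₀ ℕ)} (hU : IsUpperSet U) {f : MvPolynomial σ K}
    {p : Ideal (MvPolynomial σ K)} (hp : p.IsPrime) (h : Submodule.colon (mid K U) {f} = p) :
    ∃ F : Set σ, p = PF K F ∧ ∃ u ∈ f.support, Wit U u F := by
  classical
  have hmem : ∀ g, g ∈ p ↔ g * f ∈ mid K U := by
    intro g
    rw [← h, Submodule.mem_colon_singleton, smul_eq_mul]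
  let F : Set σ := {j | X j ∈ p}
  have hF : ∀ j, j ∈ F ↔ X j ∈ p := fun j => Iff.rfl
  have hPle : PF K F ≤ p := by
    rw [PF, Ideal.span_le]
    rintro _ ⟨j, hj, rfl⟩
    exact hj
  -- choose multipliers
  have hmult : ∀ s : Finset (σ →₀ ℕ), ∃ w : σ →₀ ℕ, (∀ j ∈ F, w j = 0) ∧
      ∀ u ∈ s, (∃ v : σ →₀ ℕ, (∀ j ∈ F, v j = 0) ∧ u + v ∈ U) → u + w ∈ U := by
    intro s
    induction s using Finset.induction_on with
    | empty => exact ⟨0, fun _ _ => rfl, fun u hu => absurd hu (Finset.notMem_empty u)⟩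
    | insert a s _ ih =>
      obtain ⟨w, hw, hw'⟩ := ih
      by_cases ha : ∃ v : σ →₀ ℕ, (∀ j ∈ F, v j = 0) ∧ a + v ∈ U
      · obtain ⟨v, hv, hv'⟩ := ha
        refine ⟨w + v, fun j hj => by rw [Finsupp.add_apply, hw j hj, hv j hj], ?_⟩
        intro u hu hu'
        rcases Finset.mem_insert.1 hu with rfl | hu
        · exact hU (by rw [add_comm w v, ← add_assoc]; exact le_self_add) hv'
        · exact hU (by rw [← add_assoc]; exact le_self_add) (hw' u hu hu')
      · refine ⟨w, hw, ?_⟩
        intro u hu hu'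
        rcases Finset.mem_insert.1 hu with rfl | hu
        · exact absurd hu' ha
        · exact hw' u hu hu'
  obtain ⟨w, hw, hw'⟩ := hmult f.support
  have hwp : monomial w (1 : K) ∉ p := monomial_notMem hp fun j hj => hw j hj
  have hpF : p = PF K F := by
    refine le_antisymm ?_ hPle
    intro g hg
    by_contra hgF
    have hg'0 : outer F g ≠ 0 := fun h0 => hgF (mem_PF_iff_outer.2 h0)
    have hg' : outer F g ∈ p := by
      have := Ideal.sub_mem _ hg (hPle (sub_outer_mem F g))
      rwa [sub_sub_cancel] at this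
    -- the part of f not absorbed
    let f₁ : MvPolynomial σ K := ∑ u ∈ f.support with
      ¬ (∃ v : σ →₀ ℕ, (∀ j ∈ F, v j = 0) ∧ u + v ∈ U), monomial u (coeff u f)
    have hf₁ : ∀ u, coeff u f₁ =
        if ∃ v : σ →₀ ℕ, (∀ j ∈ F, v j = 0) ∧ u + v ∈ U then 0 else coeff u f := by
      intro u
      simp only [f₁, coeff_sum, coeff_monomial]
      rw [Finset.sum_ite_eq']
      by_cases h1 : ∃ v : σ →₀ ℕ, (∀ j ∈ F, v j = 0) ∧ u + v ∈ U
      · rw [if_pos h1, if_neg]
        rw [Finset.mem_filter]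
        exact fun h2 => h2.2 h1
      · rw [if_neg h1]
        split_ifs with h2
        · rfl
        · rw [Finset.mem_filter, not_and_or] at h2
          rcases h2 with h2 | h2
          · exact (notMem_support_iff.1 h2).symm
          · exact absurd h1 h2
    have hdiff : monomial w (1 : K) * (f - f₁) ∈ mid K U := by
      rw [mem_mid' hU]
      intro m hm
      obtain ⟨a, ha, b, hb, rfl⟩ := Finset.mem_add.1 (support_mul _ _ (mem_support_iff.2 hm))
      have ha' : a = w := by
        have := support_monomial_subset ha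
        simpa using this
      subst ha'
      rw [mem_support_iff, coeff_sub, hf₁] at hb
      split_ifs at hb with h1
      · rw [sub_zero] at hb
        rw [add_comm]
        exact hw' b (mem_support_iff.2 hb) h1
      · rw [sub_self] at hb
        exact absurd rfl hb
    have hf₁0 : f₁ ≠ 0 := by
      intro h0
      rw [h0, sub_zero, ← hmem] at hdiff
      exact hwp hdiff
    have hprod : monomial w (1 : K) * (outer F g * f₁) ∈ mid K U := by
      have e : monomial w (1 : K) * (outer F g * f₁) = monomial w (1 : K) * (outer F g * f) -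
          outer F g * (monomial w (1 : K) * (f - f₁)) := by ring
      rw [e]
      exact Ideal.sub_mem _ (Ideal.mul_mem_left _ _ ((hmem _).1 hg'))
        (Ideal.mul_mem_left _ _ hdiff)
    obtain ⟨m, hm⟩ := support_nonempty.2 (mul_ne_zero hg'0 hf₁0)
    have hwm : w + m ∈ U := by
      refine (mem_mid' hU).1 hprod _ ?_
      rw [coeff_monomial_mul, one_mul]
      exact mem_support_iff.1 hm
    obtain ⟨a, ha, b, hb, rfl⟩ := Finset.mem_add.1 (support_mul _ _ hm)
    rw [mem_support_iff, coeff_outer] at ha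
    rw [mem_support_iff, hf₁] at hb
    split_ifs at ha with h1
    · split_ifs at hb with h2
      · exact hb rfl
      · apply h2
        refine ⟨w + a, fun j hj => by rw [Finsupp.add_apply, hw j hj, h1 j hj], ?_⟩
        rwa [add_comm b, add_assoc]
    · exact ha rfl
  refine ⟨F, hpF, ?_⟩
  -- find the witness
  obtain ⟨u, hu, hu'⟩ : ∃ u ∈ f.support, ¬ ∃ v : σ →₀ ℕ, (∀ j ∈ F, v j = 0) ∧ u + v ∈ U := by
    by_contra hcon
    push Not at hcon
    apply hwp
    rw [hmem, mem_mid' hU]
    intro m hm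
    obtain ⟨a, ha, b, hb, rfl⟩ := Finset.mem_add.1 (support_mul _ _ (mem_support_iff.2 hm))
    have ha' : a = w := by
      have := support_monomial_subset ha
      simpa using this
    subst ha'
    rw [add_comm]
    exact hw' b hb (hcon b hb)
  refine ⟨u, hu, fun v => ?_⟩
  constructor
  · intro h1
    by_contra h2
    push Not at h2
    exact hu' ⟨v, h2, h1⟩
  · rintro ⟨j, hj, hj'⟩
    have h1 : X j * f ∈ mid K U := (hmem _).1 hj
    have h2 : u + Finsupp.single j 1 ∈ U := by
      refine (mem_mid' hU).1 h1 _ ?_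
      rw [mul_comm, coeff_mul_X]
      exact mem_support_iff.1 hu
    refine hU ?_ h2
    refine add_le_add_right ?_ u
    rw [Finsupp.single_le_iff]
    omega

theorem colon_bot_mk (I : Ideal (MvPolynomial σ K)) (f : MvPolynomial σ K) :
    Submodule.colon (⊥ : Submodule (MvPolynomial σ K) (MvPolynomial σ K ⧸ I))
      {Submodule.Quotient.mk f} = Submodule.colon I {f} := by
  ext g
  rw [Submodule.mem_colon_singleton, Submodule.mem_colon_singleton, Submodule.mem_bot,
    ← Submodule.Quotient.mk_smul, Submodule.Quotient.mk_eq_zero]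

/-- The associated primes of a monomial ideal. -/
theorem associatedPrimes_mid {U : Set (σ →₀ ℕ)} (hU : IsUpperSet U) :
    associatedPrimes (MvPolynomial σ K) (MvPolynomial σ K ⧸ mid K U) =
      PF K '' {F | ∃ u, Wit U u F} := by
  ext p
  rw [AssociatedPrimes.mem_iff, isAssociatedPrime_iff]
  constructor
  · rintro ⟨hp, x, hx⟩
    obtain ⟨f, rfl⟩ := Submodule.Quotient.mk_surjective _ x
    rw [colon_bot_mk] at hx
    obtain ⟨F, hF, u, _, hu⟩ := exists_wit hU hp hx.symm
    exact ⟨F, ⟨u, hu⟩, hF.symm⟩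
  · rintro ⟨F, ⟨u, hu⟩, rfl⟩
    refine ⟨PF_isPrime F, Submodule.Quotient.mk (monomial u 1), ?_⟩
    rw [colon_bot_mk, colon_monomial hU hu]

theorem vNumber_mid {U : Set (σ →₀ ℕ)} (hU : IsUpperSet U) :
    vNumber (mid K U) = sInf {d | ∃ u : σ →₀ ℕ, u.degree = d ∧ ∃ F, Wit U u F} := by
  rw [vNumber]
  congr 1
  ext d
  constructor
  · rintro ⟨p, hp, f, hf, hfp⟩
    obtain ⟨F, _, u, hu, hW⟩ := exists_wit hU hp.1 hfp
    refine ⟨u, ?_, F, hW⟩
    by_contra h
    exact (mem_support_iff.1 hu) (hf.coeff_eq_zero h)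
  · rintro ⟨u, rfl, F, hF⟩
    refine ⟨PF K F, ?_, monomial u 1, isHomogeneous_monomial _ rfl, colon_monomial hU hF⟩
    rw [associatedPrimes_mid hU]
    exact ⟨F, ⟨u, hF⟩, rfl⟩

theorem initDeg_mid {U : Set (σ →₀ ℕ)} (hU : IsUpperSet U) {d : ℕ}
    (h1 : ∃ u ∈ U, u.degree = d) (h2 : ∀ u ∈ U, d ≤ u.degree) : initDeg (mid K U) = d := by
  obtain ⟨u, hu, rfl⟩ := h1
  have hmem : ∃ f ∈ mid K U, f ≠ 0 ∧ f.IsHomogeneous u.degree := by
    refine ⟨monomial u 1, Ideal.subset_span ⟨u, hu, rfl⟩, ?_, isHomogeneous_monomial _ rfl⟩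
    intro h0
    rw [monomial_eq_zero] at h0
    exact one_ne_zero h0
  refine le_antisymm (Nat.sInf_le hmem) (le_csInf ⟨_, hmem⟩ ?_)
  rintro d ⟨f, hf, hf0, hfd⟩
  obtain ⟨m, hm⟩ := support_nonempty.2 hf0
  have h3 := h2 m ((mem_mid hU).1 hf m hm)
  have h4 : m.degree = d := by
    by_contra h
    exact (mem_support_iff.1 hm) (hfd.coeff_eq_zero h)
  omega

end Pool.Agent.Lib.MP_0db35b_al
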