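import Pool.Agent.Lib.MP_0db35b_al.Final

set_option autoImplicit false
set_option linter.unusedSectionVars false

/-!
# The ideal with prescribed stability indices
-/

universe u

namespace Pool.Agent.Lib.MP_0db35b_al

open MvPolynomial

section

variable {σ : Type} [Fintype σ] [LinearOrder σ]

theorem vars_map {ι : Type*} (L : List ι) (f g : ι → σ) {j : σ}
    (hj : j ∈ vars (L.map fun i => (f i, g i))) : ∃ i ∈ L, j = f i ∨ j = g i := by
  obtain ⟨p, hp, h⟩ := hj
  obtain ⟨i, hi, rfl⟩ := List.mem_map.1 hp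
  exact ⟨i, hi, h⟩

theorem good_map {ι : Type*} (L : List ι) (hL : L.Nodup) (f g : ι → σ)
    (hf : Function.Injective f) (hg : Function.Injective g) (hfg : ∀ i j, f i ≠ g j) :
    Good (L.map fun i => (f i, g i)) := by
  induction L with
  | nil => trivial
  | cons a L ih =>
    rw [List.nodup_cons] at hL
    refine ⟨hfg a a, ?_, ?_, ih hL.2⟩
    · intro h
      obtain ⟨i, hi, (h | h)⟩ := vars_map L f g h
      · exact hL.1 (hf h ▸ hi)
      · exact hfg a i h
    · intro h
      obtain ⟨i, hi, (h | h)⟩ := vars_map L f g h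
      · exact hfg i a h.symm
      · exact hL.1 (hg h ▸ hi)

end

/-- The variables `xᵢ` of the fourth factor. -/
def fX (d : ℕ) (i : Fin d) : Fin (2 * d + 8) := ⟨8 + 2 * i, by omega⟩

/-- The variables `yᵢ` of the fourth factor. -/
def gY (d : ℕ) (i : Fin d) : Fin (2 * d + 8) := ⟨9 + 2 * i, by omega⟩

/-- The data. -/
def dat (a d r v : ℕ) : Data (Fin (2 * d + 8)) where
  a := a
  r := r
  v := v
  xR := ⟨0, by omega⟩
  yR := ⟨1, by omega⟩
  xV := ⟨2, by omega⟩
  yV := ⟨3, by omega⟩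
  x := ⟨4, by omega⟩
  y := ⟨5, by omega⟩
  z := ⟨6, by omega⟩
  t := ⟨7, by omega⟩
  l := (List.finRange d).map fun i => (fX d i, gY d i)

theorem vars_ge {a d r v : ℕ} {j : Fin (2 * d + 8)} (hj : j ∈ vars (dat a d r v).l) :
    8 ≤ (j : ℕ) := by
  obtain ⟨i, _, (rfl | rfl)⟩ := vars_map _ _ _ hj
  · simp only [fX]; omega
  · simp only [gY]; omega

theorem dat_OK {a d r v : ℕ} (ha : 1 ≤ a) (hr : 1 ≤ r) (hv : 1 ≤ v) :
    (dat a d r v).OK := by
  have key : ∀ A : Set (Fin (2 * d + 8)), (∀ j ∈ A, (j : ℕ) < 8) →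
      Disjoint A (vars (dat a d r v).l) := by
    intro A hA
    rw [Set.disjoint_left]
    intro j hj hj'
    have h1 := hA j hj
    have h2 := vars_ge hj'
    omega
  refine ⟨ha, hr, hv, ?_, ?_, ?_, ?_, ?_, ?_, ?_, ?_, ?_, ?_, ?_, ?_, ?_, ?_, ?_⟩
  · simp [dat]
  · simp [dat]
  · simp [dat]
  · simp [dat]
  · simp [dat]
  · simp [dat]
  · simp [dat]
  · simp [dat]
  · refine good_map _ (List.nodup_finRange d) _ _ ?_ ?_ ?_
    · intro i j h
      have := Fin.mk.inj_iff.1 h
      exact Fin.ext (by omega)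
    · intro i j h
      have := Fin.mk.inj_iff.1 h
      exact Fin.ext (by omega)
    · intro i j h
      have := Fin.mk.inj_iff.1 h
      omega
  · rw [Set.disjoint_left]; simp [dat]
  · rw [Set.disjoint_left]; simp [dat]
  · refine key _ ?_
    simp [dat]
  · rw [Set.disjoint_left]; simp [dat]
  · refine key _ ?_
    simp [dat]
  · refine key _ ?_
    simp [dat]

/-- For all `a, d, r, v ≥ 1` there is a monomial ideal with the prescribed stability indices. -/
theorem main (K : Type u) [Field K] (a d r v : ℕ) (ha : 1 ≤ a) (hd : 1 ≤ d) (hr : 1 ≤ r)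
    (hv : 1 ≤ v) : ∃ (n : ℕ) (I : Ideal (MvPolynomial (Fin n) K)),
      (∀ f ∈ I, ∀ m : ℕ, homogeneousComponent m f ∈ I) ∧ I ≠ ⊥ ∧ I ≠ ⊤ ∧
      astab I = a ∧ dstab I = d ∧ rstab I = r ∧ vstab I = v := by
  have hD := dat_OK (d := d) ha hr hv
  have hlen : (dat a d r v).l.length = d := by simp [dat]
  have hne : (dat a d r v).l ≠ [] := by
    intro h
    rw [h] at hlen
    simp at hlen
    omega
  refine ⟨2 * d + 8, (dat a d r v).I K, ?_, ?_, ?_, Data.astab_eq hD,
    Data.dstab_eq hD hd hlen (by rw [Fintype.card_fin]; omega), Data.rstab_eq hD hne,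
    Data.vstab_eq hD⟩
  · intro f hf m
    rw [Data.I, mem_mid (Data.isUpperT 1)] at hf ⊢
    intro w hw
    refine hf w ?_
    rw [mem_support_iff, coeff_homogeneousComponent] at hw
    rw [mem_support_iff]
    intro h
    rw [h, ite_self] at hw
    exact hw rfl
  · intro h
    obtain ⟨w, hw⟩ := Data.nonempty (dat a d r v) 1
    have h1 : monomial w (1 : K) ∈ (dat a d r v).I K := Ideal.subset_span ⟨w, hw, rfl⟩
    rw [h, Ideal.mem_bot, monomial_eq_zero] at h1
    exact one_ne_zero h1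
  · intro h
    have h1 : (1 : MvPolynomial (Fin (2 * d + 8)) K) ∈ (dat a d r v).I K := by rw [h]; trivial
    rw [Data.I, mem_mid (Data.isUpperT 1)] at h1
    have h2 := h1 0 (by rw [mem_support_iff]; simp)
    have h3 := Data.LB1 hD le_rfl 0 h2
    rw [Data.α] at h3
    simp at h3

end Pool.Agent.Lib.MP_0db35b_al
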