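import Pool.Agent.Lib.MP_0db35b_al.Simp

set_option autoImplicit false
set_option linter.unusedSectionVars false

/-!
# Upper sets of exponent vectors built by shifts and Mayer-Vietoris steps
-/

namespace Pool.Agent.Lib.MP_0db35b_al

open Finset

variable {σ : Type*} [Fintype σ] [LinearOrder σ]

/-- The indicator vector of a finset. -/
noncomputable def ind (τ : Finset σ) : σ →₀ ℕ := ∑ j ∈ τ, Finsupp.single j 1

theorem ind_apply (τ : Finset σ) (l : σ) : ind τ l = if l ∈ τ then 1 else 0 := by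
  rw [ind, Finsupp.finsetSum_apply]
  simp [Finsupp.single_apply]

theorem ind_insert {j : σ} {τ : Finset σ} (h : j ∉ τ) :
    ind (insert j τ) = ind τ + Finsupp.single j 1 := by
  rw [ind, sum_insert h, add_comm]; rfl

theorem ind_mono {τ ρ : Finset σ} (h : ρ ⊆ τ) : ind ρ ≤ ind τ := by
  intro l
  rw [ind_apply, ind_apply]
  split_ifs with h1 h2
  · exact le_rfl
  · exact absurd (h h1) h2
  · exact Nat.zero_le _
  · exact le_rfl

theorem degree_ind (τ : Finset σ) : (ind τ).degree = τ.card := by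
  classical
  induction τ using Finset.induction_on with
  | empty => simp [ind]
  | insert j τ hj ih => rw [ind_insert hj, map_add, ih, card_insert_of_notMem hj,
      Finsupp.degree_single]

/-- The family of finsets `τ` such that the exponent vector `b - τ` belongs to `U`. -/
def fam (U : Set (σ →₀ ℕ)) (b : σ →₀ ℕ) : Set (Finset σ) := {τ | ∃ v ∈ U, v + ind τ = b}

theorem mem_fam {U : Set (σ →₀ ℕ)} {b : σ →₀ ℕ} {τ : Finset σ} :
    τ ∈ fam U b ↔ ∃ v ∈ U, v + ind τ = b := Iff.rfl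

theorem mem_fam_iff {U : Set (σ →₀ ℕ)} {b : σ →₀ ℕ} {τ : Finset σ} :
    τ ∈ fam U b ↔ ind τ ≤ b ∧ b - ind τ ∈ U := by
  constructor
  · rintro ⟨v, hv, rfl⟩
    exact ⟨le_add_self, by rwa [add_tsub_cancel_right]⟩
  · rintro ⟨h1, h2⟩
    exact ⟨_, h2, tsub_add_cancel_of_le h1⟩

theorem fam_down {U : Set (σ →₀ ℕ)} (hU : IsUpperSet U) (b : σ →₀ ℕ) : Down (fam U b) := by
  rintro τ hτ ρ hρ
  rw [mem_fam_iff] at hτ ⊢
  exact ⟨(ind_mono hρ).trans hτ.1, hU (tsub_le_tsub_left (ind_mono hρ) b) hτ.2⟩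

theorem fam_union (U U' : Set (σ →₀ ℕ)) (b : σ →₀ ℕ) : fam (U ∪ U') b = fam U b ∪ fam U' b := by
  ext τ
  simp only [mem_fam_iff, Set.mem_union]
  tauto

theorem fam_inter (U U' : Set (σ →₀ ℕ)) (b : σ →₀ ℕ) : fam (U ∩ U') b = fam U b ∩ fam U' b := by
  ext τ
  simp only [mem_fam_iff, Set.mem_inter_iff]
  tauto

theorem fam_shift {U : Set (σ →₀ ℕ)} {u b : σ →₀ ℕ} (h : u ≤ b) :
    fam ((u + ·) '' U) b = fam U (b - u) := by
  ext τ
  simp only [mem_fam, Set.mem_image]
  constructor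
  · rintro ⟨_, ⟨v, hv, rfl⟩, rfl⟩
    exact ⟨v, hv, by rw [add_assoc, add_tsub_cancel_left]⟩
  · rintro ⟨v, hv, h1⟩
    exact ⟨_, ⟨v, hv, rfl⟩, by rw [add_assoc, h1, add_tsub_cancel_of_le h]⟩

theorem fam_shift_of_not_le {U : Set (σ →₀ ℕ)} {u b : σ →₀ ℕ} (h : ¬ u ≤ b) :
    fam ((u + ·) '' U) b = ∅ := by
  ext τ
  simp only [mem_fam, Set.mem_image, Set.mem_empty_iff_false, iff_false]
  rintro ⟨_, ⟨v, hv, rfl⟩, rfl⟩
  exact h (by rw [add_assoc]; exact le_self_add)

/-- Upper sets of exponent vectors built from the set of all vectors and the empty set by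
shifts and Mayer-Vietoris steps; `t` bounds the projective dimension and `ρ` the regularity of the
corresponding monomial ideal. -/
inductive Constr : Set (σ →₀ ℕ) → ℕ → ℕ → Prop
  | univ : Constr Set.univ 0 0
  | empty : Constr ∅ 0 0
  | mono {U : Set (σ →₀ ℕ)} {t t' ρ ρ' : ℕ} (ht : t ≤ t') (hρ : ρ ≤ ρ') (h : Constr U t ρ) :
      Constr U t' ρ'
  | shift {U : Set (σ →₀ ℕ)} {t ρ : ℕ} (u : σ →₀ ℕ) (h : Constr U t ρ) :
      Constr ((u + ·) '' U) t (ρ + u.degree)
  | union {U U' : Set (σ →₀ ℕ)} {t ρ : ℕ} (h1 : Constr U (t + 1) ρ) (h2 : Constr U' (t + 1) ρ)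
      (h3 : Constr (U ∩ U') t (ρ + 1)) : Constr (U ∪ U') (t + 1) ρ

theorem isUpperSet_shift {U : Set (σ →₀ ℕ)} (hU : IsUpperSet U) (u : σ →₀ ℕ) :
    IsUpperSet ((u + ·) '' U) := by
  rintro a b hab ⟨v, hv, rfl⟩
  obtain ⟨c, rfl⟩ := exists_add_of_le hab
  exact ⟨v + c, hU le_self_add hv, by simp only [add_assoc]⟩

theorem Constr.isUpperSet {U : Set (σ →₀ ℕ)} {t ρ : ℕ} (h : Constr U t ρ) : IsUpperSet U := by
  induction h with
  | univ => exact isUpperSet_univ
  | empty => exact isUpperSet_empty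
  | mono _ _ _ ih => exact ih
  | shift u _ ih => exact isUpperSet_shift ih u
  | union _ _ _ ih1 ih2 _ => exact ih1.union ih2

theorem Van.of_empty {K : Type*} [Field K] (i : ℕ) : Van K (∅ : Set (Finset σ)) i := by
  intro c hc _
  refine ⟨0, fun τ h => absurd rfl h, ?_⟩
  rw [sd_zero]
  funext τ
  by_contra h
  exact (hc τ (Ne.symm h)).1

theorem fam_univ_zero_card {b : σ →₀ ℕ} (hb : b = 0) {τ : Finset σ} (h : τ ∈ fam Set.univ b) :
    τ.card = 0 := by
  rw [mem_fam_iff, hb] at h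
  have := degree_ind τ
  rw [← this]
  have h1 : ind τ = 0 := le_antisymm h.1 (zero_le)
  rw [h1]; simp

theorem Constr.van (K : Type*) [Field K] {U : Set (σ →₀ ℕ)} {t ρ : ℕ} (h : Constr U t ρ) :
    ∀ (b : σ →₀ ℕ) (i : ℕ), (t < i ∨ ρ + i < b.degree) → Van K (fam U b) i := by
  induction h with
  | univ =>
    intro b i hi
    by_cases hb : b = 0
    · intro c hc _
      refine ⟨0, fun τ h => absurd rfl h, ?_⟩
      rw [sd_zero]
      funext τ
      by_contra h
      obtain ⟨h1, h2⟩ := hc τ (Ne.symm h)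
      have h3 := fam_univ_zero_card hb h1
      have h4 : b.degree = 0 := by rw [hb]; simp
      omega
    · obtain ⟨j, hj⟩ : ∃ j, b j ≠ 0 := by
        by_contra hcon
        push Not at hcon
        exact hb (Finsupp.ext hcon)
      refine Van.of_cone (j := j) ?_ i
      intro τ hτ
      rw [mem_fam_iff] at hτ ⊢
      refine ⟨fun l => ?_, trivial⟩
      have := hτ.1 l
      rw [ind_apply] at this ⊢
      by_cases hlj : l = j
      · subst hlj
        rw [if_pos (mem_insert_self _ _)]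
        omega
      · simp only [mem_insert, hlj, false_or]
        exact this
  | empty =>
    intro b i _
    have : fam (∅ : Set (σ →₀ ℕ)) b = ∅ := by
      ext τ; simp [mem_fam]
    rw [this]
    exact Van.of_empty i
  | mono ht hρ _ ih =>
    intro b i hi
    refine ih b i ?_
    omega
  | shift u _ ih =>
    intro b i hi
    by_cases hu : u ≤ b
    · rw [fam_shift hu]
      refine ih _ _ ?_
      have : b.degree = (b - u).degree + u.degree := by
        rw [← map_add, tsub_add_cancel_of_le hu]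
      omega
    · rw [fam_shift_of_not_le hu]
      exact Van.of_empty i
  | union h1 h2 h3 ih1 ih2 ih3 =>
    intro b i hi
    rw [fam_union]
    refine Van.union (fam_down h1.isUpperSet b) (fam_down h2.isUpperSet b) (ih1 b i hi)
      (ih2 b i hi) ?_
    rintro i' rfl
    rw [← fam_inter]
    exact ih3 b i' (by omega)

end Pool.Agent.Lib.MP_0db35b_al
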