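import Mathlib

set_option autoImplicit false

/-!
# Stability indices of powers of graded ideals: definitions

`S = K[x_j : j ∈ σ]` is the polynomial ring `MvPolynomial σ K` in finitely many variables over a
field, with its standard grading.
-/

namespace Pool.Agent.Lib.MP_0db35b_al

open Finset

section koszul

variable {σ : Type*} [Fintype σ] [LinearOrder σ]

/-- The sign of `e_j ∧ e_τ`: `-1` to the number of elements of `τ` below `j`. -/
def sgn (j : σ) (τ : Finset σ) : ℤ := (-1) ^ (τ.filter (· < j)).card

variable {R M : Type*} [CommRing R] [AddCommGroup M] [Module R M]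

/-- The differential of the Koszul complex `K(x; M)` of the module `M` with respect to the family
`x`. A chain is a function `z : Finset σ → M`, to be thought of as `∑ z τ e_τ`; its part of
homological degree `i` is the part supported in the `τ` with `i` elements. The value at `τ` is the
coefficient of `e_τ` in the boundary of `z`. -/
def koszulD (x : σ → R) (z : Finset σ → M) (τ : Finset σ) : M :=
  ∑ j ∈ τᶜ, sgn j τ • x j • z (insert j τ)

end koszul

/-- The depth of the `R`-module `M` with respect to the ideal `𝔪`: the largest length of an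
`M`-regular sequence with all members in `𝔪`. -/
noncomputable def depth {R : Type*} [CommRing R] (𝔪 : Ideal R) (M : Type*) [AddCommGroup M]
    [Module R M] : ℕ :=
  sSup {n : ℕ | ∃ rs : List R, rs.length = n ∧ (∀ a ∈ rs, a ∈ 𝔪) ∧
    RingTheory.Sequence.IsRegular M rs}

section ideals

open MvPolynomial

variable {σ : Type*} [Fintype σ] [LinearOrder σ] {K : Type*} [Field K]

/-- `Tor_i(I, K)` vanishes in degree `i + j`. Here `Tor_i(I, K)` is computed as the `i`-th homology
of the Koszul complex of `I` with respect to the variables: every cycle `∑_{|τ| = i} z_τ e_τ` with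
coefficients `z_τ ∈ I` homogeneous of degree `j` is the boundary of a chain with coefficients
in `I`. -/
def TorVanishes (I : Ideal (MvPolynomial σ K)) (i j : ℕ) : Prop :=
  ∀ z : Finset σ → MvPolynomial σ K,
    (∀ τ, z τ ∈ I) → (∀ τ, τ.card ≠ i → z τ = 0) → (∀ τ, (z τ).IsHomogeneous j) →
    koszulD (X : σ → MvPolynomial σ K) z = 0 →
    ∃ w : Finset σ → MvPolynomial σ K,
      (∀ τ, w τ ∈ I) ∧ (∀ τ, τ.card ≠ i + 1 → w τ = 0) ∧
        koszulD (X : σ → MvPolynomial σ K) w = z

/-- The Castelnuovo-Mumford regularity of the (nonzero, homogeneous) ideal `I`: the least `r` such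
that `Tor_i(I, K)` vanishes in all degrees greater than `i + r`, for all `i`. -/
noncomputable def reg (I : Ideal (MvPolynomial σ K)) : ℕ :=
  sInf {r : ℕ | ∀ i j : ℕ, r < j → TorVanishes I i j}

omit [Fintype σ] [LinearOrder σ] in
/-- The initial degree: the least degree of a nonzero homogeneous element of `I`. -/
noncomputable def initDeg (I : Ideal (MvPolynomial σ K)) : ℕ :=
  sInf {d : ℕ | ∃ f ∈ I, f ≠ 0 ∧ f.IsHomogeneous d}

omit [Fintype σ] [LinearOrder σ] in
/-- The `v`-number of `I`: the least degree of a homogeneous `f` such that `(I : f)` is an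
associated prime of `S / I`. -/
noncomputable def vNumber (I : Ideal (MvPolynomial σ K)) : ℕ :=
  sInf {d : ℕ | ∃ p ∈ associatedPrimes (MvPolynomial σ K) (MvPolynomial σ K ⧸ I),
    ∃ f : MvPolynomial σ K, f.IsHomogeneous d ∧ Submodule.colon I {f} = p}

omit [Fintype σ] [LinearOrder σ] in
/-- `astab(I)`: the least `t ≥ 1` such that the set of the associated primes of `S / I ^ k` is the
same for all `k ≥ t`. -/
noncomputable def astab (I : Ideal (MvPolynomial σ K)) : ℕ :=
  sInf {t : ℕ | 1 ≤ t ∧ ∀ k, t ≤ k →
    associatedPrimes (MvPolynomial σ K) (MvPolynomial σ K ⧸ I ^ k) =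
      associatedPrimes (MvPolynomial σ K) (MvPolynomial σ K ⧸ I ^ t)}

omit [Fintype σ] [LinearOrder σ] in
/-- `dstab(I)`: the least `t ≥ 1` such that `depth I ^ k = depth I ^ (k + 1)` for all `k ≥ t`. The
depth is taken with respect to the ideal generated by the variables. -/
noncomputable def dstab (I : Ideal (MvPolynomial σ K)) : ℕ :=
  sInf {t : ℕ | 1 ≤ t ∧ ∀ k, t ≤ k →
    depth (Ideal.span (Set.range (X : σ → MvPolynomial σ K))) ↥(I ^ k) =
      depth (Ideal.span (Set.range (X : σ → MvPolynomial σ K))) ↥(I ^ (k + 1))}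

/-- `rstab(I)`: the least `t ≥ 1` such that `reg I ^ k` is a linear function of `k` for
`k ≥ t`. -/
noncomputable def rstab (I : Ideal (MvPolynomial σ K)) : ℕ :=
  sInf {t : ℕ | 1 ≤ t ∧ ∃ c e : ℤ, ∀ k, t ≤ k → (reg (I ^ k) : ℤ) = c * k + e}

omit [Fintype σ] [LinearOrder σ] in
/-- `vstab(I)`: the least `t ≥ 1` such that, for some integer `b`, the `v`-number of `I ^ k` is
`α(I) k + b` for all `k ≥ t`, where `α(I)` is the initial degree. -/
noncomputable def vstab (I : Ideal (MvPolynomial σ K)) : ℕ :=
  sInf {t : ℕ | 1 ≤ t ∧ ∃ b : ℤ, ∀ k, t ≤ k → (vNumber (I ^ k) : ℤ) = initDeg I * k + b}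

end ideals

end Pool.Agent.Lib.MP_0db35b_al
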