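import Pool.Agent.Lib.MP_0db35b_al.ExtDepth

set_option autoImplicit false
set_option linter.unusedSectionVars false

/-!
# Depth of monomial ideals
-/

universe u

namespace Pool.Agent.Lib.MP_0db35b_al

open CategoryTheory Abelian RingTheory.Sequence MvPolynomial

variable {σ : Type} [Fintype σ] [LinearOrder σ] {K : Type u} [Field K]

variable (σ K) in
/-- The ideal generated by the variables. -/
noncomputable abbrev irr : Ideal (MvPolynomial σ K) :=
  Ideal.span (Set.range (X : σ → MvPolynomial σ K))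

theorem mid_union (U U' : Set (σ →₀ ℕ)) : mid K (U ∪ U') = mid K U ⊔ mid K U' := by
  rw [mid, Set.image_union, Ideal.span_union]; rfl

theorem mid_inter {U U' : Set (σ →₀ ℕ)} (hU : IsUpperSet U) (hU' : IsUpperSet U') :
    mid K (U ∩ U') = mid K U ⊓ mid K U' := by
  ext f
  rw [Ideal.mem_inf, mem_mid (hU.inter hU'), mem_mid hU, mem_mid hU']
  exact ⟨fun h => ⟨fun u hu => (h u hu).1, fun u hu => (h u hu).2⟩,
    fun h u hu => ⟨h.1 u hu, h.2 u hu⟩⟩

theorem mid_univ : mid K (Set.univ : Set (σ →₀ ℕ)) = ⊤ := by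
  ext f
  rw [mem_mid isUpperSet_univ]
  simp

theorem mid_empty : mid K (∅ : Set (σ →₀ ℕ)) = ⊥ := by
  rw [mid, Set.image_empty, Ideal.span_empty]

theorem mid_shift (U : Set (σ →₀ ℕ)) (u : σ →₀ ℕ) :
    mid K ((u + ·) '' U) =
      Submodule.map (LinearMap.mulLeft (MvPolynomial σ K) (monomial u (1 : K))) (mid K U) := by
  rw [mid, mid, Ideal.span, Ideal.span, Submodule.map_span]
  congr 1
  ext f
  simp only [Set.mem_image, exists_exists_and_eq_and, LinearMap.mulLeft_apply, monomial_mul,
    one_mul]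

theorem isRegular_X : ∃ rs : List (MvPolynomial σ K), rs.length = Fintype.card σ ∧
    (∀ r ∈ rs, r ∈ irr σ K) ∧ IsRegular (MvPolynomial σ K) rs := by
  classical
  let l : List σ := Finset.univ.toList
  have hl : l.Nodup := Finset.nodup_toList _
  have key : ∀ l' : List σ, (Ideal.ofList (l'.map (X : σ → MvPolynomial σ K)) •
      (⊤ : Submodule (MvPolynomial σ K) (MvPolynomial σ K))) =
      Ideal.span (X '' {j | j ∈ l'}) := by
    intro l'
    rw [smul_eq_mul, Ideal.mul_top]
    change Ideal.span {r | r ∈ l'.map (X : σ → MvPolynomial σ K)} = _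
    congr 1
    ext f
    rw [Set.mem_ofPred_eq, List.mem_map, Set.mem_image]
    rfl
  refine ⟨l.map X, ?_, ?_, ⟨?_⟩, ?_⟩
  · rw [List.length_map, Finset.length_toList]; rfl
  · intro r hr
    obtain ⟨j, _, rfl⟩ := List.mem_map.1 hr
    exact Ideal.subset_span ⟨j, rfl⟩
  · intro i hi
    rw [List.length_map] at hi
    have e : (l.map (X : σ → MvPolynomial σ K)).take i = (l.take i).map X := List.map_take.symm
    rw [e, key, isSMulRegular_quotient_iff_mem_of_smul_mem]
    intro f hf
    rw [List.getElem_map] at hf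
    rw [mem_ideal_span_X_image] at hf ⊢
    intro m hm
    obtain ⟨j, hj, hj'⟩ := hf (m + Finsupp.single l[i] 1) (by
      rw [mem_support_iff] at hm ⊢
      rw [smul_eq_mul, mul_comm, coeff_mul_X]
      exact hm)
    refine ⟨j, hj, ?_⟩
    have hne : l[i] ≠ j := by
      rintro rfl
      have hj2 : l[i] ∈ l.take i := hj
      obtain ⟨k, hk, hk'⟩ := List.getElem_of_mem hj2
      rw [List.length_take] at hk
      rw [List.getElem_take] at hk'
      have := (List.Nodup.getElem_inj_iff hl).1 hk'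
      omega
    rwa [Finsupp.add_apply, Finsupp.single_eq_of_ne' hne, add_zero] at hj'
  · rw [key]
    intro h
    have h1 : (1 : MvPolynomial σ K) ∈ Ideal.span (X '' {j | j ∈ l}) := by
      rw [← h]; trivial
    rw [mem_ideal_span_X_image] at h1
    obtain ⟨j, _, hj⟩ := h1 0 (by rw [mem_support_iff]; simp)
    exact hj rfl

theorem one_le_degree_of_mem_irr {f : MvPolynomial σ K} (hf : f ∈ irr σ K) {m : σ →₀ ℕ}
    (hm : m ∈ f.support) : 1 ≤ m.degree := by
  have h : irr σ K = Ideal.span (X '' (Set.univ : Set σ)) := by rw [Set.image_univ]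
  rw [h, mem_ideal_span_X_image] at hf
  obtain ⟨j, _, hj⟩ := hf m hm
  have := Finsupp.le_degree j m
  omega

theorem isUpperSet_degree_gt (d : ℕ) : IsUpperSet {w : σ →₀ ℕ | d < w.degree} := by
  intro a b hab ha
  exact lt_of_lt_of_le ha (Finsupp.degree_mono hab)

theorem irr_mul_mid_ne {U : Set (σ →₀ ℕ)} (hU : IsUpperSet U) (hne : U.Nonempty) :
    irr σ K * mid K U ≠ mid K U := by
  classical
  obtain ⟨u, hu, hmin⟩ : ∃ u ∈ U, ∀ v ∈ U, u.degree ≤ v.degree := by
    have h := WellFounded.has_min (measure (fun v : σ →₀ ℕ => v.degree)).wf U hne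
    obtain ⟨u, hu, h⟩ := h
    exact ⟨u, hu, fun v hv => not_lt.1 (h v hv)⟩
  intro heq
  have h1 : irr σ K * mid K U ≤ mid K {w : σ →₀ ℕ | u.degree < w.degree} := by
    rw [Ideal.mul_le]
    intro r hr s hs
    rw [mem_mid (isUpperSet_degree_gt _)]
    intro m hm
    obtain ⟨a, ha, b, hb, rfl⟩ := Finset.mem_add.1 (support_mul r s hm)
    have h2 := one_le_degree_of_mem_irr hr ha
    have h3 := hmin b ((mem_mid hU).1 hs b hb)
    rw [Set.mem_ofPred_eq, map_add]
    omega
  have h2 : monomial u (1 : K) ∈ mid K U := Ideal.subset_span ⟨u, hu, rfl⟩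
  rw [← heq] at h2
  have h3 := (mem_mid (isUpperSet_degree_gt _)).1 (h1 h2) u (by
    rw [mem_support_iff, coeff_monomial, if_pos rfl]
    exact one_ne_zero)
  rw [Set.mem_ofPred_eq] at h3
  exact lt_irrefl _ h3

theorem irr_smul_lt {U : Set (σ →₀ ℕ)} (hU : IsUpperSet U) (hne : U.Nonempty) :
    (irr σ K) • (⊤ : Submodule (MvPolynomial σ K) (mid K U)) < ⊤ := by
  rw [lt_top_iff_ne_top]
  intro h
  apply irr_mul_mid_ne (K := K) hU hne
  have h1 := congrArg (Submodule.map (mid K U).subtype) h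
  rw [Submodule.map_smul'', Submodule.map_top, Submodule.range_subtype] at h1
  exact h1

/-- The residue field as a module. -/
noncomputable abbrev resF (σ : Type) (K : Type u) [Field K] : ModuleCat.{u} (MvPolynomial σ K) :=
  ModuleCat.of _ (MvPolynomial σ K ⧸ irr σ K)

theorem ev_top (i : ℕ) (hi : i < Fintype.card σ) :
    EV (resF σ K) (MvPolynomial σ K) i := by
  obtain ⟨rs, hlen, hmem, hreg⟩ := isRegular_X (σ := σ) (K := K)
  have h := ModuleCat.subsingleton_ext_of_exists_isRegular (irr σ K) (resF σ K)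
    (by
      rw [Module.support_eq_zeroLocus, Ideal.annihilator_quotient])
    (ModuleCat.of _ (MvPolynomial σ K)) (by
      have h2 := irr_mul_mid_ne (K := K) (isUpperSet_univ (α := σ →₀ ℕ)) Set.univ_nonempty
      rw [mid_univ] at h2
      exact lt_top_iff_ne_top.2 h2) rs hmem hreg i (by rw [hlen]; exact hi)
  exact h

theorem Constr.ev {U : Set (σ →₀ ℕ)} {t ρ : ℕ} (h : Constr U t ρ) :
    ∀ i, i + t < Fintype.card σ → EV (resF σ K) (mid K U) i := by
  induction h with
  | univ =>
    intro i hi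
    have e : MvPolynomial σ K ≃ₗ[MvPolynomial σ K] mid K (Set.univ : Set (σ →₀ ℕ)) :=
      Submodule.topEquiv.symm.trans (LinearEquiv.ofEq _ _ mid_univ.symm)
    exact (ev_top i hi).equiv e
  | empty =>
    intro i _
    have : Subsingleton (mid K (∅ : Set (σ →₀ ℕ))) := by
      rw [mid_empty]
      infer_instance
    exact EV.of_subsingleton i
  | mono ht _ _ ih => exact fun i hi => ih i (by omega)
  | @shift U t ρ u _ ih =>
    intro i hi
    have hinj : Function.Injective
        (LinearMap.mulLeft (MvPolynomial σ K) (monomial u (1 : K))) := by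
      intro a b hab
      rw [LinearMap.mulLeft_apply, LinearMap.mulLeft_apply] at hab
      refine mul_left_cancel₀ ?_ hab
      intro h0
      rw [monomial_eq_zero] at h0
      exact one_ne_zero h0
    have e := (Submodule.equivMapOfInjective _ hinj (mid K U)).trans
      (LinearEquiv.ofEq _ _ (mid_shift U u).symm)
    exact (ih i hi).equiv e
  | @union U U' t ρ h1 h2 h3 ih1 ih2 ih3 =>
    intro i hi
    have h := EV.sup (N := resF σ K) (mid K U) (mid K U') (ih1 i hi) (ih2 i hi) (by
      have := ih3 (i + 1) (by omega)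
      rwa [mid_inter h1.isUpperSet h2.isUpperSet] at this)
    rwa [← mid_union] at h

/-- Lower bound for the depth. -/
theorem Constr.exists_isRegular {U : Set (σ →₀ ℕ)} (hne : U.Nonempty) {t ρ s : ℕ}
    (h : Constr U t ρ) (hs : s + t = Fintype.card σ) :
    ∃ rs : List (MvPolynomial σ K), rs.length = s ∧ (∀ r ∈ rs, r ∈ irr σ K) ∧
      IsRegular (mid K U) rs :=
  ModuleCat.exists_isRegular_of_exists_subsingleton_ext (irr σ K) s (ModuleCat.of _ (mid K U))
    (irr_smul_lt h.isUpperSet hne) (resF σ K)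
    (by rw [Module.support_eq_zeroLocus, Ideal.annihilator_quotient])
    (fun i hi => h.ev i (by omega))

/-- Upper bound for the depth. -/
theorem length_le_of_not_van {U : Set (σ →₀ ℕ)} (hU : IsUpperSet U) {b : σ →₀ ℕ} {t : ℕ}
    (h : ¬ Van K (fam U b) t) (rs : List (MvPolynomial σ K)) (hmem : ∀ r ∈ rs, r ∈ irr σ K)
    (hreg : IsRegular (mid K U) rs) : rs.length + t ≤ Fintype.card σ := by
  by_contra hcon
  push Not at hcon
  by_cases htb : t ≤ b.degree
  · obtain ⟨j, hj⟩ := Nat.exists_eq_add_of_le htb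
    apply h
    refine van_of_vanish hU hj fun z hz hzs _ hcyc => ?_
    obtain ⟨w, _, hw⟩ := regular_vanish (X : σ → MvPolynomial σ K) rs (mid K U) hmem
      hreg.toIsWeaklyRegular t (by omega) (fun τ => ⟨z τ, hz τ⟩)
      (fun τ hτ => Subtype.ext (hzs τ hτ)) (by
        funext τ
        apply Subtype.ext
        have := congrFun hcyc τ
        rw [Pi.zero_apply] at this ⊢
        rw [ZeroMemClass.coe_zero, ← this, koszulD, koszulD, AddSubmonoidClass.coe_finsetSum]
        rfl)
    refine ⟨fun τ => (w τ : MvPolynomial σ K), fun τ => (w τ).2, ?_⟩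
    funext τ
    have := congrArg Subtype.val (congrFun hw τ)
    simp only at this
    rw [← this, koszulD, koszulD, AddSubmonoidClass.coe_finsetSum]
    rfl
  · apply h
    intro c hc _
    refine ⟨0, fun τ h0 => absurd rfl h0, ?_⟩
    rw [sd_zero]
    funext τ
    by_contra h0
    obtain ⟨h1, h2⟩ := hc τ (Ne.symm h0)
    have h3 := Finsupp.degree_mono (mem_fam_iff.1 h1).1
    rw [degree_ind, h2] at h3
    exact htb h3

/-- The depth of a monomial ideal given by a construction with `t` steps and with homology in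
cardinality `t`. -/
theorem depth_mid {U : Set (σ →₀ ℕ)} (hne : U.Nonempty) {b : σ →₀ ℕ} {t ρ s : ℕ}
    (hC : Constr U t ρ) (h : ¬ Van K (fam U b) t) (hs : s + t = Fintype.card σ) :
    depth (irr σ K) (mid K U) = s := by
  obtain ⟨rs, h1, h2, h3⟩ := hC.exists_isRegular (K := K) hne hs
  refine le_antisymm ?_ ?_
  · refine csSup_le ⟨s, rs, h1, h2, h3⟩ ?_
    rintro n ⟨rs', rfl, h4, h5⟩
    have := length_le_of_not_van hC.isUpperSet h rs' h4 h5
    omega
  · refine le_csSup ⟨s, ?_⟩ ⟨rs, h1, h2, h3⟩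
    rintro n ⟨rs', rfl, h4, h5⟩
    have := length_le_of_not_van hC.isUpperSet h rs' h4 h5
    omega

/-- A lower bound for the depth. -/
theorem le_depth_mid {U : Set (σ →₀ ℕ)} (hne : U.Nonempty) {b : σ →₀ ℕ} {t t' ρ s : ℕ}
    (hC : Constr U t ρ) (h : ¬ Van K (fam U b) t') (hs : s + t = Fintype.card σ) :
    s ≤ depth (irr σ K) (mid K U) := by
  obtain ⟨rs, h1, h2, h3⟩ := hC.exists_isRegular (K := K) hne hs
  refine le_csSup ⟨Fintype.card σ, ?_⟩ ⟨rs, h1, h2, h3⟩
  rintro n ⟨rs', rfl, h4, h5⟩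
  have := length_le_of_not_van hC.isUpperSet h rs' h4 h5
  omega

/-- The regularity of a monomial ideal. -/
theorem reg_mid {U : Set (σ →₀ ℕ)} {b : σ →₀ ℕ} {t i ρ : ℕ} (hC : Constr U t ρ)
    (h : ¬ Van K (fam U b) i) (hb : b.degree = i + ρ) : reg (mid K U) = ρ := by
  refine le_antisymm (Nat.sInf_le ?_) ?_
  · intro i j hj z hz hzs hzh hcyc
    exact vanish_of_van hC.isUpperSet (fun b hb => hC.van K b i (Or.inr (by omega))) z hz hzs hzh
      hcyc
  · refine le_csInf ⟨ρ, ?_⟩ ?_
    · intro i j hj z hz hzs hzh hcyc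
      exact vanish_of_van hC.isUpperSet (fun b hb => hC.van K b i (Or.inr (by omega))) z hz hzs
        hzh hcyc
    · intro r hr
      by_contra hlt
      push Not at hlt
      apply h
      refine van_of_vanish hC.isUpperSet hb fun z hz hzs hzh hcyc => ?_
      obtain ⟨w, hw, _, hw'⟩ := hr i ρ hlt z hz hzs hzh hcyc
      exact ⟨w, hw, hw'⟩

/-- A lower bound for the regularity. -/
theorem le_reg_mid {U : Set (σ →₀ ℕ)} {b : σ →₀ ℕ} {t i ρ ρ' : ℕ} (hC : Constr U t ρ')
    (h : ¬ Van K (fam U b) i) (hb : b.degree = i + ρ) : ρ ≤ reg (mid K U) := by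
  refine le_csInf ⟨ρ', ?_⟩ ?_
  · intro i j hj z hz hzs hzh hcyc
    exact vanish_of_van hC.isUpperSet (fun b hb => hC.van K b i (Or.inr (by omega))) z hz hzs
      hzh hcyc
  · intro r hr
    by_contra hlt
    push Not at hlt
    apply h
    refine van_of_vanish hC.isUpperSet hb fun z hz hzs hzh hcyc => ?_
    obtain ⟨w, hw, _, hw'⟩ := hr i ρ hlt z hz hzs hzh hcyc
    exact ⟨w, hw, hw'⟩

end Pool.Agent.Lib.MP_0db35b_al
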