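import Pool.Agent.Lib.MP_0db35b_al.MonoKoszul

set_option autoImplicit false
set_option linter.unusedSectionVars false

/-!
# Vanishing of Ext for monomial ideals given by a construction
-/

universe u v

namespace Pool.Agent.Lib.MP_0db35b_al

open CategoryTheory Abelian RingTheory.Sequence MvPolynomial

section general

variable {R : Type u} [CommRing R] [Small.{v} R]

/-- Vanishing of `Ext^i(N, M)`. -/
def EV (N : ModuleCat.{v} R) (M : Type v) [AddCommGroup M] [Module R M] (i : ℕ) : Prop :=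
  Subsingleton (Ext N (ModuleCat.of R M) i)

variable (N : ModuleCat.{v} R)
variable {M₁ M₂ M₃ : Type v} [AddCommGroup M₁] [Module R M₁] [AddCommGroup M₂] [Module R M₂]
  [AddCommGroup M₃] [Module R M₃]

theorem shortExact_of (f : M₁ →ₗ[R] M₂) (g : M₂ →ₗ[R] M₃) (hf : Function.Injective f)
    (hg : Function.Surjective g) (hfg : Function.Exact f g) :
    (ShortComplex.mk (ModuleCat.ofHom f) (ModuleCat.ofHom g)
      (by ext x; exact hfg.apply_apply_eq_zero x)).ShortExact where
  exact := (ShortComplex.ShortExact.moduleCat_exact_iff_function_exact _).mpr hfg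
  mono_f := (ModuleCat.mono_iff_injective _).mpr hf
  epi_g := (ModuleCat.epi_iff_surjective _).mpr hg

theorem EV.mid {N : ModuleCat.{v} R} (f : M₁ →ₗ[R] M₂) (g : M₂ →ₗ[R] M₃)
    (hf : Function.Injective f) (hg : Function.Surjective g) (hfg : Function.Exact f g) {i : ℕ}
    (h1 : EV N M₁ i) (h3 : EV N M₃ i) : EV N M₂ i := by
  have hS := shortExact_of f g hf hg hfg
  refine subsingleton_of_forall_eq 0 fun x₂ => ?_
  obtain ⟨x₁, rfl⟩ := Ext.covariant_sequence_exact₂ N hS x₂ (h3.elim _ _)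
  rw [h1.elim x₁ 0, Ext.zero_comp]

theorem EV.right {N : ModuleCat.{v} R} (f : M₁ →ₗ[R] M₂) (g : M₂ →ₗ[R] M₃)
    (hf : Function.Injective f) (hg : Function.Surjective g) (hfg : Function.Exact f g) {i : ℕ}
    (h2 : EV N M₂ i) (h1 : EV N M₁ (i + 1)) : EV N M₃ i := by
  have hS := shortExact_of f g hf hg hfg
  refine subsingleton_of_forall_eq 0 fun x₃ => ?_
  obtain ⟨x₂, rfl⟩ := Ext.covariant_sequence_exact₃ N hS x₃ (rfl : i + 1 = i + 1) (h1.elim _ _)
  rw [h2.elim x₂ 0, Ext.zero_comp]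

theorem EV.of_subsingleton {N : ModuleCat.{v} R} {M : Type v} [AddCommGroup M] [Module R M]
    [Subsingleton M] (i : ℕ) : EV N M i := by
  refine subsingleton_of_forall_eq 0 fun x => ?_
  have h : 𝟙 (ModuleCat.of R M) = 0 := by
    ext y
    exact Subsingleton.elim _ _
  have : x.comp (Ext.mk₀ (𝟙 (ModuleCat.of R M))) (add_zero i) = x := Ext.comp_mk₀_id x
  rw [← this, h, Ext.mk₀_zero, Ext.comp_zero]

theorem EV.equiv {N : ModuleCat.{v} R} (e : M₁ ≃ₗ[R] M₂) {i : ℕ} (h : EV N M₁ i) :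
    EV N M₂ i := by
  refine EV.mid (M₃ := PUnit.{v+1}) e.toLinearMap 0 e.injective
    (fun _ => ⟨0, Subsingleton.elim _ _⟩) ?_ h (EV.of_subsingleton i)
  intro y
  exact ⟨fun _ => ⟨e.symm y, by simp⟩, fun _ => Subsingleton.elim _ _⟩

theorem EV.prod {N : ModuleCat.{v} R} {i : ℕ} (h1 : EV N M₁ i) (h2 : EV N M₂ i) :
    EV N (M₁ × M₂) i :=
  EV.mid (LinearMap.inl R M₁ M₂) (LinearMap.snd R M₁ M₂) LinearMap.inl_injective
    LinearMap.snd_surjective Function.Exact.inl_snd h1 h2

/-- Mayer-Vietoris for ideals (submodules). -/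
theorem EV.sup {N : ModuleCat.{v} R} {M : Type v} [AddCommGroup M] [Module R M]
    (A B : Submodule R M) {i : ℕ} (hA : EV N A i) (hB : EV N B i)
    (hAB : EV N (A ⊓ B : Submodule R M) (i + 1)) : EV N (A ⊔ B : Submodule R M) i := by
  let f : (A ⊓ B : Submodule R M) →ₗ[R] A × B :=
    (Submodule.inclusion inf_le_left).prod (-(Submodule.inclusion inf_le_right))
  let g : A × B →ₗ[R] (A ⊔ B : Submodule R M) :=
    (Submodule.inclusion le_sup_left).coprod (Submodule.inclusion le_sup_right)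
  refine EV.right f g ?_ ?_ ?_ (hA.prod hB) hAB
  · intro x y hxy
    have : (f x).1 = (f y).1 := by rw [hxy]
    exact Submodule.inclusion_injective _ this
  · rintro ⟨x, hx⟩
    obtain ⟨a, ha, b, hb, rfl⟩ := Submodule.mem_sup.1 hx
    exact ⟨(⟨a, ha⟩, ⟨b, hb⟩), rfl⟩
  · rintro ⟨⟨a, ha⟩, ⟨b, hb⟩⟩
    constructor
    · intro h
      have h1 : a + b = 0 := congrArg Subtype.val h
      have h2 : b = -a := by rw [← add_eq_zero_iff_neg_eq'.1 h1]; simp
      subst h2
      refine ⟨⟨a, ha, ?_⟩, ?_⟩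
      · have := B.neg_mem hb
        rwa [neg_neg] at this
      · ext <;> rfl
    · rintro ⟨⟨c, hc⟩, h⟩
      have h1 : c = a := congrArg (fun p : A × B => (p.1 : M)) h
      have h2 : -c = b := congrArg (fun p : A × B => (p.2 : M)) h
      ext
      change a + b = 0
      rw [← h1, ← h2, add_neg_cancel]

end general

end Pool.Agent.Lib.MP_0db35b_al
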