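import Pool.Agent.Lib.MP_0db35b_al.Total

set_option autoImplicit false
set_option linter.unusedSectionVars false

/-!
# The stability indices of the product
-/

universe u

namespace Pool.Agent.Lib.MP_0db35b_al

variable {σ : Type} [Fintype σ] [LinearOrder σ] {K : Type u} [Field K]

namespace Data

variable {D : Data σ}

/-! ### Depth -/

theorem depth_of_le (hD : D.OK) {k : ℕ} (hk : 1 ≤ k) (hlk : D.l.length ≤ k) {s : ℕ}
    (hs : s + (4 + D.l.length) = Fintype.card σ) : depth (irr σ K) ↥((D.I K) ^ k) = s := by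
  rw [I_pow hD hk]
  obtain ⟨ρ', hC⟩ := constr' hD hk
  obtain ⟨h2, hcons⟩ := gap_R (r := D.r) hk
  obtain ⟨b, hb, _⟩ := not_van (K := K) hD hk (fun j hj => bS_apply k D.l hj)
    (not_van_sphere hD hlk) h2 (zero_mem_ksum_BR _ _) (by omega) hcons
  rw [min_eq_left hlk] at hC
  rw [add_comm D.l.length 4] at hb
  exact depth_mid (nonempty D k) hC hb hs

theorem le_depth_of_lt (hD : D.OK) (hl : D.l ≠ []) {k : ℕ} (hk : 1 ≤ k) (hlk : k ≤ D.l.length)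
    {s : ℕ} (hs : s + (4 + k) = Fintype.card σ) : s ≤ depth (irr σ K) ↥((D.I K) ^ k) := by
  rw [I_pow hD hk]
  obtain ⟨ρ', hC⟩ := constr' hD hk
  obtain ⟨h2, hcons⟩ := gap_R (r := D.r) hk
  obtain ⟨b4, h1, h3, _⟩ := not_van_one (K := K) hD hl hk
  obtain ⟨b, hb, _⟩ := not_van (K := K) hD hk h1 h3 h2 (zero_mem_ksum_BR _ _) (by omega) hcons
  rw [min_eq_right hlk] at hC
  exact le_depth_mid (nonempty D k) hC hb hs

theorem dstab_eq (hD : D.OK) {d : ℕ} (hd : 1 ≤ d) (hl : D.l.length = d)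
    (hn : 4 + d ≤ Fintype.card σ) : dstab (D.I K) = d := by
  obtain ⟨s, hs⟩ : ∃ s, s + (4 + d) = Fintype.card σ := ⟨Fintype.card σ - (4 + d), by omega⟩
  have hne : D.l ≠ [] := by
    intro h
    rw [h] at hl
    simp at hl
    omega
  have hmem : d ∈ {t : ℕ | 1 ≤ t ∧ ∀ k, t ≤ k →
      depth (Ideal.span (Set.range (MvPolynomial.X : σ → MvPolynomial σ K))) ↥((D.I K) ^ k) =
      depth (Ideal.span (Set.range (MvPolynomial.X : σ → MvPolynomial σ K)))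
        ↥((D.I K) ^ (k + 1))} := by
    refine ⟨hd, fun k hk => ?_⟩
    have h1 := depth_of_le (K := K) hD (k := k) (s := s) (by omega) (by omega) (by omega)
    have h2 := depth_of_le (K := K) hD (k := k + 1) (s := s) (by omega) (by omega) (by omega)
    exact h1.trans h2.symm
  refine le_antisymm (Nat.sInf_le hmem) (le_csInf ⟨_, hmem⟩ ?_)
  rintro t ⟨ht1, ht⟩
  by_contra hlt
  push Not at hlt
  have h1 := ht (d - 1) (by omega)
  have h2 := depth_of_le (K := K) hD (k := d - 1 + 1) (s := s) (by omega) (by omega) (by omega)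
  have h3 := le_depth_of_lt (K := K) hD hne (k := d - 1) (s := s + 1) (by omega) (by omega)
    (by omega)
  have h4 := h1.trans h2
  rw [irr] at h3
  omega

/-! ### Regularity -/

theorem reg_of_le (hD : D.OK) (hl : D.l ≠ []) {k : ℕ} (hk : D.r ≤ k) :
    reg ((D.I K) ^ k) = D.ρ k := by
  have hr := hD.r
  rw [I_pow hD (by omega)]
  obtain ⟨h2, hcons⟩ := gap_R (r := D.r) (k := k) (by omega)
  obtain ⟨b4, h1, h3, h4⟩ := not_van_one (K := K) hD hl (k := k) (by omega)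
  obtain ⟨b, hb, hdeg⟩ := not_van (K := K) hD (by omega) h1 h3 h2 (zero_mem_ksum_BR _ _)
    (by omega) hcons
  refine reg_mid (constr hD hk) hb ?_
  have := gV_pos D.v
  rw [hdeg, h4, ρ, ρ2]
  omega

theorem le_reg (hD : D.OK) (hl : D.l ≠ []) {k : ℕ} (hk : 1 ≤ k) (hr : D.r = k + 1) :
    D.ρ k + 2 ≤ reg ((D.I K) ^ k) := by
  rw [I_pow hD (by omega)]
  obtain ⟨ρ', hC⟩ := constr' hD hk
  obtain ⟨h2, h2', hcons⟩ := gap_R' hk hr
  obtain ⟨b4, h1, h3, h4⟩ := not_van_one (K := K) hD hl (k := k) (by omega)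
  obtain ⟨b, hb, hdeg⟩ := not_van (K := K) hD (by omega) h1 h3 h2 h2' (by omega) hcons
  refine le_reg_mid hC hb ?_
  have := gV_pos D.v
  rw [hdeg, h4, ρ, ρ2]
  omega

/-- The slope. -/
def sl (D : Data σ) : ℕ := (4 * D.r + 4) + (2 * D.v + 1) + 2 * (2 * D.a + 2) + 3 * D.l.length

theorem ρ_eq (D : Data σ) (k : ℕ) : (D.ρ k : ℤ) = D.sl * k + (gV D.v + D.h + 3) := by
  have h1 : D.ρ k = D.sl * k + (gV D.v + D.h + 3) := by
    have := gV_pos D.v
    have e : D.sl * k = k * (4 * D.r + 4) + k * (2 * D.v + 1) + 2 * (k * (2 * D.a + 2)) +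
        3 * k * D.l.length := by rw [sl]; ring
    rw [ρ, ρ2, e]
    omega
  rw [h1]
  push_cast
  ring

theorem rstab_eq (hD : D.OK) (hl : D.l ≠ []) : rstab (D.I K) = D.r := by
  have hmem : D.r ∈ {t : ℕ | 1 ≤ t ∧ ∃ c e : ℤ, ∀ k, t ≤ k →
      (reg ((D.I K) ^ k) : ℤ) = c * k + e} := by
    refine ⟨hD.r, D.sl, gV D.v + D.h + 3, fun k hk => ?_⟩
    rw [reg_of_le hD hl hk, ρ_eq]
  refine le_antisymm (Nat.sInf_le hmem) (le_csInf ⟨_, hmem⟩ ?_)
  rintro t ⟨ht1, c, e, ht⟩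
  by_contra hlt
  push Not at hlt
  obtain ⟨k, hk⟩ : ∃ k, D.r = k + 1 := ⟨D.r - 1, by omega⟩
  have h1 := ht k (by omega)
  have h2 := ht (k + 1) (by omega)
  have h3 := ht (k + 2) (by omega)
  rw [reg_of_le hD hl (by omega), ρ_eq] at h2 h3
  have h4 := le_reg (K := K) hD hl (k := k) (by omega) hk
  have h5 : (D.ρ k : ℤ) + 2 ≤ reg ((D.I K) ^ k) := by exact_mod_cast h4
  rw [ρ_eq, h1] at h5
  push_cast at h2 h3
  nlinarith

/-! ### Associated primes -/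

theorem WS_T (hD : D.OK) {k : ℕ} (hk : 1 ≤ k) : WS (D.T k) =
    {({D.xR, D.yR} : Set σ)} ∪ ({({D.xV, D.yV} : Set σ)} ∪
      (WS (UA D.a D.h D.x D.y D.z D.t k) ∪ {G | ∃ q ∈ Pr D.l, G = {q.1, q.2}})) := by
  obtain ⟨w, hw⟩ := nonempty D k
  have hM : 4 * D.r + 4 ≤ k * (4 * D.r + 4) := Nat.le_mul_of_pos_left _ hk
  have hM' : 2 * D.v + 1 ≤ k * (2 * D.v + 1) := Nat.le_mul_of_pos_left _ hk
  rw [T, WS_inter (V := {D.xR, D.yR}) (U := UR D.r D.xR D.yR k) (dep_St _ _ _ _) (indT2 hD k) (isUpperSet_St _ _ _ _)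
    (isUpperT2 k) ⟨w, hw.1⟩ ⟨w, hw.2⟩,
    T2, WS_inter (V := {D.xV, D.yV}) (U := UV D.v D.xV D.yV k) (dep_St _ _ _ _) (indT3 hD k)
    (isUpperSet_St _ _ _ _) (isUpperT3 k) ⟨w, hw.2.1⟩ ⟨w, hw.2.2⟩,
    T3, WS_inter (V := {D.x, D.y, D.z, D.t}) (dep_UA k) (indT4 hD k) (isUpperSet_UA k)
    (isUpperT4 k) ⟨w, hw.2.2.1⟩ ⟨w, hw.2.2.2⟩, UR, UV,
    WS_St dbl_BR_le (zero_mem_ksum_BR _ _) (top_mem_ksum_BR k) (by omega) hD.hR,
    WS_St (fun e he => BV_bound hD.v he) (zero_mem_ksum_BV _ _) (top_mem_ksum_BV _ k) (by omega)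
      hD.hV,
    T4, WS_W hD.l hk]

theorem WS_T_of_le (hD : D.OK) {k : ℕ} (hk : D.a ≤ k) : WS (D.T k) =
    {({D.xR, D.yR} : Set σ)} ∪ ({({D.xV, D.yV} : Set σ)} ∪
      ({({D.x, D.y} : Set σ), {D.x, D.y, D.t}} ∪ {G | ∃ q ∈ Pr D.l, G = {q.1, q.2}})) := by
  have ha := hD.a
  rw [WS_T hD (by omega), WS_UA hD.hxy hD.hxt hD.hyt hD.a (by rw [Data.h]; omega) hk]

theorem xyz_mem (hD : D.OK) {k : ℕ} (hk : 1 ≤ k) (ha : D.a = k + 1) :
    ({D.x, D.y, D.z} : Set σ) ∈ WS (D.T k) := by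
  rw [WS_T hD hk]
  exact Or.inr (Or.inr (Or.inl ⟨_, wit_UA_xyz hD.hxy hD.hxz hD.hyz (by omega) ha.symm⟩))

theorem xyz_notMem (hD : D.OK) {k : ℕ} (hk : D.a ≤ k) :
    ({D.x, D.y, D.z} : Set σ) ∉ WS (D.T k) := by
  rw [WS_T_of_le hD hk]
  rintro (h | h | h | ⟨q, hq, h⟩)
  · have h1 : D.xR ∈ ({D.x, D.y, D.z} : Set σ) := by
      rw [Set.mem_singleton_iff] at h; rw [h]; simp
    apply notMem_of_disjoint hD.dRA (j := D.xR) (by simp)
    simp only [Set.mem_insert_iff, Set.mem_singleton_iff] at h1 ⊢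
    tauto
  · have h1 : D.xV ∈ ({D.x, D.y, D.z} : Set σ) := by
      rw [Set.mem_singleton_iff] at h; rw [h]; simp
    apply notMem_of_disjoint hD.dVA (j := D.xV) (by simp)
    simp only [Set.mem_insert_iff, Set.mem_singleton_iff] at h1 ⊢
    tauto
  · have h1 : D.z ∈ ({D.x, D.y, D.z} : Set σ) := by simp
    rcases h with h | h
    · rw [h] at h1
      rcases h1 with h1 | h1
      · exact hD.hxz h1.symm
      · exact hD.hyz h1.symm
    · rw [Set.mem_singleton_iff] at h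
      rw [h] at h1
      rcases h1 with h1 | h1 | h1
      · exact hD.hxz h1.symm
      · exact hD.hyz h1.symm
      · exact hD.hzt h1
  · have h1 : D.z ∈ ({q.1, q.2} : Set σ) := by rw [← h]; simp
    apply notMem_of_disjoint hD.dAl (j := D.z) (by simp)
    obtain ⟨p, hp, hp'⟩ := Pr_fst hq
    obtain ⟨r, hr, hr'⟩ := Pr_snd hq
    rcases h1 with h1 | h1
    · exact ⟨p, hp, Or.inl (h1.trans hp')⟩
    · exact ⟨r, hr, Or.inr (h1.trans hr')⟩

theorem ass_pow (hD : D.OK) {k : ℕ} (hk : 1 ≤ k) :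
    associatedPrimes (MvPolynomial σ K) (MvPolynomial σ K ⧸ (D.I K) ^ k) =
      PF K '' (WS (D.T k)) := by
  rw [I_pow hD hk, associatedPrimes_mid (isUpperT k), WS]

theorem astab_eq (hD : D.OK) : astab (D.I K) = D.a := by
  have ha := hD.a
  have hmem : D.a ∈ {t : ℕ | 1 ≤ t ∧ ∀ k, t ≤ k →
      associatedPrimes (MvPolynomial σ K) (MvPolynomial σ K ⧸ (D.I K) ^ k) =
        associatedPrimes (MvPolynomial σ K) (MvPolynomial σ K ⧸ (D.I K) ^ t)} := by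
    refine ⟨ha, fun k hk => ?_⟩
    rw [ass_pow hD (by omega), ass_pow hD ha, WS_T_of_le hD hk, WS_T_of_le hD le_rfl]
  refine le_antisymm (Nat.sInf_le hmem) (le_csInf ⟨_, hmem⟩ ?_)
  rintro t ⟨ht1, ht⟩
  by_contra hlt
  push Not at hlt
  obtain ⟨k, hk⟩ : ∃ k, D.a = k + 1 := ⟨D.a - 1, by omega⟩
  have h1 := (ht k (by omega)).trans (ht D.a (by omega)).symm
  rw [ass_pow hD (by omega), ass_pow hD ha] at h1
  have h2 := (Set.image_injective.2 PF_injective) h1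
  apply xyz_notMem hD le_rfl
  rw [← h2]
  exact xyz_mem hD (by omega) hk

/-! ### The `v`-number -/

/-- The initial degree. -/
def α (D : Data σ) : ℕ := (4 * D.r + 4) + (2 * D.v + 1) + 2 * (2 * D.a + 2) + 2 * D.l.length

theorem α_mul (D : Data σ) (k : ℕ) : D.α * k = k * (4 * D.r + 4) + (k * (2 * D.v + 1) +
    (2 * (k * (2 * D.a + 2)) + 2 * k * D.l.length)) := by rw [α]; ring

theorem h_pos (hD : D.OK) : 1 ≤ D.h := by
  have ha := hD.a
  rw [Data.h]; omega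

theorem LB3 (hD : D.OK) {k : ℕ} (hk : 1 ≤ k) :
    LB (D.T3 k) (2 * (k * (2 * D.a + 2)) + 2 * k * D.l.length) :=
  LB.inter (dep_UA k) (indT4 hD k)
    (LB_UA hD.hxy hD.hxz hD.hyz hD.hxt hD.hyt hD.hzt hD.a (h_pos hD) hk)
    (LB_W hD.l k) le_rfl

theorem LB2 (hD : D.OK) {k : ℕ} (hk : 1 ≤ k) :
    LB (D.T2 k) (k * (2 * D.v + 1) + (2 * (k * (2 * D.a + 2)) + 2 * k * D.l.length)) :=
  LB.inter (dep_St _ _ _ _) (indT3 hD k) (LB_St hD.hV fun _ he => BV_bound hD.v he)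
    (LB3 hD hk) le_rfl

theorem LB1 (hD : D.OK) {k : ℕ} (hk : 1 ≤ k) : LB (D.T k) (D.α * k) :=
  LB.inter (dep_St _ _ _ _) (indT2 hD k) (LB_St hD.hR dbl_BR_le) (LB2 hD hk)
    (by rw [α_mul])

theorem LW3 (hD : D.OK) {k : ℕ} (hk : 1 ≤ k) :
    LW (D.T3 k) (2 * (k * (2 * D.a + 2)) + 2 * k * D.l.length) := by
  obtain ⟨w, hw⟩ := nonempty D k
  exact LW.inter (dep_UA k) (indT4 hD k) (isUpperSet_UA k) (isUpperT4 k) ⟨w, hw.2.2.1⟩
    ⟨w, hw.2.2.2⟩
    (LB_UA hD.hxy hD.hxz hD.hyz hD.hxt hD.hyt hD.hzt hD.a (h_pos hD) hk)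
    (LW_UA hD.hxy hD.hxz hD.hyz hD.hxt hD.hyt hD.hzt hD.a (h_pos hD) hk)
    (LB_W hD.l k) (LW_W hD.l k) le_rfl le_rfl

theorem BV_adj {v k : ℕ} (hk : k < v) : ∀ e ∈ ksum (BV v) k, e + 1 ∉ ksum (BV v) k := by
  intro e he he'
  obtain ⟨i, j, hij, rfl⟩ := mem_ksum_BV.1 he
  obtain ⟨i', j', hij', h⟩ := mem_ksum_BV.1 he'
  rcases lt_trichotomy j j' with hj | hj | hj
  · obtain ⟨m, rfl⟩ := Nat.exists_eq_add_of_lt hj
    have h1 : (2 * v + 1) * (j + m + 1) = (2 * v + 1) * j + (2 * v + 1) * m + (2 * v + 1) := by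
      ring
    omega
  · subst hj; omega
  · obtain ⟨m, rfl⟩ := Nat.exists_eq_add_of_lt hj
    have h1 : (2 * v + 1) * (j' + m + 1) = (2 * v + 1) * j' + (2 * v + 1) * m + (2 * v + 1) := by
      ring
    omega

theorem LW2 (hD : D.OK) {k : ℕ} (hk : 1 ≤ k) (hkv : k < D.v) :
    LW (D.T2 k) (k * (2 * D.v + 1) + (2 * (k * (2 * D.a + 2)) + 2 * k * D.l.length)) := by
  obtain ⟨w, hw⟩ := nonempty D k
  exact LW.inter (dep_St _ _ _ _) (indT3 hD k) (isUpperSet_St _ _ _ _) (isUpperT3 k) ⟨w, hw.2.1⟩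
    ⟨w, hw.2.2⟩ (LB_St hD.hV fun e he => BV_bound hD.v he)
    (LW_St hD.hV (fun e he => BV_bound hD.v he) (zero_mem_ksum_BV _ _) (top_mem_ksum_BV _ _)
      (BV_adj hkv)) (LB3 hD hk) (LW3 hD hk) le_rfl le_rfl

theorem LW1 (hD : D.OK) {k : ℕ} (hk : 1 ≤ k) (hkv : k < D.v) : LW (D.T k) (D.α * k) := by
  obtain ⟨w, hw⟩ := nonempty D k
  refine LW.inter (dep_St _ _ _ _) (indT2 hD k) (isUpperSet_St _ _ _ _) (isUpperT2 k) ⟨w, hw.1⟩
    ⟨w, hw.2⟩ (LB_St hD.hR dbl_BR_le)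
    (LW_St hD.hR dbl_BR_le (zero_mem_ksum_BR _ _) (top_mem_ksum_BR _) ?_) (LB2 hD hk)
    (LW2 hD hk hkv) (by rw [α_mul]) (by rw [α_mul])
  rintro _ ⟨f, _, rfl⟩ ⟨f', _, h⟩
  omega

/-- The sum `∑ 2 k xᵢ`. -/
noncomputable def bX (k : ℕ) : List (σ × σ) → (σ →₀ ℕ)
  | [] => 0
  | p :: l => two p.1 p.2 (2 * k) 0 + bX k l

theorem degree_bX (k : ℕ) (l : List (σ × σ)) : (bX k l).degree = 2 * k * l.length := by
  induction l with
  | nil => simp [bX]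
  | cons p l ih => rw [bX, map_add, degree_two, ih, List.length_cons]; ring

theorem bX_apply (k : ℕ) (l : List (σ × σ)) {j : σ} (hj : j ∉ vars l) : bX k l j = 0 := by
  induction l with
  | nil => rfl
  | cons p l ih =>
    rw [vars_cons] at hj
    simp only [Set.mem_union, Set.mem_insert_iff, Set.mem_singleton_iff, not_or] at hj
    rw [bX, Finsupp.add_apply, two_apply_of_ne hj.1.1 hj.1.2, ih hj.2]

theorem bX_mem (k : ℕ) {l : List (σ × σ)} : bX k l ∈ W l k k := by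
  induction l with
  | nil => trivial
  | cons p l ih =>
    refine ⟨k, le_rfl, ?_, by omega, isUpperSet_W l k k le_add_self ih⟩
    rw [bX, Finsupp.add_apply, two, Finsupp.add_apply, Finsupp.single_eq_same]
    omega

/-- A member of minimal degree. -/
noncomputable def mn (D : Data σ) (k : ℕ) (u : σ →₀ ℕ) : σ →₀ ℕ :=
  two D.xR D.yR (k * (4 * D.r + 4)) 0 + u +
    two D.x D.y (2 * (k * (2 * D.a + 2))) 0 + bX k D.l

theorem degree_mn (D : Data σ) (k : ℕ) (u : σ →₀ ℕ) : (D.mn k u).degree =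
    k * (4 * D.r + 4) + u.degree + 2 * (k * (2 * D.a + 2)) + 2 * k * D.l.length := by
  rw [mn, map_add, map_add, map_add, degree_two, degree_two, degree_bX]
  omega

theorem mn_R (D : Data σ) (k : ℕ) (u w : σ →₀ ℕ) : D.mn k u + w ∈ UR D.r D.xR D.yR k := by
  refine isUpperSet_St _ _ _ _ (a := two D.xR D.yR (k * (4 * D.r + 4)) 0) ?_
    ⟨_, top_mem_ksum_BR k, ?_, by omega⟩
  · rw [mn, add_assoc, add_assoc, add_assoc]
    exact le_self_add
  · rw [two, Finsupp.add_apply, Finsupp.single_eq_same]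
    omega

theorem mn_A (D : Data σ) (k : ℕ) (u w : σ →₀ ℕ) :
    D.mn k u + w ∈ UA D.a D.h D.x D.y D.z D.t k := by
  refine isUpperSet_UA _ (a := two D.x D.y (2 * (k * (2 * D.a + 2))) 0) ?_
    (Or.inl ⟨0, Nat.zero_le _, _, top_mem_FA k, ?_, by omega⟩)
  · rw [mn, add_assoc, add_assoc]
    refine le_add_self.trans' ?_
    exact le_self_add
  · rw [two, Finsupp.add_apply, Finsupp.single_eq_same]
    omega

theorem mn_W (D : Data σ) (k : ℕ) (u w : σ →₀ ℕ) : D.mn k u + w ∈ D.T4 k := by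
  refine isUpperSet_W _ _ _ (a := bX k D.l) ?_ (bX_mem k)
  rw [mn, add_assoc]
  exact le_add_self.trans' le_self_add

theorem mn_apply_xV (hD : D.OK) (k : ℕ) (u : σ →₀ ℕ) : D.mn k u D.xV = u D.xV := by
  have h1 := notMem_of_disjoint hD.dRV.symm (j := D.xV) (by simp)
  have h2 := notMem_of_disjoint hD.dVA (j := D.xV) (by simp)
  have h3 := notMem_of_disjoint hD.dVl (j := D.xV) (by simp)
  simp only [Set.mem_insert_iff, Set.mem_singleton_iff, not_or] at h1 h2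
  rw [mn, Finsupp.add_apply, Finsupp.add_apply, Finsupp.add_apply, two_apply_of_ne h1.1 h1.2,
    two_apply_of_ne h2.1 h2.2.1, bX_apply k D.l h3, zero_add, add_zero, add_zero]

theorem mn_apply_yV (hD : D.OK) (k : ℕ) (u : σ →₀ ℕ) : D.mn k u D.yV = u D.yV := by
  have h1 := notMem_of_disjoint hD.dRV.symm (j := D.yV) (by simp)
  have h2 := notMem_of_disjoint hD.dVA (j := D.yV) (by simp)
  have h3 := notMem_of_disjoint hD.dVl (j := D.yV) (by simp)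
  simp only [Set.mem_insert_iff, Set.mem_singleton_iff, not_or] at h1 h2
  rw [mn, Finsupp.add_apply, Finsupp.add_apply, Finsupp.add_apply, two_apply_of_ne h1.1 h1.2,
    two_apply_of_ne h2.1 h2.2.1, bX_apply k D.l h3, zero_add, add_zero, add_zero]

theorem initDeg_pow (hD : D.OK) {k : ℕ} (hk : 1 ≤ k) : initDeg ((D.I K) ^ k) = D.α * k := by
  rw [I_pow hD hk]
  refine initDeg_mid (isUpperT k) ⟨D.mn k (two D.xV D.yV (k * (2 * D.v + 1)) 0), ?_, ?_⟩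
    (LB1 hD hk)
  · have h1 := mn_R D k (two D.xV D.yV (k * (2 * D.v + 1)) 0) 0
    have h2 := mn_A D k (two D.xV D.yV (k * (2 * D.v + 1)) 0) 0
    have h3 := mn_W D k (two D.xV D.yV (k * (2 * D.v + 1)) 0) 0
    rw [add_zero] at h1 h2 h3
    refine ⟨h1, ⟨_, top_mem_ksum_BV _ k, ?_, by omega⟩, h2, h3⟩
    rw [mn_apply_xV hD, two_apply_left hD.hV]
  · rw [degree_mn, degree_two, α_mul]
    omega

theorem initDeg_eq (hD : D.OK) : initDeg (D.I K) = D.α := by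
  have := initDeg_pow (K := K) hD le_rfl
  rwa [pow_one, mul_one] at this

/-- The witness of small degree. -/
theorem wit_T (hD : D.OK) {k : ℕ} (hk : D.v ≤ k) :
    Wit (D.T k) (D.mn k (two D.xV D.yV (2 * D.v) (k * (2 * D.v + 1) - 2 * D.v - 1)))
      {D.xV, D.yV} := by
  have hv := hD.v
  have h1 : 2 * D.v ∈ ksum (BV D.v) k := mem_ksum_BV.2 ⟨D.v, 0, by omega, by ring⟩
  have h2 : 2 * D.v + 1 ∈ ksum (BV D.v) k := mem_ksum_BV.2 ⟨0, 1, by omega, by ring⟩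
  have h3 := wit_St (x := D.xV) (y := D.yV) (fun e he => BV_bound hD.v he) h2 h1 (by omega)
    (fun f _ => by omega)
    (u := D.mn k (two D.xV D.yV (2 * D.v) (k * (2 * D.v + 1) - 2 * D.v - 1)))
    (by rw [mn_apply_xV hD, two_apply_left hD.hV]; omega)
    (by rw [mn_apply_yV hD, two_apply_right hD.hV])
  intro w
  rw [← h3 w]
  exact ⟨fun h => h.2.1, fun h => ⟨mn_R _ _ _ _, h, mn_A _ _ _ _, mn_W _ _ _ _⟩⟩

theorem vNumber_of_le (hD : D.OK) {k : ℕ} (hk : D.v ≤ k) :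
    vNumber ((D.I K) ^ k) = D.α * k - 1 := by
  have hv := hD.v
  rw [I_pow hD (by omega), vNumber_mid (isUpperT k)]
  have hmem : D.α * k - 1 ∈ {d | ∃ u : σ →₀ ℕ, u.degree = d ∧ ∃ F, Wit (D.T k) u F} := by
    refine ⟨_, ?_, _, wit_T hD hk⟩
    have hM : 2 * D.v + 1 ≤ k * (2 * D.v + 1) := Nat.le_mul_of_pos_left _ (by omega)
    rw [degree_mn, degree_two, α_mul]
    omega
  refine le_antisymm (Nat.sInf_le hmem) (le_csInf ⟨_, hmem⟩ ?_)
  rintro d ⟨u, rfl, F, hF⟩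
  exact LW.of_LB (isUpperT k) (nonempty D k) (LB1 hD (by omega)) u F hF

theorem le_vNumber (hD : D.OK) {k : ℕ} (hk : 1 ≤ k) (hkv : k < D.v) :
    D.α * k ≤ vNumber ((D.I K) ^ k) := by
  rw [I_pow hD (by omega), vNumber_mid (isUpperT k)]
  refine le_csInf ?_ ?_
  · have h : ({D.xR, D.yR} : Set σ) ∈ WS (D.T k) := by
      rw [WS_T hD hk]
      exact Or.inl rfl
    obtain ⟨u, hu⟩ := h
    exact ⟨_, u, rfl, _, hu⟩
  · rintro d ⟨u, rfl, F, hF⟩
    exact LW1 hD hk hkv u F hF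

theorem vstab_eq (hD : D.OK) : vstab (D.I K) = D.v := by
  have hv := hD.v
  have hα : 1 ≤ D.α := by rw [α]; omega
  have hmem : D.v ∈ {t : ℕ | 1 ≤ t ∧ ∃ b : ℤ, ∀ k, t ≤ k →
      (vNumber ((D.I K) ^ k) : ℤ) = initDeg (D.I K) * k + b} := by
    refine ⟨hv, -1, fun k hk => ?_⟩
    rw [vNumber_of_le hD hk, initDeg_eq hD]
    have : 1 ≤ D.α * k := Nat.mul_pos hα (by omega)
    push_cast [Nat.cast_sub this]
    ring
  refine le_antisymm (Nat.sInf_le hmem) (le_csInf ⟨_, hmem⟩ ?_)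
  rintro t ⟨ht1, b, ht⟩
  by_contra hlt
  push Not at hlt
  obtain ⟨k, hk⟩ : ∃ k, D.v = k + 1 := ⟨D.v - 1, by omega⟩
  have h1 := ht k (by omega)
  have h2 := ht (k + 1) (by omega)
  rw [initDeg_eq hD] at h1 h2
  rw [vNumber_of_le hD (by omega)] at h2
  have h3 := le_vNumber (K := K) hD (k := k) (by omega) (by omega)
  have h4 : ((D.α * k : ℕ) : ℤ) ≤ (vNumber ((D.I K) ^ k) : ℤ) := by exact_mod_cast h3
  rw [h1] at h4
  have : 1 ≤ D.α * (k + 1) := Nat.mul_pos hα (by omega)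
  push_cast [Nat.cast_sub this] at h2 h4
  linarith

end Data

end Pool.Agent.Lib.MP_0db35b_al
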