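import Pool.Agent.Lib.MP_0db35b_al.Stair

set_option autoImplicit false
set_option linter.unusedSectionVars false

/-!
# Powers of the (rescaled) Hibi ideal of a chain
-/

namespace Pool.Agent.Lib.MP_0db35b_al

variable {σ : Type*} [Fintype σ] [LinearOrder σ]

/-- The exponent vectors above `∑ 2 αᵢ xᵢ + 3 (k - αᵢ) yᵢ` for some `s ≥ α₁ ≥ α₂ ≥ …`, where
`(x₁, y₁), (x₂, y₂), …` is the given list. -/
def W : List (σ × σ) → ℕ → ℕ → Set (σ →₀ ℕ)
  | [], _, _ => Set.univ
  | p :: l, k, s => {w | ∃ α, α ≤ s ∧ 2 * α ≤ w p.1 ∧ 3 * (k - α) ≤ w p.2 ∧ w ∈ W l k α}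

/-- The variables in the list. -/
def vars (l : List (σ × σ)) : Set σ := {j | ∃ p ∈ l, j = p.1 ∨ j = p.2}

/-- All the variables in the list are distinct. -/
def Good : List (σ × σ) → Prop
  | [] => True
  | p :: l => p.1 ≠ p.2 ∧ p.1 ∉ vars l ∧ p.2 ∉ vars l ∧ Good l

theorem mem_W_cons {p : σ × σ} {l : List (σ × σ)} {k s : ℕ} {w : σ →₀ ℕ} :
    w ∈ W (p :: l) k s ↔
      ∃ α, α ≤ s ∧ 2 * α ≤ w p.1 ∧ 3 * (k - α) ≤ w p.2 ∧ w ∈ W l k α := Iff.rfl

theorem vars_cons (p : σ × σ) (l : List (σ × σ)) : vars (p :: l) = {p.1, p.2} ∪ vars l := by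
  ext j
  simp only [vars, Set.mem_ofPred_eq, List.mem_cons, exists_eq_or_imp, Set.mem_union,
    Set.mem_insert_iff, Set.mem_singleton_iff]

theorem dep_W (l : List (σ × σ)) : ∀ k s, DepOn (vars l) (W l k s) := by
  induction l with
  | nil => exact fun _ _ _ _ _ _ => trivial
  | cons p l ih =>
    rintro k s w w' hw ⟨α, h1, h2, h3, h4⟩
    rw [vars_cons] at hw
    have hx := hw p.1 (Or.inl (by simp))
    have hy := hw p.2 (Or.inl (by simp))
    exact ⟨α, h1, by omega, by omega, ih k α w w' (fun j hj => hw j (Or.inr hj)) h4⟩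

theorem isUpperSet_W (l : List (σ × σ)) : ∀ k s, IsUpperSet (W l k s) := by
  induction l with
  | nil => exact fun _ _ => isUpperSet_univ
  | cons p l ih =>
    rintro k s w w' hw ⟨α, h1, h2, h3, h4⟩
    exact ⟨α, h1, h2.trans (hw _), h3.trans (hw _), ih k α hw h4⟩

theorem W_mono (l : List (σ × σ)) (k : ℕ) {s s' : ℕ} (h : s ≤ s') : W l k s ⊆ W l k s' := by
  cases l with
  | nil => exact fun _ _ => trivial
  | cons p l =>
    rintro w ⟨α, h1, h2⟩
    exact ⟨α, h1.trans h, h2⟩

theorem shift_two {V : Set σ} {U : Set (σ →₀ ℕ)} (hU : DepOn V U) {x y : σ} (hxy : x ≠ y)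
    (hx : x ∉ V) (hy : y ∉ V) (a b : ℕ) :
    (two x y a b + ·) '' U = {w | a ≤ w x ∧ b ≤ w y ∧ w ∈ U} := by
  have h0 : ∀ j, j ∈ V → two x y a b j = 0 := by
    intro j hj
    have h1 : j ≠ x := fun h => hx (h ▸ hj)
    have h2 : j ≠ y := fun h => hy (h ▸ hj)
    rw [two, Finsupp.add_apply, Finsupp.single_eq_of_ne h1, Finsupp.single_eq_of_ne h2,
      Nat.add_zero]
  ext w
  constructor
  · rintro ⟨v, hv, rfl⟩
    obtain ⟨h1, h2⟩ := (two_le hxy).1 (le_self_add : two x y a b ≤ two x y a b + v)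
    refine ⟨h1, h2, hU v _ (fun j hj => ?_) hv⟩
    simp [h0 j hj]
  · rintro ⟨h1, h2, h3⟩
    have hle : two x y a b ≤ w := (two_le hxy).2 ⟨h1, h2⟩
    refine ⟨w - two x y a b, hU w _ (fun j hj => ?_) h3, add_tsub_cancel_of_le hle⟩
    simp [h0 j hj]

theorem nice_W {V : Set σ} (l : List (σ × σ)) (hl : Good l) (hV : vars l ⊆ V) (k : ℕ) :
    ∀ s, s ≤ k →
      Nice V (W l k s) (min l.length s) (3 * k * l.length + if s = 0 then 0 else 1) := by
  induction l with
  | nil =>
    intro s _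
    exact Nice.univ.mono (Nat.zero_le _) (Nat.zero_le _)
  | cons p l ih =>
    obtain ⟨hxy, hx, hy, hl'⟩ := hl
    rw [vars_cons] at hV
    have hxV : p.1 ∈ V := hV (Or.inl (by simp))
    have hyV : p.2 ∈ V := hV (Or.inl (by simp))
    have ih := ih hl' (fun j hj => hV (Or.inr hj))
    have hshift : ∀ s a b, s ≤ k → Nice V {w | a ≤ w p.1 ∧ b ≤ w p.2 ∧ w ∈ W l k s}
        (min l.length s) (3 * k * l.length + (if s = 0 then 0 else 1) + (a + b)) := by
      intro s a b hs
      have h1 := (ih s hs).shift (u := two p.1 p.2 a b)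
        (fun j hj => two_eq_zero hxV hyV hj _ _)
      rwa [shift_two (dep_W l k s) hxy hx hy, degree_two] at h1
    intro s
    induction s with
    | zero =>
      intro _
      have e : W (p :: l) k 0 = {w | 0 ≤ w p.1 ∧ 3 * k ≤ w p.2 ∧ w ∈ W l k 0} := by
        ext w
        simp only [mem_W_cons, Set.mem_ofPred_eq]
        constructor
        · rintro ⟨α, h1, h2, h3, h4⟩
          have : α = 0 := by omega
          subst this
          exact ⟨Nat.zero_le _, by simpa using h3, h4⟩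
        · rintro ⟨_, h3, h4⟩
          exact ⟨0, le_rfl, by omega, by simpa using h3, h4⟩
      rw [e]
      refine (hshift 0 0 (3 * k) (Nat.zero_le _)).mono (by omega) ?_
      rw [List.length_cons, if_pos rfl]
      ring_nf
      omega
    | succ s ihs =>
      intro hs
      have ihs := ihs (by omega)
      have e : W (p :: l) k (s + 1) = W (p :: l) k s ∪
          {w | 2 * (s + 1) ≤ w p.1 ∧ 3 * (k - (s + 1)) ≤ w p.2 ∧ w ∈ W l k (s + 1)} := by
        ext w
        simp only [mem_W_cons, Set.mem_ofPred_eq, Set.mem_union]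
        constructor
        · rintro ⟨α, h1, h2, h3, h4⟩
          by_cases hα : α = s + 1
          · subst hα; exact Or.inr ⟨h2, h3, h4⟩
          · exact Or.inl ⟨α, by omega, h2, h3, h4⟩
        · rintro (⟨α, h1, h2, h3, h4⟩ | ⟨h2, h3, h4⟩)
          · exact ⟨α, by omega, h2, h3, h4⟩
          · exact ⟨s + 1, le_rfl, h2, h3, h4⟩
      have ei : W (p :: l) k s ∩
          {w | 2 * (s + 1) ≤ w p.1 ∧ 3 * (k - (s + 1)) ≤ w p.2 ∧ w ∈ W l k (s + 1)} =
          {w | 2 * (s + 1) ≤ w p.1 ∧ 3 * (k - s) ≤ w p.2 ∧ w ∈ W l k s} := by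
        ext w
        simp only [mem_W_cons, Set.mem_ofPred_eq, Set.mem_inter_iff]
        constructor
        · rintro ⟨⟨α, h1, h2, h3, h4⟩, h5, h6, h7⟩
          exact ⟨h5, by omega, W_mono l k h1 h4⟩
        · rintro ⟨h5, h6, h7⟩
          exact ⟨⟨s, le_rfl, by omega, h6, h7⟩, h5, by omega, W_mono l k (by omega) h7⟩
      rw [e]
      have hmin : min (p :: l).length (s + 1) = min l.length s + 1 := by
        rw [List.length_cons]; omega
      have hρ : 3 * k * (p :: l).length + (if s + 1 = 0 then 0 else 1) =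
          3 * k * l.length + 3 * k + 1 := by
        rw [List.length_cons, if_neg (by omega)]
        ring
      rw [hmin, hρ]
      refine Nice.union ?_ ?_ ?_
      · refine ihs.mono ?_ ?_
        · rw [List.length_cons]; omega
        · rw [List.length_cons]
          split_ifs <;> (ring_nf; omega)
      · refine (hshift (s + 1) _ _ hs).mono (by omega) ?_
        rw [if_neg (by omega)]
        omega
      · rw [ei]
        refine (hshift s _ _ (by omega)).mono le_rfl ?_
        split_ifs <;> omega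

/-- Addition: `W l (k+1) (k+1) = W l k k + W l 1 1`. -/
theorem W_add (l : List (σ × σ)) : ∀ {k k' s s' : ℕ} {w w' : σ →₀ ℕ}, s ≤ k → s' ≤ k' →
    w ∈ W l k s → w' ∈ W l k' s' → w + w' ∈ W l (k + k') (s + s') := by
  induction l with
  | nil => intros; trivial
  | cons p l ih =>
    rintro k k' s s' w w' hs hs' ⟨α, h1, h2, h3, h4⟩ ⟨β, h5, h6, h7, h8⟩
    refine ⟨α + β, by omega, ?_, ?_, ih (by omega) (by omega) h4 h8⟩
    · rw [Finsupp.add_apply]; omega
    · rw [Finsupp.add_apply]; omega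

theorem W_split (l : List (σ × σ)) (hl : Good l) : ∀ {k s : ℕ} {w : σ →₀ ℕ}, s ≤ k + 1 →
    w ∈ W l (k + 1) s → ∃ v : σ →₀ ℕ, v ≤ w ∧ (∀ j, j ∉ vars l → v j = 0) ∧
      v ∈ W l 1 (min s 1) ∧ w - v ∈ W l k (s - 1) := by
  induction l with
  | nil =>
    intro k s w _ _
    exact ⟨0, zero_le, fun _ _ => rfl, trivial, trivial⟩
  | cons p l ih =>
    obtain ⟨hxy, hx, hy, hl'⟩ := hl
    rintro k s w hs ⟨α, h1, h2, h3, h4⟩
    obtain ⟨v, hv1, hv2, hv3, hv4⟩ := ih hl' (by omega : α ≤ k + 1) h4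
    have hvx : v p.1 = 0 := hv2 _ hx
    have hvy : v p.2 = 0 := hv2 _ hy
    have hdep1 := dep_W l 1
    have hdepk := dep_W l k
    -- the part in the new variables
    obtain ⟨a, b, hab, ha, hb⟩ : ∃ a b : ℕ, (a = if α = 0 then 0 else 2) ∧
        (b = if α = 0 then 3 else 0) ∧ True := ⟨_, _, rfl, rfl, trivial⟩
    have htwo0 : ∀ j, j ∈ vars l → two p.1 p.2 a b j = 0 := by
      intro j hj
      have h1 : j ≠ p.1 := fun h => hx (h ▸ hj)
      have h2 : j ≠ p.2 := fun h => hy (h ▸ hj)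
      rw [two, Finsupp.add_apply, Finsupp.single_eq_of_ne h1, Finsupp.single_eq_of_ne h2,
        Nat.add_zero]
    have htx : two p.1 p.2 a b p.1 = a := by simp [two, Finsupp.single_eq_of_ne hxy]
    have hty : two p.1 p.2 a b p.2 = b := by simp [two, Finsupp.single_eq_of_ne hxy.symm]
    refine ⟨v + two p.1 p.2 a b, ?_, ?_, ?_, ?_⟩
    · intro j
      rw [Finsupp.add_apply]
      by_cases hj1 : j = p.1
      · subst hj1
        rw [hvx, htx, zero_add, hab]
        split_ifs <;> omega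
      · by_cases hj2 : j = p.2
        · subst hj2
          rw [hvy, hty, zero_add, ha]
          split_ifs <;> omega
        · have : two p.1 p.2 a b j = 0 := by
            rw [two, Finsupp.add_apply, Finsupp.single_eq_of_ne hj1,
              Finsupp.single_eq_of_ne hj2, Nat.add_zero]
          rw [this, add_zero]
          exact hv1 j
    · intro j hj
      rw [vars_cons] at hj
      have hj1 : j ≠ p.1 := fun h => hj (Or.inl (by simp [h]))
      have hj2 : j ≠ p.2 := fun h => hj (Or.inl (by simp [h]))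
      rw [Finsupp.add_apply, hv2 j (fun h => hj (Or.inr h)), two, Finsupp.add_apply,
        Finsupp.single_eq_of_ne hj1, Finsupp.single_eq_of_ne hj2, Nat.add_zero, Nat.add_zero]
    · refine ⟨min α 1, by omega, ?_, ?_, ?_⟩
      · rw [Finsupp.add_apply, hvx, htx, hab]
        split_ifs <;> omega
      · rw [Finsupp.add_apply, hvy, hty, ha]
        split_ifs <;> omega
      · refine hdep1 _ v _ (fun j hj => ?_) hv3
        rw [Finsupp.add_apply, htwo0 j hj, add_zero]
    · refine ⟨α - 1, by omega, ?_, ?_, ?_⟩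
      · rw [Finsupp.tsub_apply, Finsupp.add_apply, hvx, htx, hab]
        split_ifs <;> omega
      · rw [Finsupp.tsub_apply, Finsupp.add_apply, hvy, hty, ha]
        split_ifs <;> omega
      · refine hdepk _ (w - v) _ (fun j hj => ?_) hv4
        rw [Finsupp.tsub_apply, Finsupp.tsub_apply, Finsupp.add_apply, htwo0 j hj, add_zero]

theorem W_succ (l : List (σ × σ)) (hl : Good l) (k : ℕ) (w : σ →₀ ℕ) :
    w ∈ W l (k + 1) (k + 1) ↔ ∃ v ∈ W l k k, ∃ v' ∈ W l 1 1, v + v' = w := by
  constructor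
  · intro h
    obtain ⟨v, h1, _, h3, h4⟩ := W_split l hl le_rfl h
    refine ⟨w - v, by simpa using h4, v, W_mono l 1 (by omega) h3, tsub_add_cancel_of_le h1⟩
  · rintro ⟨v, hv, v', hv', rfl⟩
    exact W_add l le_rfl le_rfl hv hv'

end Pool.Agent.Lib.MP_0db35b_al
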