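import Pool.Agent.Lib.MP_0db35b_al.Defs

set_option autoImplicit false
set_option linter.unusedSectionVars false

/-!
# Koszul complexes of modules over a commutative ring, by hand

For a finite linearly ordered index set `σ`, a family `x : σ → R` and an `R`-module `M`, a chain of
the Koszul complex `K(x; M)` is a function `z : Finset σ → M` (`z τ` is the coefficient of `e_τ`).
-/

namespace Pool.Agent.Lib.MP_0db35b_al

open Finset


section ops

variable {σ : Type*} [Fintype σ] [LinearOrder σ]
variable {R M : Type*} [CommRing R] [AddCommGroup M] [Module R M]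

theorem sgn_mul_self (j : σ) (τ : Finset σ) : sgn j τ * sgn j τ = 1 := by
  unfold sgn
  rw [← mul_pow]
  simp

theorem sgn_insert {j l : σ} {τ : Finset σ} (hl : l ∉ τ) :
    sgn j (insert l τ) = (if l < j then -1 else 1) * sgn j τ := by
  unfold sgn
  rw [filter_insert]
  split_ifs with h
  · rw [card_insert_of_notMem (by simp [hl])]
    ring
  · simp

theorem sgn_swap {j l : σ} {τ : Finset σ} (hjl : j ≠ l) (hj : j ∉ τ) (hl : l ∉ τ) :
    sgn l τ * sgn j (insert l τ) = -(sgn j τ * sgn l (insert j τ)) := by
  rw [sgn_insert hl, sgn_insert hj]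
  rcases lt_or_gt_of_ne hjl with h | h
  · rw [if_neg (not_lt.2 h.le), if_pos h]; ring
  · rw [if_pos h, if_neg (not_lt.2 h.le)]; ring

/-- Wedge with `e_j`. -/
def wedge (j : σ) (z : Finset σ → M) (τ : Finset σ) : M :=
  if j ∈ τ then sgn j (τ.erase j) • z (τ.erase j) else 0

/-- The part of `z` containing `e_j`, with `e_j` removed. -/
def link (j : σ) (z : Finset σ → M) (τ : Finset σ) : M :=
  if j ∈ τ then 0 else sgn j τ • z (insert j τ)

theorem koszulD_add (x : σ → R) (z w : Finset σ → M) :
    koszulD x (z + w) = koszulD x z + koszulD x w := by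
  funext τ
  simp only [koszulD, Pi.add_apply, smul_add, sum_add_distrib]

theorem koszulD_neg (x : σ → R) (z : Finset σ → M) :
    koszulD x (-z) = -koszulD x z := by
  funext τ
  simp only [koszulD, Pi.neg_apply, smul_neg, sum_neg_distrib]

theorem koszulD_sub (x : σ → R) (z w : Finset σ → M) :
    koszulD x (z - w) = koszulD x z - koszulD x w := by
  rw [sub_eq_add_neg, koszulD_add, koszulD_neg, sub_eq_add_neg]

@[simp] theorem koszulD_zero (x : σ → R) : koszulD x (0 : Finset σ → M) = 0 := by
  funext τ
  simp [koszulD]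

theorem koszulD_smul (x : σ → R) (a : R) (z : Finset σ → M) :
    koszulD x (a • z) = a • koszulD x z := by
  funext τ
  simp only [koszulD, Pi.smul_apply, smul_sum]
  refine sum_congr rfl fun j _ => ?_
  rw [smul_comm (x j) a, smul_comm a (sgn j τ)]

theorem koszulD_sum {ι : Type*} (s : Finset ι) (x : σ → R) (z : ι → Finset σ → M) :
    koszulD x (∑ i ∈ s, z i) = ∑ i ∈ s, koszulD x (z i) := by
  classical
  induction s using Finset.induction_on with
  | empty => simp
  | insert i s hi ih => rw [sum_insert hi, sum_insert hi, koszulD_add, ih]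

theorem koszulD_koszulD (x : σ → R) (z : Finset σ → M) : koszulD x (koszulD x z) = 0 := by
  funext τ
  simp only [koszulD, smul_sum, Pi.zero_apply]
  rw [Finset.sum_sigma']
  refine Finset.sum_involution (fun p _ => ⟨p.2, p.1⟩) ?_ ?_ ?_ ?_
  · rintro ⟨l, j⟩ h
    simp only [mem_sigma, mem_compl, mem_insert, not_or] at h
    obtain ⟨hl, hjl, hj⟩ := h
    have h1 := sgn_swap hjl hj hl
    have e : insert l (insert j τ) = insert j (insert l τ) := Finset.insert_comm _ _ _
    simp only [e]
    rw [smul_comm (x l) (sgn j (insert l τ)), smul_comm (x j) (sgn l (insert j τ)), smul_smul,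
      smul_smul (sgn j τ), smul_comm (x j) (x l), h1, neg_smul, neg_add_cancel]
  · rintro ⟨l, j⟩ h h0 h1
    simp only [mem_sigma, mem_compl, mem_insert, not_or] at h
    simp only [Sigma.mk.injEq, heq_eq_eq] at h1
    exact h.2.1 h1.1
  · rintro ⟨l, j⟩ h
    simp only [mem_sigma, mem_compl, mem_insert, not_or] at h ⊢
    exact ⟨h.2.2, Ne.symm h.2.1, h.1⟩
  · rintro ⟨l, j⟩ h
    rfl

theorem koszulD_wedge (x : σ → R) (j : σ) (z : Finset σ → M) :
    koszulD x (wedge j z) + wedge j (koszulD x z) = x j • z := by
  funext τ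
  simp only [Pi.add_apply, Pi.smul_apply]
  by_cases hj : j ∈ τ
  · have hτ : (τ.erase j)ᶜ = insert j τᶜ := by
      ext l; simp only [mem_compl, mem_erase, mem_insert]; tauto
    have hjc : j ∉ τᶜ := by simpa using hj
    have e1 : wedge j (koszulD x z) τ = x j • z τ +
        ∑ l ∈ τᶜ, sgn j (τ.erase j) • sgn l (τ.erase j) • x l • z (insert l (τ.erase j)) := by
      rw [wedge, if_pos hj, koszulD, hτ, sum_insert hjc, smul_add, smul_smul, sgn_mul_self,
        one_smul, insert_erase hj, smul_sum]
    have e2 : koszulD x (wedge j z) τ =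
        ∑ l ∈ τᶜ, -(sgn j (τ.erase j) • sgn l (τ.erase j) • x l • z (insert l (τ.erase j))) := by
      rw [koszulD]
      refine sum_congr rfl fun l hl => ?_
      have hl' : l ∉ τ := by simpa using hl
      have hlj : l ≠ j := fun h => hl' (h ▸ hj)
      have hle : l ∉ τ.erase j := fun h => hl' (mem_of_mem_erase h)
      have hje : j ∉ τ.erase j := notMem_erase j τ
      rw [wedge, if_pos (mem_insert_of_mem hj), erase_insert_of_ne hlj]
      have h1 := sgn_swap hlj hle hje
      rw [insert_erase hj] at h1
      -- h1 : sgn j (τ.erase j) * sgn l τ = - (sgn l (erase) * sgn j (insert l erase))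
      have h2 : sgn l τ * sgn j (insert l (τ.erase j)) =
          -(sgn j (τ.erase j) * sgn l (τ.erase j)) := by
        have h3 := congrArg (fun t => sgn j (τ.erase j) * t * sgn j (insert l (τ.erase j))) h1
        have h4 := sgn_mul_self j (τ.erase j)
        have h5 := sgn_mul_self j (insert l (τ.erase j))
        have h6 : sgn j (τ.erase j) * (sgn j (τ.erase j) * sgn l τ) * sgn j (insert l (τ.erase j))
            = sgn l τ * sgn j (insert l (τ.erase j)) := by
          rw [← mul_assoc, h4, one_mul]
        have h7 : sgn j (τ.erase j) * -(sgn l (τ.erase j) * sgn j (insert l (τ.erase j))) *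
            sgn j (insert l (τ.erase j)) = -(sgn j (τ.erase j) * sgn l (τ.erase j)) := by
          calc _ = -(sgn j (τ.erase j) * sgn l (τ.erase j)) *
                (sgn j (insert l (τ.erase j)) * sgn j (insert l (τ.erase j))) := by ring
            _ = _ := by rw [h5, mul_one]
        rw [h6, h7] at h3
        exact h3
      rw [smul_comm (x l) (sgn j (insert l (τ.erase j))), smul_smul, h2, smul_smul, neg_smul]
    rw [e1, e2, sum_neg_distrib]
    abel
  · rw [wedge, if_neg hj, add_zero, koszulD, Finset.sum_eq_single j]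
    · rw [wedge, if_pos (mem_insert_self j τ), erase_insert hj, smul_comm (x j), smul_smul,
        sgn_mul_self, one_smul]
    · intro l hl hlj
      rw [wedge, if_neg, smul_zero, smul_zero]
      simp [hj, Ne.symm hlj]
    · intro h
      exact absurd (by simpa using hj) h

theorem link_koszulD (x : σ → R) (j : σ) (z : Finset σ → M) :
    link j (koszulD x z) = -koszulD x (link j z) := by
  funext τ
  simp only [Pi.neg_apply]
  by_cases hj : j ∈ τ
  · rw [link, if_pos hj, koszulD, sum_eq_zero, neg_zero]
    intro l _
    rw [link, if_pos (mem_insert_of_mem hj), smul_zero, smul_zero]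
  · have hτ : τᶜ = insert j (insert j τ)ᶜ := by
      ext l; simp only [mem_compl, mem_insert]
      by_cases hlj : l = j
      · subst hlj; simp [hj]
      · simp [hlj]
    have hjc : j ∉ (insert j τ)ᶜ := by simp
    rw [link, if_neg hj, koszulD, koszulD]
    conv_rhs => rw [hτ, sum_insert hjc]
    rw [link, if_pos (mem_insert_self j τ), smul_zero, smul_zero, zero_add, smul_sum,
      ← sum_neg_distrib]
    refine sum_congr rfl fun l hl => ?_
    have hl' : l ≠ j ∧ l ∉ τ := by simpa [not_or] using hl
    rw [link, if_neg (by simp [hj, Ne.symm hl'.1])]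
    have h1 := sgn_swap hl'.1 hl'.2 hj
    rw [smul_smul, h1, Finset.insert_comm l j, neg_smul, smul_comm (x l), smul_smul]

theorem link_wedge_of_notMem (j : σ) (z : Finset σ → M) (hz : ∀ τ, j ∈ τ → z τ = 0) :
    link j (wedge j z) = z := by
  funext τ
  by_cases hj : j ∈ τ
  · rw [link, if_pos hj, hz τ hj]
  · rw [link, if_neg hj, wedge, if_pos (mem_insert_self j τ), erase_insert hj, smul_smul,
      sgn_mul_self, one_smul]

end ops

end Pool.Agent.Lib.MP_0db35b_al
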