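import Pool.Agent.Lib.MP_0db35b_al.Constr

set_option autoImplicit false
set_option linter.unusedSectionVars false

/-!
# Koszul homology of monomial ideals in each multidegree
-/

namespace Pool.Agent.Lib.MP_0db35b_al

open Finset MvPolynomial

variable {σ : Type*} [Fintype σ] [LinearOrder σ]
variable (K : Type*) [Field K]

/-- The monomial ideal with the exponent vectors `U`. -/
noncomputable def mid (U : Set (σ →₀ ℕ)) : Ideal (MvPolynomial σ K) :=
  Ideal.span ((fun s => monomial s (1 : K)) '' U)

variable {K}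

theorem mem_mid {U : Set (σ →₀ ℕ)} (hU : IsUpperSet U) {f : MvPolynomial σ K} :
    f ∈ mid K U ↔ ∀ u ∈ f.support, u ∈ U := by
  rw [mid, mem_ideal_span_monomial_image]
  exact forall₂_congr fun u _ => ⟨fun ⟨s, hs, hsu⟩ => hU hsu hs, fun h => ⟨u, h, le_rfl⟩⟩

theorem mem_mid' {U : Set (σ →₀ ℕ)} (hU : IsUpperSet U) {f : MvPolynomial σ K} :
    f ∈ mid K U ↔ ∀ u, coeff u f ≠ 0 → u ∈ U := by
  rw [mem_mid hU]
  simp only [mem_support_iff]

/-- The component in multidegree `b` of a Koszul chain. -/
noncomputable def comp (b : σ →₀ ℕ) (z : Finset σ → MvPolynomial σ K) : Finset σ → K := fun τ =>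
  if ind τ ≤ b then coeff (b - ind τ) (z τ) else 0

/-- The Koszul chain of multidegree `b` with the given coefficients. -/
noncomputable def lift (b : σ →₀ ℕ) (c : Finset σ → K) : Finset σ → MvPolynomial σ K := fun τ =>
  if ind τ ≤ b then monomial (b - ind τ) (c τ) else 0

theorem ind_insert_le {j : σ} {τ : Finset σ} {b : σ →₀ ℕ} (hj : j ∉ τ) (h : ind τ ≤ b) :
    ind (insert j τ) ≤ b ↔ b j ≠ 0 := by
  constructor
  · intro h1
    have := h1 j
    rw [ind_apply, if_pos (mem_insert_self _ _)] at this
    omega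
  · intro h1 l
    have h2 := h l
    rw [ind_apply] at h2 ⊢
    by_cases hlj : l = j
    · subst hlj
      rw [if_pos (mem_insert_self _ _)]
      omega
    · simp only [mem_insert, hlj, false_or]
      exact h2

theorem not_ind_insert_le {j : σ} {τ : Finset σ} {b : σ →₀ ℕ} (h : ¬ ind τ ≤ b) :
    ¬ ind (insert j τ) ≤ b := fun h1 => h ((ind_mono (subset_insert j τ)).trans h1)

theorem comp_koszulD (b : σ →₀ ℕ) (z : Finset σ → MvPolynomial σ K) :
    comp b (koszulD (X : σ → MvPolynomial σ K) z) = sd (comp b z) := by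
  funext τ
  by_cases h : ind τ ≤ b
  · rw [comp, if_pos h, koszulD, coeff_sum, sd, koszulD]
    refine sum_congr rfl fun j hj => ?_
    have hj' : j ∉ τ := by simpa using hj
    rw [one_smul, coeff_smul, smul_eq_mul, coeff_X_mul', comp]
    congr 1
    have e1 : (b - ind τ) j = b j := by
      rw [Finsupp.tsub_apply, ind_apply, if_neg hj', Nat.sub_zero]
    by_cases h1 : b j = 0
    · rw [if_neg (by rw [Finsupp.mem_support_iff, e1]; simpa using h1), if_neg]
      rw [ind_insert_le hj' h]
      simpa using h1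
    · rw [if_pos (by rw [Finsupp.mem_support_iff, e1]; exact h1), if_pos ((ind_insert_le hj' h).2 h1)]
      congr 1
      rw [ind_insert hj', tsub_add_eq_tsub_tsub]
  · rw [comp, if_neg h, sd, koszulD, sum_eq_zero]
    intro j _
    rw [comp, if_neg (not_ind_insert_le h), smul_zero, smul_zero]

theorem koszulD_lift (b : σ →₀ ℕ) (c : Finset σ → K) (hc : ∀ τ, ¬ ind τ ≤ b → c τ = 0) :
    koszulD (X : σ → MvPolynomial σ K) (lift b c) = lift b (sd c) := by
  funext τ
  by_cases h : ind τ ≤ b
  · rw [lift, if_pos h, koszulD, sd, koszulD, map_sum]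
    refine sum_congr rfl fun j hj => ?_
    have hj' : j ∉ τ := by simpa using hj
    rw [one_smul, map_zsmul]
    congr 1
    by_cases h1 : b j = 0
    · have h2 : ¬ ind (insert j τ) ≤ b := by
        rw [ind_insert_le hj' h]; simpa using h1
      rw [lift, if_neg h2, hc _ h2, smul_zero, map_zero]
    · have h2 := (ind_insert_le hj' h).2 h1
      rw [lift, if_pos h2, smul_eq_mul, X, monomial_mul, one_mul]
      have e : Finsupp.single j 1 + (b - ind (insert j τ)) = b - ind τ := by
        rw [ind_insert hj'] at h2 ⊢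
        ext l
        have := h2 l
        simp only [Finsupp.add_apply, Finsupp.tsub_apply] at this ⊢
        omega
      rw [e]
  · rw [lift, if_neg h, koszulD, sum_eq_zero]
    intro j _
    rw [lift, if_neg (not_ind_insert_le h), smul_zero, smul_zero]

theorem comp_lift (b : σ →₀ ℕ) (c : Finset σ → K) (hc : ∀ τ, ¬ ind τ ≤ b → c τ = 0) :
    comp b (lift b c) = c := by
  funext τ
  by_cases h : ind τ ≤ b
  · rw [comp, if_pos h, lift, if_pos h, coeff_monomial, if_pos rfl]
  · rw [comp, if_neg h, hc τ h]

theorem lift_mem {U : Set (σ →₀ ℕ)} (hU : IsUpperSet U) {b : σ →₀ ℕ} {i : ℕ} {c : Finset σ → K}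
    (hc : InFam (fam U b) i c) (τ : Finset σ) : lift b c τ ∈ mid K U := by
  rw [mem_mid' hU]
  intro u hu
  rw [lift] at hu
  split_ifs at hu with h
  · rw [coeff_monomial] at hu
    split_ifs at hu with h1
    · rw [← h1]
      exact (mem_fam_iff.1 (hc τ hu).1).2
    · exact absurd rfl hu
  · simp at hu

theorem suppCard_lift {b : σ →₀ ℕ} {i : ℕ} {c : Finset σ → K}
    (hc : ∀ τ, c τ ≠ 0 → τ.card = i) : SuppCard i (lift b c) := by
  intro τ hτ
  have : c τ = 0 := by
    by_contra h
    exact hτ (hc τ h)
  rw [lift, this]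
  simp

/-- If the degree `j` part of the `i`-th Koszul homology of a monomial ideal vanishes then so does
the homology of each of the families of multidegree `b` with `|b| = i + j`. -/
theorem van_of_vanish {U : Set (σ →₀ ℕ)} (hU : IsUpperSet U) {b : σ →₀ ℕ} {i j : ℕ}
    (hb : b.degree = i + j)
    (h : ∀ z : Finset σ → MvPolynomial σ K, (∀ τ, z τ ∈ mid K U) → SuppCard i z →
      (∀ τ, (z τ).IsHomogeneous j) → koszulD (X : σ → MvPolynomial σ K) z = 0 →
      ∃ w : Finset σ → MvPolynomial σ K, (∀ τ, w τ ∈ mid K U) ∧ koszulD (X : σ → MvPolynomial σ K) w = z) :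
    Van K (fam U b) i := by
  classical
  intro c hc hcyc
  have hc0 : ∀ τ, ¬ ind τ ≤ b → c τ = 0 := by
    intro τ hτ
    by_contra h0
    exact hτ (mem_fam_iff.1 (hc τ h0).1).1
  obtain ⟨w, hw, hwz⟩ := h (lift b c) (lift_mem hU hc) (suppCard_lift fun τ hτ => (hc τ hτ).2)
    (by
      intro τ
      by_cases h0 : c τ = 0
      · rw [lift, h0]
        simpa using isHomogeneous_zero σ K j
      · obtain ⟨h1, h2⟩ := hc τ h0
        have h3 := (mem_fam_iff.1 h1).1
        rw [lift, if_pos h3]
        refine isHomogeneous_monomial _ ?_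
        have h4 : b.degree = (b - ind τ).degree + (ind τ).degree := by
          rw [← map_add, tsub_add_cancel_of_le h3]
        rw [degree_ind, h2] at h4
        omega)
    (by rw [koszulD_lift b c hc0, hcyc]; funext τ; simp [lift])
  refine ⟨fun τ => if τ.card = i + 1 then comp b w τ else 0, ?_, ?_⟩
  · intro τ hτ
    simp only [ne_eq, ite_eq_right_iff, Classical.not_imp] at hτ
    obtain ⟨h1, h2⟩ := hτ
    refine ⟨?_, h1⟩
    rw [comp] at h2
    split_ifs at h2 with h3
    · rw [mem_fam_iff]
      exact ⟨h3, (mem_mid' hU).1 (hw τ) _ h2⟩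
    · exact absurd rfl h2
  · have h1 : sd (comp b w) = c := by
      rw [← comp_koszulD, hwz, comp_lift b c hc0]
    funext τ
    by_cases hτ : τ.card = i
    · rw [← h1]
      simp only [sd, koszulD]
      refine sum_congr rfl fun l hl => ?_
      rw [if_pos]
      rw [card_insert_of_notMem (by simpa using hl), hτ]
    · have h2 : c τ = 0 := by
        by_contra h0
        exact hτ (hc τ h0).2
      rw [h2]
      simp only [sd, koszulD]
      refine sum_eq_zero fun l hl => ?_
      rw [if_neg, smul_zero, smul_zero]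
      rw [card_insert_of_notMem (by simpa using hl)]
      omega

/-- The converse: vanishing in all multidegrees implies the vanishing of Koszul homology. -/
theorem vanish_of_van {U : Set (σ →₀ ℕ)} (hU : IsUpperSet U) {i j : ℕ}
    (h : ∀ b : σ →₀ ℕ, b.degree = i + j → Van K (fam U b) i)
    (z : Finset σ → MvPolynomial σ K) (hz : ∀ τ, z τ ∈ mid K U) (hzs : SuppCard i z)
    (hzh : ∀ τ, (z τ).IsHomogeneous j) (hcyc : koszulD (X : σ → MvPolynomial σ K) z = 0) :
    ∃ w : Finset σ → MvPolynomial σ K, (∀ τ, w τ ∈ mid K U) ∧ SuppCard (i + 1) w ∧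
      koszulD (X : σ → MvPolynomial σ K) w = z := by
  classical
  have hfam : ∀ b, InFam (fam U b) i (comp b z) := by
    intro b τ hτ
    rw [comp] at hτ
    split_ifs at hτ with h1
    · refine ⟨mem_fam_iff.2 ⟨h1, (mem_mid' hU).1 (hz τ) _ hτ⟩, ?_⟩
      by_contra h2
      rw [hzs τ h2] at hτ
      simp at hτ
    · exact absurd rfl hτ
  have hex : ∀ b : σ →₀ ℕ, b.degree = i + j →
      ∃ w : Finset σ → K, InFam (fam U b) (i + 1) w ∧ sd w = comp b z := by
    intro b hb
    refine h b hb _ (hfam b) ?_
    rw [← comp_koszulD, hcyc]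
    funext τ
    simp [comp]
  let B : Finset (σ →₀ ℕ) := Finset.finsuppAntidiag Finset.univ (i + j)
  have hB : ∀ b, b ∈ B ↔ b.degree = i + j := by
    intro b
    simp only [B, mem_finsuppAntidiag, subset_univ, and_true]
    rw [Finsupp.degree_eq_sum]
  choose w hw using hex
  let W : (σ →₀ ℕ) → Finset σ → K := fun b => if hb : b.degree = i + j then w b hb else 0
  have hW : ∀ b, b ∈ B → InFam (fam U b) (i + 1) (W b) ∧ sd (W b) = comp b z := by
    intro b hb
    have hb' := (hB b).1 hb
    simp only [W, dif_pos hb']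
    exact hw b hb'
  refine ⟨∑ b ∈ B, lift b (W b), ?_, ?_, ?_⟩
  · intro τ
    rw [Finset.sum_apply]
    exact Ideal.sum_mem _ fun b hb => lift_mem hU (hW b hb).1 τ
  · intro τ hτ
    rw [Finset.sum_apply]
    exact sum_eq_zero fun b hb => suppCard_lift (fun τ hτ => ((hW b hb).1 τ hτ).2) τ hτ
  · rw [koszulD_sum]
    have e1 : ∑ b ∈ B, koszulD (X : σ → MvPolynomial σ K) (lift b (W b)) = ∑ b ∈ B, lift b (comp b z) := by
      refine sum_congr rfl fun b hb => ?_
      rw [koszulD_lift, (hW b hb).2]
      intro τ hτ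
      by_contra h0
      exact hτ (mem_fam_iff.1 ((hW b hb).1 τ h0).1).1
    rw [e1]
    funext τ
    rw [Finset.sum_apply]
    ext m
    rw [coeff_sum]
    have e2 : ∀ b ∈ B, coeff m (lift b (comp b z) τ) =
        if b = m + ind τ then coeff m (z τ) else 0 := by
      intro b _
      by_cases hb : b = m + ind τ
      · subst hb
        rw [if_pos rfl, lift, if_pos le_add_self, comp, if_pos le_add_self,
          add_tsub_cancel_right, coeff_monomial, if_pos rfl]
      · rw [if_neg hb, lift]
        split_ifs with h1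
        · rw [coeff_monomial, if_neg]
          intro h2
          apply hb
          rw [← h2, tsub_add_cancel_of_le h1]
        · simp
    rw [sum_congr rfl e2, sum_ite_eq']
    split_ifs with h1
    · rfl
    · by_contra h2
      apply h1
      rw [hB, map_add, degree_ind]
      have h3 : τ.card = i := by
        by_contra h3
        rw [hzs τ h3] at h2
        simp at h2
      have h4 : m.degree = j := by
        by_contra h4
        exact h2 ((hzh τ).coeff_eq_zero h4).symm
      omega

end Pool.Agent.Lib.MP_0db35b_al
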