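import Pool.Agent.Lib.MP_0db35b_al.AFam

set_option autoImplicit false
set_option linter.unusedSectionVars false

/-!
# Nonvanishing homology
-/

namespace Pool.Agent.Lib.MP_0db35b_al

variable {σ : Type*} [Fintype σ] [LinearOrder σ] {K : Type*} [Field K]

theorem not_van_base : ¬ Van K (fam (Set.univ : Set (σ →₀ ℕ)) 0) 0 := by
  intro h
  let c : Finset σ → K := fun τ => if τ = ∅ then 1 else 0
  obtain ⟨w, hw, hwc⟩ := h c (by
    intro τ hτ
    simp only [c, ne_eq, ite_eq_right_iff, one_ne_zero, imp_false, not_not] at hτ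
    subst hτ
    refine ⟨?_, rfl⟩
    rw [mem_fam_iff]
    exact ⟨by simp [ind], trivial⟩) (by
    funext τ
    by_contra h0
    obtain ⟨j, _, hj⟩ := exists_of_sd_ne_zero h0
    simp [c] at hj)
  have h1 : sd w ∅ ≠ 0 := by
    rw [hwc]
    simp [c]
  obtain ⟨j, _, hj⟩ := exists_of_sd_ne_zero h1
  obtain ⟨h2, h3⟩ := hw _ hj
  have h4 := fam_univ_zero_card rfl h2
  omega

theorem ind_le_iff {τ : Finset σ} {b : σ →₀ ℕ} : ind τ ≤ b ↔ ∀ j ∈ τ, 1 ≤ b j := by
  constructor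
  · intro h j hj
    have := h j
    rwa [ind_apply, if_pos hj] at this
  · intro h j
    rw [ind_apply]
    split_ifs with hj
    · exact h j hj
    · exact Nat.zero_le _

theorem sub_ind_apply (b : σ →₀ ℕ) (τ : Finset σ) (j : σ) :
    (b - ind τ) j = if j ∈ τ then b j - 1 else b j := by
  rw [Finsupp.tsub_apply, ind_apply]
  split_ifs <;> simp

/-- One suspension step. -/
theorem Van.of_pair {U E : Set (σ →₀ ℕ)} (hU : IsUpperSet U) {x y : σ} (hxy : x ≠ y)
    {b b' : σ →₀ ℕ} (hx0 : b' x = 0) (hy0 : b' y = 0)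
    (h1 : ∀ τ : Finset σ, x ∉ τ → y ∉ τ → (insert x τ ∈ fam U b ↔ τ ∈ fam E b'))
    (h2 : ∀ τ : Finset σ, x ∈ τ → y ∈ τ → τ ∉ fam U b)
    (h3 : ∀ τ : Finset σ, x ∉ τ → τ ∈ fam U b → insert y τ ∈ fam U b) {t : ℕ}
    (h : Van K (fam U b) (t + 1)) : Van K (fam E b') t := by
  have h4 := Van.of_susp hxy (fam_down hU b) (fun τ hτ hx => h3 τ hx hτ) h
  have e : {τ | x ∉ τ ∧ insert x τ ∈ fam U b} = fam E b' := by
    ext τ
    constructor
    · rintro ⟨hx, h5⟩
      have hy : y ∉ τ := by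
        intro hy
        exact h2 (insert x τ) (Finset.mem_insert_self _ _) (Finset.mem_insert_of_mem hy) h5
      exact (h1 τ hx hy).1 h5
    · intro h5
      have h6 := ind_le_iff.1 (mem_fam_iff.1 h5).1
      have hx : x ∉ τ := fun hx => by have := h6 x hx; omega
      have hy : y ∉ τ := fun hy => by have := h6 y hy; omega
      exact ⟨hx, (h1 τ hx hy).2 h5⟩
  rwa [e] at h4

theorem two_apply_left {x y : σ} (hxy : x ≠ y) (a b : ℕ) : two x y a b x = a := by
  simp [two, Finsupp.single_eq_of_ne hxy]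

theorem two_apply_right {x y : σ} (hxy : x ≠ y) (a b : ℕ) : two x y a b y = b := by
  simp [two, Finsupp.single_eq_of_ne hxy.symm]

theorem two_apply_of_ne {x y j : σ} (hx : j ≠ x) (hy : j ≠ y) (a b : ℕ) : two x y a b j = 0 := by
  simp [two, Finsupp.single_eq_of_ne hx, Finsupp.single_eq_of_ne hy]

/-- The suspension step for staircases. -/
theorem Van.of_St {E : Set (σ →₀ ℕ)} (hE : IsUpperSet E) {x y : σ} (hxy : x ≠ y)
    (hEi : Indep {x, y} E) {M : ℕ} {F : Set ℕ} {e e' : ℕ} (he : e ∈ F) (he' : e' ∈ F)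
    (hlt : e' < e) (heM : e ≤ M) (hcons : ∀ f ∈ F, f ≤ e' ∨ e ≤ f) {b' : σ →₀ ℕ}
    (hx0 : b' x = 0) (hy0 : b' y = 0) {t : ℕ}
    (h : Van K (fam (St x y M F ∩ E) (two x y e (M - e') + b')) (t + 1)) :
    Van K (fam E b') t := by
  have hbx : (two x y e (M - e') + b') x = e := by
    rw [Finsupp.add_apply, two_apply_left hxy, hx0, add_zero]
  have hby : (two x y e (M - e') + b') y = M - e' := by
    rw [Finsupp.add_apply, two_apply_right hxy, hy0, add_zero]
  have hbj : ∀ j, j ≠ x → j ≠ y → (two x y e (M - e') + b') j = b' j := by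
    intro j hjx hjy
    rw [Finsupp.add_apply, two_apply_of_ne hjx hjy, zero_add]
  have hEiff : ∀ w w' : σ →₀ ℕ, (∀ j, j ≠ x → j ≠ y → w j = w' j) → (w ∈ E ↔ w' ∈ E) := by
    intro w w' hw
    have h1 : ∀ j, j ∉ ({x, y} : Set σ) → w j = w' j := by
      intro j hj
      simp only [Set.mem_insert_iff, Set.mem_singleton_iff, not_or] at hj
      exact hw j hj.1 hj.2
    exact ⟨hEi w w' h1, hEi w' w (fun j hj => (h1 j hj).symm)⟩
  refine Van.of_pair ((isUpperSet_St x y M F).inter hE) hxy hx0 hy0 ?_ ?_ ?_ h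
  · intro τ hxτ hyτ
    rw [mem_fam_iff, mem_fam_iff, ind_le_iff, ind_le_iff, Set.mem_inter_iff, mem_St]
    have hyτ' : y ∉ insert x τ := by simp [hyτ, hxy.symm]
    rw [sub_ind_apply, sub_ind_apply, if_pos (Finset.mem_insert_self _ _), if_neg hyτ', hbx, hby]
    rw [hEiff (two x y e (M - e') + b' - ind (insert x τ)) (b' - ind τ) (fun j hjx hjy => by
      rw [sub_ind_apply, sub_ind_apply, hbj j hjx hjy]
      simp [Finset.mem_insert, hjx])]
    constructor
    · rintro ⟨h1, _, h2⟩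
      refine ⟨fun j hj => ?_, h2⟩
      have hjx : j ≠ x := fun h => hxτ (h ▸ hj)
      have hjy : j ≠ y := fun h => hyτ (h ▸ hj)
      rw [← hbj j hjx hjy]
      exact h1 j (Finset.mem_insert_of_mem hj)
    · rintro ⟨h1, h2⟩
      refine ⟨fun j hj => ?_, ⟨e', he', by omega, le_rfl⟩, h2⟩
      rcases Finset.mem_insert.1 hj with rfl | hj
      · rw [hbx]; omega
      · have hjx : j ≠ x := fun h => hxτ (h ▸ hj)
        have hjy : j ≠ y := fun h => hyτ (h ▸ hj)
        rw [hbj j hjx hjy]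
        exact h1 j hj
  · intro τ hxτ hyτ
    rw [mem_fam_iff, Set.mem_inter_iff, mem_St, sub_ind_apply, sub_ind_apply, if_pos hxτ,
      if_pos hyτ, hbx, hby]
    rintro ⟨_, ⟨f, hf, h1, h2⟩, _⟩
    rcases hcons f hf with h3 | h3 <;> omega
  · intro τ hxτ
    rw [mem_fam_iff, mem_fam_iff, Set.mem_inter_iff, Set.mem_inter_iff, mem_St, mem_St,
      ind_le_iff, ind_le_iff]
    have hxτ' : x ∉ insert y τ := by simp [hxτ, hxy]
    rintro ⟨h1, _, h2⟩
    refine ⟨fun j hj => ?_, ⟨e, he, ?_, ?_⟩, ?_⟩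
    · rcases Finset.mem_insert.1 hj with rfl | hj
      · rw [hby]; omega
      · exact h1 j hj
    · rw [sub_ind_apply, if_neg hxτ', hbx]
    · rw [sub_ind_apply, if_pos (Finset.mem_insert_self _ _), hby]; omega
    · rw [hEiff _ (two x y e (M - e') + b' - ind τ) (fun j hjx hjy => by
        rw [sub_ind_apply, sub_ind_apply]
        simp [Finset.mem_insert, hjy])]
      exact h2

/-- The suspension step for the powers of the Hibi ideal. -/
theorem Van.of_W {E : Set (σ →₀ ℕ)} (hE : IsUpperSet E) {p : σ × σ} {l : List (σ × σ)}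
    (hl : Good (p :: l)) (hEi : Indep {p.1, p.2} E) {k s α : ℕ} (hα : α + 1 ≤ s) (hs : s ≤ k)
    {b' : σ →₀ ℕ} (hx0 : b' p.1 = 0) (hy0 : b' p.2 = 0) {t : ℕ}
    (h : Van K (fam (W (p :: l) k s ∩ E)
      (two p.1 p.2 (2 * (α + 1)) (3 * (k - α)) + b')) (t + 1)) :
    Van K (fam (W l k α ∩ E) b') t := by
  obtain ⟨hxy, hxl, hyl, hl'⟩ := hl
  have hbx : (two p.1 p.2 (2 * (α + 1)) (3 * (k - α)) + b') p.1 = 2 * (α + 1) := by
    rw [Finsupp.add_apply, two_apply_left hxy, hx0, add_zero]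
  have hby : (two p.1 p.2 (2 * (α + 1)) (3 * (k - α)) + b') p.2 = 3 * (k - α) := by
    rw [Finsupp.add_apply, two_apply_right hxy, hy0, add_zero]
  have hbj : ∀ j, j ≠ p.1 → j ≠ p.2 →
      (two p.1 p.2 (2 * (α + 1)) (3 * (k - α)) + b') j = b' j := by
    intro j hjx hjy
    rw [Finsupp.add_apply, two_apply_of_ne hjx hjy, zero_add]
  have hEiff : ∀ w w' : σ →₀ ℕ, (∀ j, j ≠ p.1 → j ≠ p.2 → w j = w' j) → (w ∈ E ↔ w' ∈ E) := by
    intro w w' hw
    have h1 : ∀ j, j ∉ ({p.1, p.2} : Set σ) → w j = w' j := by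
      intro j hj
      simp only [Set.mem_insert_iff, Set.mem_singleton_iff, not_or] at hj
      exact hw j hj.1 hj.2
    exact ⟨hEi w w' h1, hEi w' w (fun j hj => (h1 j hj).symm)⟩
  have hWiff : ∀ β, ∀ w w' : σ →₀ ℕ, (∀ j, j ≠ p.1 → j ≠ p.2 → w j = w' j) →
      (w ∈ W l k β ↔ w' ∈ W l k β) := by
    intro β w w' hw
    have h1 : ∀ j, j ∈ vars l → w j = w' j := by
      intro j hj
      exact hw j (fun h => hxl (h ▸ hj)) (fun h => hyl (h ▸ hj))
    exact ⟨dep_W l k β w w' h1, dep_W l k β w' w (fun j hj => (h1 j hj).symm)⟩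
  refine Van.of_pair ((isUpperSet_W (p :: l) k s).inter hE) hxy hx0 hy0 ?_ ?_ ?_ h
  · intro τ hxτ hyτ
    rw [mem_fam_iff, mem_fam_iff, ind_le_iff, ind_le_iff, Set.mem_inter_iff, mem_W_cons,
      Set.mem_inter_iff]
    have hyτ' : p.2 ∉ insert p.1 τ := by simp [hyτ, hxy.symm]
    rw [sub_ind_apply, sub_ind_apply, if_pos (Finset.mem_insert_self _ _), if_neg hyτ', hbx, hby]
    have hag : ∀ j, j ≠ p.1 → j ≠ p.2 →
        (two p.1 p.2 (2 * (α + 1)) (3 * (k - α)) + b' - ind (insert p.1 τ)) j =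
          (b' - ind τ) j := by
      intro j hjx hjy
      rw [sub_ind_apply, sub_ind_apply, hbj j hjx hjy]
      simp [Finset.mem_insert, hjx]
    rw [hEiff _ _ hag]
    constructor
    · rintro ⟨h1, ⟨β, h2, h3, h4, h5⟩, h6⟩
      have hβ : β = α := by omega
      subst hβ
      refine ⟨fun j hj => ?_, (hWiff _ _ _ hag).1 h5, h6⟩
      have hjx : j ≠ p.1 := fun h => hxτ (h ▸ hj)
      have hjy : j ≠ p.2 := fun h => hyτ (h ▸ hj)
      rw [← hbj j hjx hjy]
      exact h1 j (Finset.mem_insert_of_mem hj)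
    · rintro ⟨h1, h2, h3⟩
      refine ⟨fun j hj => ?_, ⟨α, by omega, by omega, by omega, (hWiff _ _ _ hag).2 h2⟩, h3⟩
      rcases Finset.mem_insert.1 hj with rfl | hj
      · rw [hbx]; omega
      · have hjx : j ≠ p.1 := fun h => hxτ (h ▸ hj)
        have hjy : j ≠ p.2 := fun h => hyτ (h ▸ hj)
        rw [hbj j hjx hjy]
        exact h1 j hj
  · intro τ hxτ hyτ
    rw [mem_fam_iff, Set.mem_inter_iff, mem_W_cons, sub_ind_apply, sub_ind_apply, if_pos hxτ,
      if_pos hyτ, hbx, hby]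
    rintro ⟨_, ⟨β, h1, h2, h3, _⟩, _⟩
    omega
  · intro τ hxτ
    rw [mem_fam_iff, mem_fam_iff, Set.mem_inter_iff, Set.mem_inter_iff, mem_W_cons, mem_W_cons,
      ind_le_iff, ind_le_iff]
    have hxτ' : p.1 ∉ insert p.2 τ := by simp [hxτ, hxy]
    have hag : ∀ j, j ≠ p.1 → j ≠ p.2 →
        (two p.1 p.2 (2 * (α + 1)) (3 * (k - α)) + b' - ind (insert p.2 τ)) j =
          (two p.1 p.2 (2 * (α + 1)) (3 * (k - α)) + b' - ind τ) j := by
      intro j hjx hjy
      rw [sub_ind_apply, sub_ind_apply]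
      simp [Finset.mem_insert, hjy]
    rintro ⟨h1, ⟨β, h3, h4, h5, h6⟩, h2⟩
    rw [sub_ind_apply, if_neg hxτ, hbx] at h4
    refine ⟨fun j hj => ?_, ⟨α + 1, hα, ?_, ?_, ?_⟩, ?_⟩
    · rcases Finset.mem_insert.1 hj with rfl | hj
      · rw [hby]; omega
      · exact h1 j hj
    · rw [sub_ind_apply, if_neg hxτ', hbx]
    · rw [sub_ind_apply, if_pos (Finset.mem_insert_self _ _), hby]; omega
    · rw [hWiff _ _ _ hag]
      exact W_mono l k (by omega) h6
    · rw [hEiff _ _ hag]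
      exact h2

theorem shift_two' {U : Set (σ →₀ ℕ)} {x y : σ} (hU : Indep {x, y} U) (hxy : x ≠ y) (a b : ℕ) :
    (two x y a b + ·) '' U = {w | a ≤ w x ∧ b ≤ w y ∧ w ∈ U} := by
  have h0 : ∀ j, j ∉ ({x, y} : Set σ) → two x y a b j = 0 := by
    intro j hj
    simp only [Set.mem_insert_iff, Set.mem_singleton_iff, not_or] at hj
    exact two_apply_of_ne hj.1 hj.2 a b
  ext w
  constructor
  · rintro ⟨v, hv, rfl⟩
    obtain ⟨h1, h2⟩ := (two_le hxy).1 (le_self_add : two x y a b ≤ two x y a b + v)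
    refine ⟨h1, h2, hU v _ (fun j hj => ?_) hv⟩
    simp [h0 j hj]
  · rintro ⟨h1, h2, h3⟩
    have hle : two x y a b ≤ w := (two_le hxy).2 ⟨h1, h2⟩
    refine ⟨w - two x y a b, hU w _ (fun j hj => ?_) h3, add_tsub_cancel_of_le hle⟩
    simp [h0 j hj]

/-- The multidegree `∑ 3 k yᵢ`. -/
noncomputable def bZ (k : ℕ) : List (σ × σ) → (σ →₀ ℕ)
  | [] => 0
  | p :: l => two p.1 p.2 0 (3 * k) + bZ k l

theorem degree_bZ (k : ℕ) (l : List (σ × σ)) : (bZ k l).degree = 3 * k * l.length := by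
  induction l with
  | nil => simp [bZ]
  | cons p l ih => rw [bZ, map_add, degree_two, ih, List.length_cons]; ring

theorem bZ_apply (k : ℕ) (l : List (σ × σ)) {j : σ} (hj : j ∉ vars l) : bZ k l j = 0 := by
  induction l with
  | nil => rfl
  | cons p l ih =>
    rw [vars_cons] at hj
    simp only [Set.mem_union, Set.mem_insert_iff, Set.mem_singleton_iff, not_or] at hj
    rw [bZ, Finsupp.add_apply, two_apply_of_ne hj.1.1 hj.1.2, ih hj.2]

theorem W_zero_fam {E : Set (σ →₀ ℕ)} (l : List (σ × σ)) (hl : Good l) (hEi : Indep (vars l) E)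
    (k : ℕ) (b' : σ →₀ ℕ) : fam (W l k 0 ∩ E) (bZ k l + b') = fam E b' := by
  induction l with
  | nil =>
    rw [W, Set.univ_inter, bZ, zero_add]
  | cons p l ih =>
    obtain ⟨hxy, hxl, hyl, hl'⟩ := hl
    rw [vars_cons] at hEi
    have ih := ih hl' (hEi.mono Set.subset_union_right)
    have hI : Indep {p.1, p.2} (W l k 0 ∩ E) := by
      refine Indep.inter ((dep_W l k 0).indep ?_) (hEi.mono Set.subset_union_left)
      rw [Set.disjoint_left]
      intro j hj hj'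
      simp only [Set.mem_insert_iff, Set.mem_singleton_iff] at hj'
      rcases hj' with rfl | rfl
      · exact hxl hj
      · exact hyl hj
    have e : W (p :: l) k 0 ∩ E = (two p.1 p.2 0 (3 * k) + ·) '' (W l k 0 ∩ E) := by
      rw [shift_two' hI hxy]
      ext w
      simp only [mem_W_cons, Set.mem_ofPred_eq, Set.mem_inter_iff]
      constructor
      · rintro ⟨⟨α, h1, h2, h3, h4⟩, h5⟩
        have : α = 0 := by omega
        subst this
        exact ⟨Nat.zero_le _, by simpa using h3, h4, h5⟩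
      · rintro ⟨_, h3, h4, h5⟩
        exact ⟨⟨0, le_rfl, by omega, by simpa using h3, h4⟩, h5⟩
    rw [e, bZ, add_assoc, fam_shift le_self_add, add_tsub_cancel_left]
    exact ih

/-- The multidegree of the sphere of dimension `l.length`. -/
noncomputable def bS (k : ℕ) : List (σ × σ) → (σ →₀ ℕ)
  | [] => 0
  | p :: l => two p.1 p.2 (2 * (l.length + 1)) (3 * (k - l.length)) + bS k l

theorem bS_apply (k : ℕ) (l : List (σ × σ)) {j : σ} (hj : j ∉ vars l) : bS k l j = 0 := by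
  induction l with
  | nil => rfl
  | cons p l ih =>
    rw [vars_cons] at hj
    simp only [Set.mem_union, Set.mem_insert_iff, Set.mem_singleton_iff, not_or] at hj
    rw [bS, Finsupp.add_apply, two_apply_of_ne hj.1.1 hj.1.2, ih hj.2]

/-- Nonvanishing homology for the Hibi ideal in cardinality `l.length`. -/
theorem not_van_W_sphere {E : Set (σ →₀ ℕ)} (hE : IsUpperSet E) (l : List (σ × σ)) (hl : Good l)
    (hEi : Indep (vars l) E) {k : ℕ} {b' : σ →₀ ℕ} (hb' : ∀ j ∈ vars l, b' j = 0) {t : ℕ}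
    (h : ¬ Van K (fam E b') t) : ∀ s, l.length ≤ s → s ≤ k →
      ¬ Van K (fam (W l k s ∩ E) (bS k l + b')) (t + l.length) := by
  induction l with
  | nil =>
    intro s _ _
    rw [W, Set.univ_inter, bS, zero_add]
    exact h
  | cons p l ih =>
    intro s hs hsk
    rw [vars_cons] at hEi hb'
    rw [List.length_cons] at hs
    have ih := ih hl.2.2.2 (hEi.mono Set.subset_union_right) (fun j hj => hb' j (Or.inr hj))
      l.length le_rfl (by omega)
    intro hV
    apply ih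
    rw [bS, add_assoc, List.length_cons] at hV
    refine Van.of_W hE hl (hEi.mono Set.subset_union_left) hs hsk ?_ ?_ hV
    · rw [Finsupp.add_apply, bS_apply k l hl.2.1, hb' _ (Or.inl (by simp))]
    · rw [Finsupp.add_apply, bS_apply k l hl.2.2.1, hb' _ (Or.inl (by simp))]

/-- Nonvanishing homology for the Hibi ideal in cardinality `1`. -/
theorem not_van_W_one {E : Set (σ →₀ ℕ)} (hE : IsUpperSet E) {p : σ × σ} {l : List (σ × σ)}
    (hl : Good (p :: l)) (hEi : Indep (vars (p :: l)) E) {k : ℕ} (hk : 1 ≤ k) {b' : σ →₀ ℕ}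
    (hb' : ∀ j ∈ vars (p :: l), b' j = 0) {t : ℕ} (h : ¬ Van K (fam E b') t) :
    ¬ Van K (fam (W (p :: l) k k ∩ E) (two p.1 p.2 2 (3 * k) + bZ k l + b')) (t + 1) := by
  intro hV
  apply h
  rw [vars_cons] at hEi hb'
  rw [← W_zero_fam l hl.2.2.2 (hEi.mono Set.subset_union_right) k b']
  refine Van.of_W (α := 0) hE hl (hEi.mono Set.subset_union_left) (by omega) le_rfl ?_ ?_ ?_
  · rw [Finsupp.add_apply, bZ_apply k l hl.2.1, hb' _ (Or.inl (by simp))]
  · rw [Finsupp.add_apply, bZ_apply k l hl.2.2.1, hb' _ (Or.inl (by simp))]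
  · rw [add_assoc] at hV
    exact hV

/-- The two suspension steps for the third ideal. -/
theorem Van.of_UA {E : Set (σ →₀ ℕ)} (hE : IsUpperSet E) {c h : ℕ} {x y z u : σ} (hxy : x ≠ y)
    (hxu : x ≠ u) (hyu : y ≠ u) (hEi : Indep {x, y, z, u} E) (hc : 1 ≤ c)
    (hh : 1 ≤ h) {k : ℕ} (hk : 1 ≤ k) {b' : σ →₀ ℕ} (hx0 : b' x = 0) (hy0 : b' y = 0)
    (hu0 : b' u = 0) {t : ℕ}
    (hV : Van K (fam (UA c h x y z u k ∩ E)
      (two x y (2 * (k * (2 * c + 2))) 4 + Finsupp.single u h + b')) (t + 2)) :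
    Van K (fam E b') t := by
  obtain ⟨N, hN⟩ : ∃ N, N = k * (2 * c + 2) := ⟨_, rfl⟩
  have hN2 : 2 * c + 2 ≤ N := by
    rw [hN]; exact Nat.le_mul_of_pos_left _ hk
  obtain ⟨b, hb⟩ : ∃ b, b = two x y (2 * (k * (2 * c + 2))) 4 + Finsupp.single u h + b' :=
    ⟨_, rfl⟩
  rw [← hb] at hV
  have hbx : b x = 2 * N := by
    rw [hb, Finsupp.add_apply, Finsupp.add_apply, two_apply_left hxy, hx0,
      Finsupp.single_eq_of_ne hxu, hN]
    rfl
  have hby : b y = 4 := by
    rw [hb, Finsupp.add_apply, Finsupp.add_apply, two_apply_right hxy, hy0,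
      Finsupp.single_eq_of_ne hyu, Nat.add_zero, Nat.add_zero]
  have hbu : b u = h := by
    rw [hb, Finsupp.add_apply, Finsupp.add_apply, two_apply_of_ne hxu.symm hyu.symm, hu0,
      Finsupp.single_eq_same, zero_add, add_zero]
  have hbj : ∀ j, j ≠ x → j ≠ y → j ≠ u → b j = b' j := by
    intro j h1 h2 h3
    rw [hb, Finsupp.add_apply, Finsupp.add_apply, two_apply_of_ne h1 h2,
      Finsupp.single_eq_of_ne h3, zero_add, zero_add]
  have hEiff : ∀ w w' : σ →₀ ℕ, (∀ j, j ≠ x → j ≠ y → j ≠ u → w j = w' j) →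
      (w ∈ E ↔ w' ∈ E) := by
    intro w w' hw
    have h1 : ∀ j, j ∉ ({x, y, z, u} : Set σ) → w j = w' j := by
      intro j hj
      simp only [Set.mem_insert_iff, Set.mem_singleton_iff, not_or] at hj
      exact hw j hj.1 hj.2.1 hj.2.2.2
    exact ⟨hEi w w' h1, hEi w' w (fun j hj => (h1 j hj).symm)⟩
  have hUA : ∀ τ : Finset σ, b - ind τ ∈ UA c h x y z u k ↔ ¬ (x ∈ τ ∧ y ∈ τ ∧ u ∈ τ) := by
    intro τ
    have h1 : 2 * (k * (2 * c + 2) - 1) ≤ (b - ind τ) x := by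
      rw [sub_ind_apply, hbx, ← hN]
      split_ifs <;> omega
    have h2 : 2 ≤ (b - ind τ) y := by
      rw [sub_ind_apply, hby]
      split_ifs <;> omega
    rw [UA, Set.mem_union, mem_AS_of_AT hc hk h1 h2, mem_AT, sub_ind_apply, sub_ind_apply,
      sub_ind_apply, hbx, hby, hbu, ← hN]
    by_cases hxτ : x ∈ τ <;> by_cases hyτ : y ∈ τ <;> by_cases huτ : u ∈ τ <;>
      simp only [hxτ, hyτ, huτ, if_true, if_false, and_true, and_false,
        not_true_eq_false, not_false_eq_true, iff_true, iff_false] <;> omega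
  have hmem : ∀ τ : Finset σ, τ ∈ fam (UA c h x y z u k ∩ E) b ↔
      (∀ j ∈ τ, 1 ≤ b j) ∧ ¬ (x ∈ τ ∧ y ∈ τ ∧ u ∈ τ) ∧ b - ind τ ∈ E := by
    intro τ
    rw [mem_fam_iff, ind_le_iff, Set.mem_inter_iff, hUA]
  have hdown := fam_down ((isUpperSet_UA (c := c) (h := h) (x := x) (y := y) (z := z) (u := u)
    k).inter hE) b
  have hins : ∀ (τ : Finset σ) (l : σ), (l = x ∨ l = y ∨ l = u) →
      (b - ind (insert l τ) ∈ E ↔ b - ind τ ∈ E) := by
    intro τ l hl
    refine hEiff _ _ fun j h1 h2 h3 => ?_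
    rw [sub_ind_apply, sub_ind_apply]
    have : j ≠ l := by rcases hl with rfl | rfl | rfl <;> assumption
    simp [Finset.mem_insert, this]
  -- first suspension
  have h1 := Van.of_susp (w := u) (x := x) hxu.symm hdown (by
    intro τ hτ huτ
    rw [hmem] at hτ ⊢
    refine ⟨fun j hj => ?_, ?_, ?_⟩
    · rcases Finset.mem_insert.1 hj with rfl | hj
      · rw [hbx]; omega
      · exact hτ.1 j hj
    · simp [Finset.mem_insert, huτ, hxu.symm]
    · rw [hins _ _ (Or.inl rfl)]; exact hτ.2.2) (i := t + 1) hV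
  have hmem2 : ∀ τ : Finset σ, τ ∈ {τ | u ∉ τ ∧ insert u τ ∈ fam (UA c h x y z u k ∩ E) b} ↔
      u ∉ τ ∧ (∀ j ∈ τ, 1 ≤ b j) ∧ ¬ (x ∈ τ ∧ y ∈ τ) ∧ b - ind τ ∈ E := by
    intro τ
    rw [Set.mem_ofPred_eq, hmem, hins _ _ (Or.inr (Or.inr rfl))]
    constructor
    · rintro ⟨h1, h2, h3, h4⟩
      refine ⟨h1, fun j hj => h2 j (Finset.mem_insert_of_mem hj), ?_, h4⟩
      rintro ⟨h5, h6⟩
      exact h3 ⟨Finset.mem_insert_of_mem h5, Finset.mem_insert_of_mem h6,
        Finset.mem_insert_self _ _⟩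
    · rintro ⟨h1, h2, h3, h4⟩
      refine ⟨h1, fun j hj => ?_, ?_, h4⟩
      · rcases Finset.mem_insert.1 hj with rfl | hj
        · rw [hbu]; exact hh
        · exact h2 j hj
      · rintro ⟨h5, h6, _⟩
        apply h3
        exact ⟨(Finset.mem_insert.1 h5).resolve_left hxu, (Finset.mem_insert.1 h6).resolve_left hyu⟩
  have h2 := Van.of_susp (w := x) (x := y) hxy (𝒦 := {τ | u ∉ τ ∧
      insert u τ ∈ fam (UA c h x y z u k ∩ E) b}) (by
    rintro τ ⟨h3, h4⟩ ρ hρ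
    exact ⟨fun h5 => h3 (hρ h5), hdown _ h4 _ (Finset.insert_subset_insert _ hρ)⟩) (by
    intro τ hτ hxτ
    rw [hmem2] at hτ ⊢
    refine ⟨?_, fun j hj => ?_, ?_, ?_⟩
    · simp [Finset.mem_insert, hyu.symm, hτ.1]
    · rcases Finset.mem_insert.1 hj with rfl | hj
      · rw [hby]; omega
      · exact hτ.2.1 j hj
    · simp [Finset.mem_insert, hxτ, hxy]
    · rw [hins _ _ (Or.inr (Or.inl rfl))]; exact hτ.2.2.2) h1
  have e : {τ | x ∉ τ ∧ insert x τ ∈ {τ | u ∉ τ ∧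
      insert u τ ∈ fam (UA c h x y z u k ∩ E) b}} = fam E b' := by
    ext τ
    rw [Set.mem_ofPred_eq, hmem2, mem_fam_iff, ind_le_iff, hins _ _ (Or.inl rfl)]
    have hag : (x ∉ τ ∧ y ∉ τ ∧ u ∉ τ) → (b - ind τ ∈ E ↔ b' - ind τ ∈ E) := by
      rintro ⟨h3, h4, h5⟩
      refine hEiff _ _ fun j h6 h7 h8 => ?_
      rw [sub_ind_apply, sub_ind_apply, hbj j h6 h7 h8]
    constructor
    · rintro ⟨h3, h4, h5, h6, h7⟩
      have hyτ : y ∉ τ := fun hy => h6 ⟨Finset.mem_insert_self _ _, Finset.mem_insert_of_mem hy⟩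
      have huτ : u ∉ τ := fun hu => h4 (Finset.mem_insert_of_mem hu)
      refine ⟨fun j hj => ?_, (hag ⟨h3, hyτ, huτ⟩).1 h7⟩
      rw [← hbj j (fun h => h3 (h ▸ hj)) (fun h => hyτ (h ▸ hj)) (fun h => huτ (h ▸ hj))]
      exact h5 j (Finset.mem_insert_of_mem hj)
    · rintro ⟨h3, h4⟩
      have hxτ : x ∉ τ := fun h => by have := h3 x h; omega
      have hyτ : y ∉ τ := fun h => by have := h3 y h; omega
      have huτ : u ∉ τ := fun h => by have := h3 u h; omega
      refine ⟨hxτ, ?_, fun j hj => ?_, ?_, (hag ⟨hxτ, hyτ, huτ⟩).2 h4⟩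
      · simp [Finset.mem_insert, hxu.symm, huτ]
      · rcases Finset.mem_insert.1 hj with rfl | hj
        · rw [hbx]; omega
        · rw [hbj j (fun h => hxτ (h ▸ hj)) (fun h => hyτ (h ▸ hj)) (fun h => huτ (h ▸ hj))]
          exact h3 j hj
      · simp [Finset.mem_insert, hxy.symm, hyτ]
  rwa [e] at h2

end Pool.Agent.Lib.MP_0db35b_al
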