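import Pool.Agent.Lib.MP_0db35b_al.AssMono

set_option autoImplicit false
set_option linter.unusedSectionVars false

/-!
# Constructions relative to sets depending on other variables
-/

namespace Pool.Agent.Lib.MP_0db35b_al

variable {σ : Type*} [Fintype σ] [LinearOrder σ]

/-- `E` does not depend on the coordinates in `V`. -/
def Indep (V : Set σ) (E : Set (σ →₀ ℕ)) : Prop :=
  ∀ w w' : σ →₀ ℕ, (∀ j, j ∉ V → w j = w' j) → w ∈ E → w' ∈ E

/-- `U` depends on the coordinates in `V` only. -/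
def DepOn (V : Set σ) (U : Set (σ →₀ ℕ)) : Prop :=
  ∀ w w' : σ →₀ ℕ, (∀ j, j ∈ V → w j = w' j) → w ∈ U → w' ∈ U

theorem DepOn.indep {V V' : Set σ} {U : Set (σ →₀ ℕ)} (h : DepOn V U) (hd : Disjoint V V') :
    Indep V' U := fun w w' hw => h w w' fun j hj => hw j (Set.disjoint_left.1 hd hj)

theorem Indep.inter {V : Set σ} {E E' : Set (σ →₀ ℕ)} (h : Indep V E) (h' : Indep V E') :
    Indep V (E ∩ E') := fun w w' hw hE => ⟨h w w' hw hE.1, h' w w' hw hE.2⟩

theorem indep_univ (V : Set σ) : Indep V (Set.univ : Set (σ →₀ ℕ)) := fun _ _ _ _ => trivial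

theorem Indep.mono {V V' : Set σ} {E : Set (σ →₀ ℕ)} (h : Indep V E) (hV : V' ⊆ V) :
    Indep V' E := fun w w' hw => h w w' fun j hj => hw j fun hj' => hj (hV hj')

theorem DepOn.mono {V V' : Set σ} {E : Set (σ →₀ ℕ)} (h : DepOn V E) (hV : V ⊆ V') :
    DepOn V' E := fun w w' hw => h w w' fun j hj => hw j (hV hj)

/-- `U` has a construction of size `(t, ρ)` relative to every set not depending on the coordinates
in `V`. -/
def Nice (V : Set σ) (U : Set (σ →₀ ℕ)) (t ρ : ℕ) : Prop :=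
  ∀ (E : Set (σ →₀ ℕ)) (t' ρ' : ℕ), Indep V E → Constr E t' ρ' → Constr (U ∩ E) (t + t') (ρ + ρ')

namespace Nice

variable {V : Set σ}

theorem univ : Nice V Set.univ 0 0 := by
  intro E t' ρ' _ h
  simpa using h

theorem empty : Nice V ∅ 0 0 := by
  intro E t' ρ' _ h
  rw [Set.empty_inter]
  exact Constr.mono (Nat.zero_le _) (Nat.zero_le _) Constr.empty

theorem mono {U : Set (σ →₀ ℕ)} {t t₁ ρ ρ₁ : ℕ} (h : Nice V U t ρ) (ht : t ≤ t₁) (hρ : ρ ≤ ρ₁) :
    Nice V U t₁ ρ₁ := fun E t' ρ' hE hC =>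
  Constr.mono (by omega) (by omega) (h E t' ρ' hE hC)

theorem shift {U : Set (σ →₀ ℕ)} {t ρ : ℕ} {u : σ →₀ ℕ} (hu : ∀ j, j ∉ V → u j = 0)
    (h : Nice V U t ρ) : Nice V ((u + ·) '' U) t (ρ + u.degree) := by
  intro E t' ρ' hE hC
  have e : ((u + ·) '' U) ∩ E = (u + ·) '' (U ∩ E) := by
    ext w
    constructor
    · rintro ⟨⟨v, hv, rfl⟩, hw⟩
      exact ⟨v, ⟨hv, hE _ _ (fun j hj => by simp [hu j hj]) hw⟩, rfl⟩
    · rintro ⟨v, ⟨hv, hvE⟩, rfl⟩
      exact ⟨⟨v, hv, rfl⟩, hE _ _ (fun j hj => by simp [hu j hj]) hvE⟩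
  rw [e]
  exact Constr.mono le_rfl (by omega) (Constr.shift u (h E t' ρ' hE hC))

theorem union {U U' : Set (σ →₀ ℕ)} {t ρ : ℕ} (h1 : Nice V U (t + 1) ρ)
    (h2 : Nice V U' (t + 1) ρ) (h3 : Nice V (U ∩ U') t (ρ + 1)) : Nice V (U ∪ U') (t + 1) ρ := by
  intro E t' ρ' hE hC
  have e1 : (U ∪ U') ∩ E = (U ∩ E) ∪ (U' ∩ E) := Set.union_inter_distrib_right _ _ _
  have e2 : (U ∩ E) ∩ (U' ∩ E) = (U ∩ U') ∩ E := (Set.inter_inter_distrib_right _ _ _).symm
  have h1' := h1 E t' ρ' hE hC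
  have h2' := h2 E t' ρ' hE hC
  have h3' := h3 E t' ρ' hE hC
  rw [← e2] at h3'
  rw [e1]
  have e3 : t + 1 + t' = t + t' + 1 := by omega
  rw [e3] at h1' h2' ⊢
  exact Constr.union h1' h2' (by
    have e4 : ρ + 1 + ρ' = ρ + ρ' + 1 := by omega
    rwa [e4] at h3')

end Nice

/-- The principal upper set. -/
def up (u : σ →₀ ℕ) : Set (σ →₀ ℕ) := {w | u ≤ w}

theorem mem_up {u w : σ →₀ ℕ} : w ∈ up u ↔ u ≤ w := Iff.rfl

theorem up_eq_shift (u : σ →₀ ℕ) : up u = (u + ·) '' Set.univ := by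
  ext w
  constructor
  · intro h
    exact ⟨w - u, trivial, add_tsub_cancel_of_le h⟩
  · rintro ⟨v, _, rfl⟩
    exact (le_self_add : u ≤ u + v)

theorem nice_up {V : Set σ} {u : σ →₀ ℕ} (hu : ∀ j, j ∉ V → u j = 0) {ρ : ℕ}
    (h : u.degree ≤ ρ) : Nice V (up u) 0 ρ := by
  rw [up_eq_shift]
  exact (Nice.univ.shift hu).mono le_rfl (by omega)

/-- The exponent vector `a x + b y`. -/
noncomputable def two (x y : σ) (a b : ℕ) : σ →₀ ℕ := Finsupp.single x a + Finsupp.single y b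

theorem two_le {x y : σ} (hxy : x ≠ y) {a b : ℕ} {w : σ →₀ ℕ} :
    two x y a b ≤ w ↔ a ≤ w x ∧ b ≤ w y := by
  constructor
  · intro h
    have h1 := h x
    have h2 := h y
    simp only [two, Finsupp.add_apply, Finsupp.single_eq_same, Finsupp.single_eq_of_ne hxy,
      Finsupp.single_eq_of_ne hxy.symm, add_zero, zero_add] at h1 h2
    exact ⟨h1, h2⟩
  · rintro ⟨h1, h2⟩ j
    rw [two, Finsupp.add_apply]
    by_cases hx : j = x
    · subst hx
      rw [Finsupp.single_eq_same, Finsupp.single_eq_of_ne hxy, add_zero]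
      exact h1
    · rw [Finsupp.single_eq_of_ne hx, zero_add]
      by_cases hy : j = y
      · subst hy
        rw [Finsupp.single_eq_same]
        exact h2
      · rw [Finsupp.single_eq_of_ne hy]
        exact Nat.zero_le _

theorem degree_two (x y : σ) (a b : ℕ) : (two x y a b).degree = a + b := by
  rw [two, map_add, Finsupp.degree_single, Finsupp.degree_single]

theorem two_eq_zero {x y j : σ} {V : Set σ} (hx : x ∈ V) (hy : y ∈ V) (hj : j ∉ V) (a b : ℕ) :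
    two x y a b j = 0 := by
  have h1 : j ≠ x := fun h => hj (h ▸ hx)
  have h2 : j ≠ y := fun h => hj (h ▸ hy)
  rw [two, Finsupp.add_apply, Finsupp.single_eq_of_ne h1, Finsupp.single_eq_of_ne h2,
    Nat.add_zero]

end Pool.Agent.Lib.MP_0db35b_al
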