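import Pool.Agent.Lib.MP_0db35b_al.NV

set_option autoImplicit false
set_option linter.unusedSectionVars false

/-!
# Powers of products of monomial ideals in disjoint sets of variables
-/

universe u

namespace Pool.Agent.Lib.MP_0db35b_al

open MvPolynomial

variable {σ : Type} [Fintype σ] [LinearOrder σ] {K : Type u} [Field K]

theorem mid_mul (U U' : Set (σ →₀ ℕ)) :
    mid K U * mid K U' = mid K {w | ∃ v ∈ U, ∃ v' ∈ U', v + v' = w} := by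
  rw [mid, mid, mid, Ideal.span_mul_span']
  congr 1
  ext f
  simp only [Set.mem_mul, Set.mem_image, Set.mem_ofPred_eq]
  constructor
  · rintro ⟨_, ⟨v, hv, rfl⟩, _, ⟨v', hv', rfl⟩, rfl⟩
    exact ⟨v + v', ⟨v, hv, v', hv', rfl⟩, by rw [monomial_mul, one_mul]⟩
  · rintro ⟨_, ⟨v, hv, v', hv', rfl⟩, rfl⟩
    exact ⟨_, ⟨v, hv, rfl⟩, _, ⟨v', hv', rfl⟩, by rw [monomial_mul, one_mul]⟩

/-- The sets `T k` are the multiples of `T 1`. -/
def AddSeq (T : ℕ → Set (σ →₀ ℕ)) : Prop :=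
  ∀ k, 1 ≤ k → ∀ w, w ∈ T (k + 1) ↔ ∃ v ∈ T k, ∃ v' ∈ T 1, v + v' = w

theorem mid_pow {T : ℕ → Set (σ →₀ ℕ)} (hT : AddSeq T) {k : ℕ} (hk : 1 ≤ k) :
    (mid K (T 1)) ^ k = mid K (T k) := by
  induction k, hk using Nat.le_induction with
  | base => rw [pow_one]
  | succ k hk ih =>
    rw [pow_succ, ih, mid_mul]
    congr 1
    ext w
    exact (hT k hk w).symm

open Classical in
/-- The vector equal to `v₁` on `V` and to `v₂` off `V`. -/
noncomputable def mix (V : Set σ) (v₁ v₂ : σ →₀ ℕ) : σ →₀ ℕ :=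
  Finsupp.equivFunOnFinite.symm (fun j => if j ∈ V then v₁ j else v₂ j)

theorem mix_apply_mem {V : Set σ} {v₁ v₂ : σ →₀ ℕ} {j : σ} (hj : j ∈ V) :
    mix V v₁ v₂ j = v₁ j := by
  simp [mix, hj]

theorem mix_apply_notMem {V : Set σ} {v₁ v₂ : σ →₀ ℕ} {j : σ} (hj : j ∉ V) :
    mix V v₁ v₂ j = v₂ j := by
  simp [mix, hj]

theorem DepOn.mix_mem {V : Set σ} {U : Set (σ →₀ ℕ)} (hU : DepOn V U) {v₁ v₂ : σ →₀ ℕ}
    (h : v₁ ∈ U) : mix V v₁ v₂ ∈ U :=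
  hU v₁ _ (fun _ hj => (mix_apply_mem hj).symm) h

theorem Indep.mix_mem {V : Set σ} {E : Set (σ →₀ ℕ)} (hE : Indep V E) {v₁ v₂ : σ →₀ ℕ}
    (h : v₂ ∈ E) : mix V v₁ v₂ ∈ E :=
  hE v₂ _ (fun _ hj => (mix_apply_notMem hj).symm) h

theorem AddSeq.inter {V : Set σ} {U E : ℕ → Set (σ →₀ ℕ)} (hU : AddSeq U) (hE : AddSeq E)
    (hUd : ∀ k, DepOn V (U k)) (hEi : ∀ k, Indep V (E k)) : AddSeq (fun k => U k ∩ E k) := by
  intro k hk w
  constructor
  · rintro ⟨h1, h2⟩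
    obtain ⟨v, hv, v', hv', hw⟩ := (hU k hk w).1 h1
    obtain ⟨e, he, e', he', hw'⟩ := (hE k hk w).1 h2
    refine ⟨mix V v e, ⟨(hUd k).mix_mem hv, (hEi k).mix_mem he⟩, mix V v' e',
      ⟨(hUd 1).mix_mem hv', (hEi 1).mix_mem he'⟩, ?_⟩
    ext j
    rw [Finsupp.add_apply]
    by_cases hj : j ∈ V
    · rw [mix_apply_mem hj, mix_apply_mem hj, ← hw, Finsupp.add_apply]
    · rw [mix_apply_notMem hj, mix_apply_notMem hj, ← hw', Finsupp.add_apply]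
  · rintro ⟨v, ⟨h1, h2⟩, v', ⟨h3, h4⟩, rfl⟩
    exact ⟨(hU k hk _).2 ⟨v, h1, v', h3, rfl⟩, (hE k hk _).2 ⟨v, h2, v', h4, rfl⟩⟩

/-- The doubled set. -/
def dbl (F : Set ℕ) : Set ℕ := {e | ∃ f ∈ F, e = 2 * f}

theorem addSeq_St {x y : σ} (hxy : x ≠ y) {M : ℕ} {F : ℕ → Set ℕ} (hF : ∀ k, ∀ e ∈ F k, e ≤ k * M)
    (hadd : ∀ k e, e ∈ F (k + 1) ↔ ∃ a ∈ F k, ∃ b ∈ F 1, e = a + b) :
    AddSeq (fun k => St x y (k * M) (F k)) := by
  intro k _ w
  have h1 := St_add hxy (M := k * M) (M' := 1 * M) (F := F k) (F' := F 1) (hF k) (hF 1) (w := w)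
  rw [← h1]
  have e1 : (k + 1) * M = k * M + 1 * M := by ring
  have e2 : F (k + 1) = {e | ∃ a ∈ F k, ∃ b ∈ F 1, e = a + b} := by
    ext e; exact hadd k e
  simp only [e1, e2]

/-- The first factor. -/
def UR (r : ℕ) (x y : σ) (k : ℕ) : Set (σ →₀ ℕ) :=
  St x y (k * (4 * r + 4)) (dbl (ksum (BR r) k))

/-- The second factor. -/
def UV (v : ℕ) (x y : σ) (k : ℕ) : Set (σ →₀ ℕ) := St x y (k * (2 * v + 1)) (ksum (BV v) k)

theorem BR_le {r b : ℕ} (hb : b ∈ BR r) : b ≤ 2 * r + 2 := by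
  rw [mem_BR] at hb; omega

theorem BV_le {v b : ℕ} (hv : 1 ≤ v) (hb : b ∈ BV v) : b ≤ 2 * v + 1 := by
  rcases hb with rfl | rfl | rfl <;> omega

theorem dbl_BR_le {r k : ℕ} : ∀ e ∈ dbl (ksum (BR r) k), e ≤ k * (4 * r + 4) := by
  rintro _ ⟨f, hf, rfl⟩
  have := ksum_bound (fun b hb => BR_le hb) hf
  have e : k * (4 * r + 4) = 2 * (k * (2 * r + 2)) := by ring
  omega

theorem addSeq_UR {x y : σ} (hxy : x ≠ y) (r : ℕ) : AddSeq (UR r x y) := by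
  refine addSeq_St hxy (F := fun k => dbl (ksum (BR r) k)) (fun k => dbl_BR_le) ?_
  intro k e
  constructor
  · rintro ⟨f, ⟨a, ha, b, hb, rfl⟩, rfl⟩
    exact ⟨2 * a, ⟨a, ha, rfl⟩, 2 * b, ⟨b, ksum_one.2 hb, rfl⟩, by ring⟩
  · rintro ⟨_, ⟨a, ha, rfl⟩, _, ⟨b, hb, rfl⟩, rfl⟩
    exact ⟨a + b, ksum_add ha hb, by ring⟩

theorem addSeq_UV {x y : σ} (hxy : x ≠ y) {v : ℕ} (hv : 1 ≤ v) : AddSeq (UV v x y) := by
  refine addSeq_St hxy (F := fun k => ksum (BV v) k)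
    (fun k e he => ksum_bound (fun b hb => BV_le hv hb) he) ?_
  intro k e
  constructor
  · rintro ⟨a, ha, b, hb, rfl⟩
    exact ⟨a, ha, b, ksum_one.2 hb, rfl⟩
  · rintro ⟨a, ha, b, hb, rfl⟩
    exact ksum_add ha hb

theorem addSeq_UA {c h : ℕ} {x y z t : σ} (hxy : x ≠ y) (hxz : x ≠ z) (hyz : y ≠ z) (hxt : x ≠ t)
    (hc : 1 ≤ c) : AddSeq (UA c h x y z t) :=
  fun _ hk _ => UA_succ hxy hxz hyz hxt hc hk

theorem addSeq_W {l : List (σ × σ)} (hl : Good l) : AddSeq (fun k => W l k k) :=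
  fun k _ w => W_succ l hl k w

/-- All the data of the construction: the parameters and the variables. -/
structure Data (σ : Type) where
  /-- the prescribed astab -/
  a : ℕ
  /-- the prescribed rstab -/
  r : ℕ
  /-- the prescribed vstab -/
  v : ℕ
  /-- variables of the first factor -/
  xR : σ
  /-- variables of the first factor -/
  yR : σ
  /-- variables of the second factor -/
  xV : σ
  /-- variables of the second factor -/
  yV : σ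
  /-- variables of the third factor -/
  x : σ
  /-- variables of the third factor -/
  y : σ
  /-- variables of the third factor -/
  z : σ
  /-- variables of the third factor -/
  t : σ
  /-- variables of the fourth factor -/
  l : List (σ × σ)

namespace Data

/-- The exponent of `t` in the third ideal. -/
def h (D : Data σ) : ℕ := 2 * (D.a * (2 * D.a + 2)) + D.a

/-- The fourth factor. -/
def T4 (D : Data σ) (k : ℕ) : Set (σ →₀ ℕ) := W D.l k k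

/-- The product of the last two factors. -/
def T3 (D : Data σ) (k : ℕ) : Set (σ →₀ ℕ) := UA D.a D.h D.x D.y D.z D.t k ∩ D.T4 k

/-- The product of the last three factors. -/
def T2 (D : Data σ) (k : ℕ) : Set (σ →₀ ℕ) := UV D.v D.xV D.yV k ∩ D.T3 k

/-- The exponents of the `k`-th power of the product. -/
def T (D : Data σ) (k : ℕ) : Set (σ →₀ ℕ) := UR D.r D.xR D.yR k ∩ D.T2 k

/-- All conditions on the data. -/
structure OK (D : Data σ) : Prop where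
  a : 1 ≤ D.a
  r : 1 ≤ D.r
  v : 1 ≤ D.v
  hR : D.xR ≠ D.yR
  hV : D.xV ≠ D.yV
  hxy : D.x ≠ D.y
  hxz : D.x ≠ D.z
  hyz : D.y ≠ D.z
  hxt : D.x ≠ D.t
  hyt : D.y ≠ D.t
  hzt : D.z ≠ D.t
  l : Good D.l
  dRV : Disjoint ({D.xR, D.yR} : Set σ) {D.xV, D.yV}
  dRA : Disjoint ({D.xR, D.yR} : Set σ) {D.x, D.y, D.z, D.t}
  dRl : Disjoint ({D.xR, D.yR} : Set σ) (vars D.l)
  dVA : Disjoint ({D.xV, D.yV} : Set σ) {D.x, D.y, D.z, D.t}
  dVl : Disjoint ({D.xV, D.yV} : Set σ) (vars D.l)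
  dAl : Disjoint ({D.x, D.y, D.z, D.t} : Set σ) (vars D.l)

variable {D : Data σ}

theorem depT4 (k : ℕ) : DepOn (vars D.l) (D.T4 k) := dep_W _ _ _

theorem depT3 (k : ℕ) : DepOn ({D.x, D.y, D.z, D.t} ∪ vars D.l) (D.T3 k) := by
  intro w w' hw h
  exact ⟨dep_UA k w w' (fun j hj => hw j (Or.inl hj)) h.1,
    depT4 k w w' (fun j hj => hw j (Or.inr hj)) h.2⟩

theorem depT2 (k : ℕ) :
    DepOn ({D.xV, D.yV} ∪ ({D.x, D.y, D.z, D.t} ∪ vars D.l)) (D.T2 k) := by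
  intro w w' hw h
  exact ⟨dep_St _ _ _ _ w w' (fun j hj => hw j (Or.inl hj)) h.1,
    depT3 k w w' (fun j hj => hw j (Or.inr hj)) h.2⟩

theorem indT4 (hD : D.OK) (k : ℕ) : Indep {D.x, D.y, D.z, D.t} (D.T4 k) :=
  (depT4 k).indep hD.dAl.symm

theorem indT3 (hD : D.OK) (k : ℕ) : Indep {D.xV, D.yV} (D.T3 k) :=
  (depT3 k).indep (Set.disjoint_union_left.2 ⟨hD.dVA.symm, hD.dVl.symm⟩)

theorem indT2 (hD : D.OK) (k : ℕ) : Indep {D.xR, D.yR} (D.T2 k) :=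
  (depT2 k).indep (Set.disjoint_union_left.2 ⟨hD.dRV.symm,
    Set.disjoint_union_left.2 ⟨hD.dRA.symm, hD.dRl.symm⟩⟩)

theorem addSeq (hD : D.OK) : AddSeq D.T := by
  refine AddSeq.inter (V := {D.xR, D.yR}) (addSeq_UR hD.hR _) ?_ (fun k => dep_St _ _ _ _)
    (indT2 hD)
  refine AddSeq.inter (V := {D.xV, D.yV}) (addSeq_UV hD.hV hD.v) ?_ (fun k => dep_St _ _ _ _)
    (indT3 hD)
  refine AddSeq.inter (V := {D.x, D.y, D.z, D.t}) (addSeq_UA hD.hxy hD.hxz hD.hyz hD.hxt hD.a)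
    (addSeq_W hD.l) (fun k => dep_UA k) (indT4 hD)

theorem isUpperT4 (k : ℕ) : IsUpperSet (D.T4 k) := isUpperSet_W _ _ _
theorem isUpperT3 (k : ℕ) : IsUpperSet (D.T3 k) := (isUpperSet_UA k).inter (isUpperT4 k)
theorem isUpperT2 (k : ℕ) : IsUpperSet (D.T2 k) := (isUpperSet_St _ _ _ _).inter (isUpperT3 k)
theorem isUpperT (k : ℕ) : IsUpperSet (D.T k) := (isUpperSet_St _ _ _ _).inter (isUpperT2 k)

/-- The ideal. -/
noncomputable def I (K : Type u) [Field K] (D : Data σ) : Ideal (MvPolynomial σ K) := mid K (D.T 1)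

theorem I_pow (hD : D.OK) {k : ℕ} (hk : 1 ≤ k) : (D.I K) ^ k = mid K (D.T k) :=
  mid_pow (addSeq hD) hk

end Data

end Pool.Agent.Lib.MP_0db35b_al
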