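import Pool.Agent.Lib.MP_0db35b_al.Koszul

set_option autoImplicit false
set_option linter.unusedSectionVars false

/-!
# Regular sequences and the vanishing of Koszul homology
-/

namespace Pool.Agent.Lib.MP_0db35b_al

open Finset RingTheory.Sequence

universe u v

variable {σ : Type*} [Fintype σ] [LinearOrder σ]
variable {R : Type u} [CommRing R]

/-- `z` is supported in the finsets of cardinality `i`. -/
def SuppCard {M : Type*} [Zero M] (i : ℕ) (z : Finset σ → M) : Prop := ∀ τ, τ.card ≠ i → z τ = 0

theorem SuppCard.wedge {M : Type*} [AddCommGroup M] [Module R M] {i : ℕ} {z : Finset σ → M}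
    (hz : SuppCard i z) (j : σ) : SuppCard (i + 1) (wedge j z) := by
  intro τ hτ
  rw [MP_0db35b_al.wedge]
  split_ifs with hj
  · rw [hz, smul_zero]
    rw [card_erase_of_mem hj]
    have := card_pos.2 ⟨j, hj⟩
    omega
  · rfl

theorem SuppCard.koszulD {M : Type*} [AddCommGroup M] [Module R M] {i : ℕ} {z : Finset σ → M}
    (hz : SuppCard (i + 1) z) (x : σ → R) : SuppCard i (koszulD x z) := by
  intro τ hτ
  rw [MP_0db35b_al.koszulD]
  refine sum_eq_zero fun j hj => ?_
  rw [hz, smul_zero, smul_zero]
  rw [card_insert_of_notMem (by simpa using hj)]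
  omega

theorem exists_koszulD_eq_smul (x : σ → R) {M : Type*} [AddCommGroup M] [Module R M] {i : ℕ}
    {z : Finset σ → M} (hz : SuppCard i z) (hc : koszulD x z = 0) {a : R}
    (ha : a ∈ Ideal.span (Set.range x)) :
    ∃ w : Finset σ → M, SuppCard (i + 1) w ∧ koszulD x w = a • z := by
  induction ha using Submodule.span_induction with
  | mem a ha =>
    obtain ⟨j, rfl⟩ := ha
    refine ⟨wedge j z, hz.wedge (R := R) j, ?_⟩
    have := koszulD_wedge x j z
    have hw : wedge j (0 : Finset σ → M) = 0 := by
      funext τ; simp [wedge]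
    rwa [hc, hw, add_zero] at this
  | zero => exact ⟨0, fun _ _ => rfl, by simp⟩
  | add a b _ _ iha ihb =>
    obtain ⟨w, hw, hw'⟩ := iha
    obtain ⟨v, hv, hv'⟩ := ihb
    refine ⟨w + v, fun τ hτ => by simp [hw τ hτ, hv τ hτ], ?_⟩
    rw [koszulD_add, hw', hv', add_smul]
  | smul c a _ iha =>
    obtain ⟨w, hw, hw'⟩ := iha
    refine ⟨c • w, fun τ hτ => by simp [hw τ hτ], ?_⟩
    rw [koszulD_smul, hw', smul_assoc]

/-- If there is a weakly regular sequence of length `s` on `M` in the ideal generated by the
family `x` then the Koszul homology in degrees `i > n - s` vanishes. -/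
theorem regular_vanish (x : σ → R) (rs : List R) :
    ∀ (M : Type v) [AddCommGroup M] [Module R M],
      (∀ a ∈ rs, a ∈ Ideal.span (Set.range x)) → IsWeaklyRegular M rs →
      ∀ i, Fintype.card σ < i + rs.length → ∀ z : Finset σ → M, SuppCard i z →
        koszulD x z = 0 → ∃ w : Finset σ → M, SuppCard (i + 1) w ∧ koszulD x w = z := by
  induction rs with
  | nil =>
    intro M _ _ _ _ i hi z hz _
    refine ⟨0, fun _ _ => rfl, ?_⟩
    rw [koszulD_zero]
    funext τ
    rw [hz τ]
    · rfl
    · intro h
      have := Finset.card_le_univ τ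
      simp only [List.length_nil] at hi
      omega
  | cons a rs ih =>
    intro M _ _ hmem hreg i hi z hz hc
    rw [isWeaklyRegular_cons_iff] at hreg
    obtain ⟨hreg1, hreg2⟩ := hreg
    obtain ⟨w, hw, hwz⟩ := exists_koszulD_eq_smul x hz hc (hmem a (by simp))
    let π : M →ₗ[R] QuotSMulTop a M := Submodule.mkQ _
    have hπ : Function.Surjective π := Submodule.mkQ_surjective _
    have hcomm : ∀ y : Finset σ → M, koszulD x (fun τ => π (y τ)) = fun τ => π (koszulD x y τ) := by
      intro y
      funext τ
      simp only [koszulD, map_sum]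
      refine sum_congr rfl fun j _ => ?_
      rw [map_zsmul, map_smul]
    obtain ⟨v', hv', hv'w⟩ := ih (QuotSMulTop a M) (fun b hb => hmem b (by simp [hb])) hreg2
      (i + 1) (by simp only [List.length_cons] at hi; omega) (fun τ => π (w τ))
      (fun τ hτ => by simp only [hw τ hτ, map_zero]) (by
        rw [hcomm, hwz]
        funext τ
        simp only [Pi.smul_apply, Pi.zero_apply]
        change (Submodule.mkQ _) (a • z τ) = 0
        rw [Submodule.mkQ_apply, Submodule.Quotient.mk_eq_zero]
        exact Submodule.smul_mem_pointwise_smul _ _ _ trivial)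
    classical
    -- lift v'
    let v : Finset σ → M := fun τ => if τ.card = i + 2 then (hπ (v' τ)).choose else 0
    have hv : ∀ τ, π (v τ) = v' τ := by
      intro τ
      by_cases h : τ.card = i + 2
      · simp only [v, if_pos h]; exact (hπ (v' τ)).choose_spec
      · simp only [v, if_neg h, map_zero]; rw [hv' τ h]
    have hvs : SuppCard (i + 1 + 1) v := fun τ hτ => by simp only [v, if_neg hτ]
    -- w - ∂ v ∈ a M
    have hdiff : ∀ τ, ∃ y, w τ - koszulD x v τ = a • y := by
      intro τ
      have h1 : π (w τ - koszulD x v τ) = 0 := by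
        rw [map_sub]
        have := congrFun (hcomm v) τ
        rw [← this]
        have h2 : (fun τ => π (v τ)) = v' := funext hv
        rw [h2, hv'w, sub_self]
      change (Submodule.mkQ _) _ = 0 at h1
      rw [Submodule.mkQ_apply, Submodule.Quotient.mk_eq_zero] at h1
      obtain ⟨y, _, hy⟩ := (Submodule.mem_smul_pointwise_iff_exists _ _ _).1 h1
      exact ⟨y, hy.symm⟩
    let w' : Finset σ → M := fun τ => if τ.card = i + 1 then (hdiff τ).choose else 0
    have hw's : SuppCard (i + 1) w' := fun τ hτ => by simp only [w', if_neg hτ]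
    have hw' : w - koszulD x v = a • w' := by
      funext τ
      by_cases h : τ.card = i + 1
      · simp only [Pi.sub_apply, Pi.smul_apply, w', if_pos h]
        exact (hdiff τ).choose_spec
      · simp only [Pi.sub_apply, Pi.smul_apply, w', if_neg h, smul_zero]
        rw [hw τ h, hvs.koszulD (R := R) x τ h, sub_self]
    refine ⟨w', hw's, ?_⟩
    have h3 : koszulD x (a • w') = a • z := by
      rw [← hw', koszulD_sub, koszulD_koszulD, sub_zero, hwz]
    rw [koszulD_smul] at h3
    funext τ
    exact hreg1 (congrFun h3 τ)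

end Pool.Agent.Lib.MP_0db35b_al
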