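import Pool.Agent.Lib.MP_0db35b_al.RegVanish

set_option autoImplicit false
set_option linter.unusedSectionVars false

/-!
# Chain complexes of families of finsets
-/

namespace Pool.Agent.Lib.MP_0db35b_al

open Finset

variable {σ : Type*} [Fintype σ] [LinearOrder σ]
variable {K : Type*} [Field K]

/-- The simplicial differential. -/
def sd (c : Finset σ → K) : Finset σ → K := koszulD (fun _ : σ => (1 : K)) c

theorem sd_add (a b : Finset σ → K) : sd (a + b) = sd a + sd b := koszulD_add _ _ _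

theorem sd_sub (a b : Finset σ → K) : sd (a - b) = sd a - sd b := koszulD_sub _ _ _

theorem sd_neg (a : Finset σ → K) : sd (-a) = -sd a := koszulD_neg _ _

theorem sd_zero : sd (0 : Finset σ → K) = 0 := koszulD_zero _

theorem sd_sd (a : Finset σ → K) : sd (sd a) = 0 := koszulD_koszulD _ _

/-- `c` is a chain of the family `𝒦` supported in cardinality `i`. -/
def InFam (𝒦 : Set (Finset σ)) (i : ℕ) (c : Finset σ → K) : Prop :=
  ∀ τ, c τ ≠ 0 → τ ∈ 𝒦 ∧ τ.card = i

variable (K) in
/-- The homology of the family `𝒦` in cardinality `i` vanishes. -/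
def Van (𝒦 : Set (Finset σ)) (i : ℕ) : Prop :=
  ∀ c : Finset σ → K, InFam 𝒦 i c → sd c = 0 → ∃ w : Finset σ → K, InFam 𝒦 (i + 1) w ∧ sd w = c

/-- The family is closed under subsets. -/
def Down (𝒦 : Set (Finset σ)) : Prop := ∀ τ ∈ 𝒦, ∀ ρ ⊆ τ, ρ ∈ 𝒦

theorem exists_of_sd_ne_zero {c : Finset σ → K} {τ : Finset σ} (h : sd c τ ≠ 0) :
    ∃ j, j ∉ τ ∧ c (insert j τ) ≠ 0 := by
  by_contra hcon
  push Not at hcon
  apply h
  simp only [sd, koszulD]
  refine sum_eq_zero fun j hj => ?_
  rw [hcon j (by simpa using hj), smul_zero, smul_zero]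

theorem InFam.sd {𝒦 : Set (Finset σ)} (hd : Down 𝒦) {i : ℕ} {c : Finset σ → K}
    (hc : InFam 𝒦 i c) {τ : Finset σ} (h : sd c τ ≠ 0) : τ ∈ 𝒦 ∧ τ.card + 1 = i := by
  obtain ⟨j, hj, hcj⟩ := exists_of_sd_ne_zero h
  obtain ⟨h1, h2⟩ := hc _ hcj
  refine ⟨hd _ h1 _ (subset_insert j τ), ?_⟩
  rw [card_insert_of_notMem hj] at h2
  exact h2

theorem Van.union {𝒦 𝒦' : Set (Finset σ)} (hd : Down 𝒦) (hd' : Down 𝒦') {i : ℕ}
    (h1 : Van K 𝒦 i) (h2 : Van K 𝒦' i) (h3 : ∀ i', i = i' + 1 → Van K (𝒦 ∩ 𝒦') i') :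
    Van K (𝒦 ∪ 𝒦') i := by
  classical
  intro c hc hcyc
  let a : Finset σ → K := fun τ => if τ ∈ 𝒦 then c τ else 0
  let b : Finset σ → K := fun τ => if τ ∈ 𝒦 then 0 else c τ
  have hab : c = a + b := by
    funext τ
    simp only [a, b, Pi.add_apply]
    split_ifs <;> simp
  have ha : InFam 𝒦 i a := by
    intro τ hτ
    simp only [a] at hτ
    split_ifs at hτ with h
    · exact ⟨h, (hc τ hτ).2⟩
    · exact absurd rfl hτ
  have hb : InFam 𝒦' i b := by
    intro τ hτ
    simp only [b] at hτ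
    split_ifs at hτ with h
    · exact absurd rfl hτ
    · obtain ⟨h4, h5⟩ := hc τ hτ
      rcases h4 with h4 | h4
      · exact absurd h4 h
      · exact ⟨h4, h5⟩
  have hsum : sd a + sd b = 0 := by rw [← sd_add, ← hab, hcyc]
  obtain ⟨e, he, he1, he2⟩ : ∃ e : Finset σ → K, (InFam 𝒦 i e ∧ InFam 𝒦' i e) ∧
      sd e = sd a ∧ sd e = -sd b := by
    rcases i with _ | i
    · refine ⟨0, ⟨fun τ h => absurd rfl h, fun τ h => absurd rfl h⟩, ?_, ?_⟩
      · rw [sd_zero]
        funext τ
        by_contra h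
        have := (ha.sd hd (Ne.symm h)).2
        omega
      · rw [sd_zero]
        funext τ
        by_contra h
        have h' : sd b τ ≠ 0 := by
          intro h0; apply h; simp [h0]
        have := (hb.sd hd' h').2
        omega
    · obtain ⟨e, he, he'⟩ := h3 i rfl (sd a) (by
        intro τ hτ
        have h5 : sd b τ ≠ 0 := by
          intro h0
          have := congrFun hsum τ
          simp only [Pi.add_apply, h0, add_zero, Pi.zero_apply] at this
          exact hτ this
        refine ⟨⟨(ha.sd hd hτ).1, (hb.sd hd' h5).1⟩, ?_⟩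
        have := (ha.sd hd hτ).2
        omega) (sd_sd _)
      refine ⟨e, ⟨fun τ h => ⟨(he τ h).1.1, (he τ h).2⟩, fun τ h => ⟨(he τ h).1.2, (he τ h).2⟩⟩,
        he', ?_⟩
      rw [he']
      exact eq_neg_of_add_eq_zero_left hsum
  obtain ⟨w, hw, hw'⟩ := h1 (a - e) (by
    intro τ hτ
    by_cases h4 : a τ = 0
    · refine he.1 τ fun h5 => hτ ?_
      simp [h4, h5]
    · exact ha τ h4) (by rw [sd_sub]; exact sub_eq_zero.2 he1.symm)
  obtain ⟨v, hv, hv'⟩ := h2 (b + e) (by
    intro τ hτ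
    by_cases h4 : b τ = 0
    · refine he.2 τ fun h5 => hτ ?_
      simp [h4, h5]
    · exact hb τ h4) (by
      rw [sd_add, he2, add_neg_cancel])
  refine ⟨w + v, ?_, ?_⟩
  · intro τ hτ
    by_cases h4 : w τ = 0
    · have h5 : v τ ≠ 0 := fun h5 => hτ (by simp [h4, h5])
      exact ⟨Or.inr (hv τ h5).1, (hv τ h5).2⟩
    · exact ⟨Or.inl (hw τ h4).1, (hw τ h4).2⟩
  · rw [sd_add, hw', hv', hab]
    abel

theorem sd_wedge (j : σ) (c : Finset σ → K) (hc : sd c = 0) : sd (wedge j c) = c := by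
  have := koszulD_wedge (fun _ : σ => (1 : K)) j c
  have hw : wedge j (0 : Finset σ → K) = 0 := by
    funext τ; simp [wedge]
  rw [one_smul, show koszulD (fun _ : σ => (1 : K)) c = 0 from hc, hw, add_zero] at this
  exact this

theorem Van.of_cone {𝒦 : Set (Finset σ)} {j : σ} (h : ∀ τ ∈ 𝒦, insert j τ ∈ 𝒦) (i : ℕ) :
    Van K 𝒦 i := by
  intro c hc hcyc
  refine ⟨wedge j c, ?_, sd_wedge j c hcyc⟩
  intro τ hτ
  rw [wedge] at hτ
  split_ifs at hτ with hj
  · have h1 : c (τ.erase j) ≠ 0 := fun h0 => hτ (by rw [h0, smul_zero])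
    obtain ⟨h2, h3⟩ := hc _ h1
    refine ⟨?_, ?_⟩
    · have := h _ h2
      rwa [insert_erase hj] at this
    · rw [card_erase_of_mem hj] at h3
      have := card_pos.2 ⟨j, hj⟩
      omega
  · exact absurd rfl hτ

/-- If all faces of `𝒦` not containing `w` form a cone over `x` and the link of `w` has homology
in cardinality `i` then `𝒦` has homology in cardinality `i + 1`. -/
theorem Van.of_susp {𝒦 : Set (Finset σ)} {w x : σ} (hwx : w ≠ x) (hd : Down 𝒦)
    (hcone : ∀ τ ∈ 𝒦, w ∉ τ → insert x τ ∈ 𝒦) {i : ℕ} (h : Van K 𝒦 (i + 1)) :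
    Van K {τ | w ∉ τ ∧ insert w τ ∈ 𝒦} i := by
  intro z hz hcyc
  have hz0 : ∀ τ, w ∈ τ → z τ = 0 := by
    intro τ hτ
    by_contra h0
    exact (hz τ h0).1.1 hτ
  let c : Finset σ → K := wedge w z - wedge x z
  have hc : InFam 𝒦 (i + 1) c := by
    intro τ hτ
    by_cases h1 : wedge w z τ = 0
    · have h2 : wedge x z τ ≠ 0 := by
        intro h2
        apply hτ
        simp only [c, Pi.sub_apply, h1, h2, sub_zero]
      rw [wedge] at h2
      split_ifs at h2 with hx
      · have h3 : z (τ.erase x) ≠ 0 := fun h0 => h2 (by rw [h0, smul_zero])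
        obtain ⟨⟨h4, h5⟩, h6⟩ := hz _ h3
        have h7 : τ.erase x ∈ 𝒦 := hd _ h5 _ (subset_insert _ _)
        have h8 := hcone _ h7 h4
        rw [insert_erase hx] at h8
        refine ⟨h8, ?_⟩
        rw [card_erase_of_mem hx] at h6
        have := card_pos.2 ⟨x, hx⟩
        omega
      · exact absurd rfl h2
    · rw [wedge] at h1
      split_ifs at h1 with hw
      · have h3 : z (τ.erase w) ≠ 0 := fun h0 => h1 (by rw [h0, smul_zero])
        obtain ⟨⟨h4, h5⟩, h6⟩ := hz _ h3
        rw [insert_erase hw] at h5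
        refine ⟨h5, ?_⟩
        rw [card_erase_of_mem hw] at h6
        have := card_pos.2 ⟨w, hw⟩
        omega
      · exact absurd rfl h1
  obtain ⟨γ, hγ, hγc⟩ := h c hc (by
    rw [sd_sub, sd_wedge w z hcyc, sd_wedge x z hcyc, sub_self])
  have hlink : link w c = z := by
    have h1 : link w (wedge x z) = 0 := by
      funext τ
      rw [link]
      split_ifs with hw
      · rfl
      · rw [wedge]
        split_ifs with hx
        · rw [hz0 ((insert w τ).erase x) (mem_erase.2 ⟨hwx, mem_insert_self _ _⟩), smul_zero,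
            smul_zero]
          rfl
        · rw [smul_zero]; rfl
    have h2 : link w c = link w (wedge w z) - link w (wedge x z) := by
      funext τ
      simp only [link, c, Pi.sub_apply]
      split_ifs
      · simp
      · rw [smul_sub]
    rw [h2, h1, sub_zero, link_wedge_of_notMem w z hz0]
  refine ⟨-link w γ, ?_, ?_⟩
  · intro τ hτ
    simp only [Pi.neg_apply, ne_eq, neg_eq_zero, link] at hτ
    split_ifs at hτ with hw
    · exact absurd rfl hτ
    · have h3 : γ (insert w τ) ≠ 0 := fun h0 => hτ (by rw [h0, smul_zero])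
      obtain ⟨h4, h5⟩ := hγ _ h3
      rw [card_insert_of_notMem hw] at h5
      exact ⟨⟨hw, h4⟩, by omega⟩
  · rw [sd_neg]
    change -koszulD _ (link w γ) = z
    rw [← link_koszulD]
    change link w (sd γ) = z
    rw [hγc, hlink]

end Pool.Agent.Lib.MP_0db35b_al
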