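import Pool.Agent.Lib.MP_0db35b_al.Nice

set_option autoImplicit false
set_option linter.unusedSectionVars false

/-!
# Staircases in two variables
-/

namespace Pool.Agent.Lib.MP_0db35b_al

variable {σ : Type*} [Fintype σ] [LinearOrder σ]

/-- The exponent vectors above `e x + (M - e) y` for some `e ∈ F`. -/
def St (x y : σ) (M : ℕ) (F : Set ℕ) : Set (σ →₀ ℕ) :=
  {w | ∃ e ∈ F, e ≤ w x ∧ M - e ≤ w y}

theorem mem_St {x y : σ} {M : ℕ} {F : Set ℕ} {w : σ →₀ ℕ} :
    w ∈ St x y M F ↔ ∃ e ∈ F, e ≤ w x ∧ M - e ≤ w y := Iff.rfl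

theorem dep_St (x y : σ) (M : ℕ) (F : Set ℕ) : DepOn {x, y} (St x y M F) := by
  rintro w w' hw ⟨e, he, h1, h2⟩
  have hx := hw x (by simp)
  have hy := hw y (by simp)
  exact ⟨e, he, by omega, by omega⟩

theorem isUpperSet_St (x y : σ) (M : ℕ) (F : Set ℕ) : IsUpperSet (St x y M F) := by
  rintro w w' hw ⟨e, he, h1, h2⟩
  exact ⟨e, he, h1.trans (hw x), h2.trans (hw y)⟩

theorem exists_max {F : Set ℕ} {n : ℕ} (h : ∃ e ∈ F, e < n) :
    ∃ e ∈ F, e < n ∧ ∀ e' ∈ F, e' < n → e' ≤ e := by
  induction n with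
  | zero =>
    obtain ⟨e, _, he⟩ := h
    omega
  | succ n ih =>
    by_cases hn : n ∈ F
    · exact ⟨n, hn, by omega, fun e' _ he' => by omega⟩
    · obtain ⟨e, he, hen⟩ := h
      have hne : e ≠ n := fun h => hn (h ▸ he)
      obtain ⟨e₁, h1, h2, h3⟩ := ih ⟨e, he, by omega⟩
      refine ⟨e₁, h1, by omega, fun e' he' hlt => ?_⟩
      have hne' : e' ≠ n := fun h => hn (h ▸ he')
      exact h3 e' he' (by omega)

theorem nice_St {V : Set σ} {x y : σ} (hx : x ∈ V) (hy : y ∈ V) (hxy : x ≠ y) {M g : ℕ}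
    {F : Set ℕ} (hF : ∀ e ∈ F, e ≤ M) (hg : 1 ≤ g)
    (hgap : ∀ e ∈ F, (∃ e' ∈ F, e' < e) → ∃ e' ∈ F, e' < e ∧ e ≤ e' + g) :
    Nice V (St x y M F) 1 (M + g - 1) := by
  have key : ∀ n, n ≤ M + 1 → Nice V (St x y M {e | e ∈ F ∧ e < n}) 1 (M + g - 1) := by
    intro n
    induction n with
    | zero =>
      intro _
      have : St x y M {e | e ∈ F ∧ e < 0} = ∅ := by
        ext w
        simp only [mem_St, Set.mem_ofPred_eq, Set.mem_empty_iff_false, iff_false]
        rintro ⟨e, ⟨_, h⟩, _⟩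
        omega
      rw [this]
      exact Nice.empty.mono (by omega) (by omega)
    | succ n ih =>
      intro hn
      have ih := ih (by omega)
      by_cases hnF : n ∈ F
      · have e1 : St x y M {e | e ∈ F ∧ e < n + 1} =
            St x y M {e | e ∈ F ∧ e < n} ∪ up (two x y n (M - n)) := by
          ext w
          simp only [mem_St, Set.mem_ofPred_eq, Set.mem_union, mem_up, two_le hxy]
          constructor
          · rintro ⟨e, ⟨he, hlt⟩, h1, h2⟩
            by_cases hen : e = n
            · subst hen; exact Or.inr ⟨h1, h2⟩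
            · exact Or.inl ⟨e, ⟨he, by omega⟩, h1, h2⟩
          · rintro (⟨e, ⟨he, hlt⟩, h1, h2⟩ | ⟨h1, h2⟩)
            · exact ⟨e, ⟨he, by omega⟩, h1, h2⟩
            · exact ⟨n, ⟨hnF, by omega⟩, h1, h2⟩
        rw [e1]
        refine Nice.union (t := 0) ih ?_ ?_
        · refine nice_up (fun j hj => two_eq_zero hx hy hj _ _) ?_ |>.mono (by omega) le_rfl
          rw [degree_two]; omega
        · by_cases hex : ∃ e ∈ F, e < n
          · obtain ⟨e, he, hen, hmax⟩ := exists_max hex
            have hge : n ≤ e + g := by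
              obtain ⟨e', h1, h2, h3⟩ := hgap n hnF hex
              have := hmax e' h1 h2
              omega
            have e2 : St x y M {e | e ∈ F ∧ e < n} ∩ up (two x y n (M - n)) =
                up (two x y n (M - e)) := by
              ext w
              simp only [mem_St, Set.mem_ofPred_eq, Set.mem_inter_iff, mem_up, two_le hxy]
              constructor
              · rintro ⟨⟨e', ⟨h1, h2⟩, h3, h4⟩, h5, h6⟩
                have := hmax e' h1 h2
                exact ⟨h5, by omega⟩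
              · rintro ⟨h1, h2⟩
                exact ⟨⟨e, ⟨he, hen⟩, by omega, by omega⟩, h1, by omega⟩
            rw [e2]
            refine nice_up (fun j hj => two_eq_zero hx hy hj _ _) ?_
            rw [degree_two]
            have := hF e he
            omega
          · have e2 : St x y M {e | e ∈ F ∧ e < n} ∩ up (two x y n (M - n)) = ∅ := by
              ext w
              simp only [mem_St, Set.mem_ofPred_eq, Set.mem_inter_iff,
                Set.mem_empty_iff_false, iff_false]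
              rintro ⟨⟨e', ⟨h1, h2⟩, h3, h4⟩, _⟩
              exact hex ⟨e', h1, h2⟩
            rw [e2]
            exact Nice.empty.mono (by omega) (by omega)
      · have e1 : St x y M {e | e ∈ F ∧ e < n + 1} = St x y M {e | e ∈ F ∧ e < n} := by
          ext w
          simp only [mem_St, Set.mem_ofPred_eq]
          constructor
          · rintro ⟨e, ⟨he, hlt⟩, h1, h2⟩
            have hne : e ≠ n := fun h => hnF (h ▸ he)
            exact ⟨e, ⟨he, by omega⟩, h1, h2⟩
          · rintro ⟨e, ⟨he, hlt⟩, h1, h2⟩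
            exact ⟨e, ⟨he, by omega⟩, h1, h2⟩
        rw [e1]
        exact ih
  have h := key (M + 1) le_rfl
  have e : {e | e ∈ F ∧ e < M + 1} = F := by
    ext e
    simp only [Set.mem_ofPred_eq, and_iff_left_iff_imp]
    intro he
    have := hF e he
    omega
  rwa [e] at h

/-- Addition of staircases. -/
theorem St_add {x y : σ} (hxy : x ≠ y) {M M' : ℕ} {F F' : Set ℕ} (hF : ∀ e ∈ F, e ≤ M)
    (hF' : ∀ e ∈ F', e ≤ M') {w : σ →₀ ℕ} :
    w ∈ St x y (M + M') {e | ∃ a ∈ F, ∃ b ∈ F', e = a + b} ↔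
      ∃ v ∈ St x y M F, ∃ v' ∈ St x y M' F', v + v' = w := by
  constructor
  · rintro ⟨e, ⟨a, ha, b, hb, rfl⟩, h1, h2⟩
    have ha' := hF a ha
    have hb' := hF' b hb
    have hle : two x y b (M' - b) ≤ w := by
      rw [two_le hxy]
      constructor <;> omega
    have hbx : two x y b (M' - b) x = b := by
      simp [two, Finsupp.single_eq_of_ne hxy]
    have hby : two x y b (M' - b) y = M' - b := by
      simp [two, Finsupp.single_eq_of_ne hxy.symm]
    refine ⟨w - two x y b (M' - b), ⟨a, ha, ?_, ?_⟩, two x y b (M' - b), ⟨b, hb, ?_, ?_⟩,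
      tsub_add_cancel_of_le hle⟩
    · rw [Finsupp.tsub_apply, hbx]; omega
    · rw [Finsupp.tsub_apply, hby]; omega
    · rw [hbx]
    · rw [hby]
  · rintro ⟨v, ⟨a, ha, h1, h2⟩, v', ⟨b, hb, h3, h4⟩, rfl⟩
    have ha' := hF a ha
    have hb' := hF' b hb
    refine ⟨a + b, ⟨a, ha, b, hb, rfl⟩, ?_, ?_⟩
    · rw [Finsupp.add_apply]; omega
    · rw [Finsupp.add_apply]; omega

end Pool.Agent.Lib.MP_0db35b_al
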