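import Pool.Agent.Lib.MP_0db35b_al.WitSt

set_option autoImplicit false
set_option linter.unusedSectionVars false

/-!
# Witnesses for the powers of the Hibi ideal
-/

namespace Pool.Agent.Lib.MP_0db35b_al

variable {σ : Type} [Fintype σ] [LinearOrder σ]

/-- The pairs `(xᵢ, yⱼ)` with `i ≤ j`. -/
def Pr : List (σ × σ) → Set (σ × σ)
  | [] => ∅
  | p :: l => {q | (q.1 = p.1 ∧ ∃ r ∈ p :: l, q.2 = r.2) ∨ q ∈ Pr l}

theorem mem_Pr_cons {p : σ × σ} {l : List (σ × σ)} {q : σ × σ} :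
    q ∈ Pr (p :: l) ↔ (q.1 = p.1 ∧ ∃ r ∈ p :: l, q.2 = r.2) ∨ q ∈ Pr l := Iff.rfl

theorem mem_W_gen (l : List (σ × σ)) {k s : ℕ} {w : σ →₀ ℕ} (hs : s ≤ k) :
    w ∈ W l k s ↔ (∀ q ∈ Pr l, k ≤ w q.1 / 2 + w q.2 / 3) ∧ ∀ q ∈ l, k ≤ s + w q.2 / 3 := by
  induction l generalizing s with
  | nil => simp [W, Pr]
  | cons p l ih =>
    rw [mem_W_cons]
    constructor
    · rintro ⟨α, h1, h2, h3, h4⟩
      obtain ⟨h5, h6⟩ := (ih (by omega)).1 h4
      refine ⟨?_, ?_⟩
      · rintro q (⟨h7, r, hr, h8⟩ | hq)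
        · rw [h7, h8]
          rcases List.mem_cons.1 hr with rfl | hr
          · omega
          · have := h6 r hr
            omega
        · exact h5 q hq
      · intro q hq
        rcases List.mem_cons.1 hq with rfl | hq
        · omega
        · have := h6 q hq
          omega
    · rintro ⟨h1, h2⟩
      have h3 := h2 p (by simp)
      have h4 := h1 (p.1, p.2) (Or.inl ⟨rfl, p, by simp, rfl⟩)
      simp only at h4
      refine ⟨min s (w p.1 / 2), by omega, by omega, by omega, ?_⟩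
      rw [ih (by omega)]
      refine ⟨fun q hq => h1 q (Or.inr hq), fun q hq => ?_⟩
      have h5 := h2 q (List.mem_cons_of_mem _ hq)
      have h6 := h1 (p.1, q.2) (Or.inl ⟨rfl, q, List.mem_cons_of_mem _ hq, rfl⟩)
      simp only at h6
      omega

theorem mem_W_iff (l : List (σ × σ)) {k : ℕ} {w : σ →₀ ℕ} :
    w ∈ W l k k ↔ ∀ q ∈ Pr l, k ≤ w q.1 / 2 + w q.2 / 3 := by
  rw [mem_W_gen l le_rfl]
  exact ⟨fun h => h.1, fun h => ⟨h, fun q _ => by omega⟩⟩

theorem Pr_fst {l : List (σ × σ)} {q : σ × σ} (hq : q ∈ Pr l) : ∃ p ∈ l, q.1 = p.1 := by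
  induction l with
  | nil => exact absurd hq (Set.notMem_empty q)
  | cons p l ih =>
    rcases hq with ⟨h, _⟩ | hq
    · exact ⟨p, by simp, h⟩
    · obtain ⟨r, hr, h⟩ := ih hq
      exact ⟨r, List.mem_cons_of_mem _ hr, h⟩

theorem Pr_snd {l : List (σ × σ)} {q : σ × σ} (hq : q ∈ Pr l) : ∃ p ∈ l, q.2 = p.2 := by
  induction l with
  | nil => exact absurd hq (Set.notMem_empty q)
  | cons p l ih =>
    rcases hq with ⟨_, h⟩ | hq
    · exact h
    · obtain ⟨r, hr, h⟩ := ih hq
      exact ⟨r, List.mem_cons_of_mem _ hr, h⟩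

theorem fst_ne_snd {l : List (σ × σ)} (hl : Good l) {p q : σ × σ} (hp : p ∈ l) (hq : q ∈ l) :
    p.1 ≠ q.2 := by
  induction l with
  | nil => exact absurd hp List.not_mem_nil
  | cons r l ih =>
    obtain ⟨h1, h2, h3, h4⟩ := hl
    rcases List.mem_cons.1 hp with hp' | hp'
    · rw [hp']
      rcases List.mem_cons.1 hq with hq' | hq'
      · rw [hq']; exact h1
      · exact fun h => h2 ⟨q, hq', Or.inr h⟩
    · rcases List.mem_cons.1 hq with hq' | hq'
      · rw [hq']
        exact fun h => h3 ⟨p, hp', Or.inl h.symm⟩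
      · exact ih h4 hp' hq'

open Classical in
/-- Large exponents at the variables in `A`. -/
noncomputable def big (A : Set σ) (n : ℕ) : σ →₀ ℕ :=
  Finsupp.equivFunOnFinite.symm (fun j => if j ∈ A then n else 0)

theorem big_apply_mem {A : Set σ} {n : ℕ} {j : σ} (hj : j ∈ A) : big A n j = n := by
  simp [big, hj]

theorem big_apply_notMem {A : Set σ} {n : ℕ} {j : σ} (hj : j ∉ A) : big A n j = 0 := by
  simp [big, hj]

theorem mem_of_big_ne {A : Set σ} {n : ℕ} {j : σ} (hj : big A n j ≠ 0) : j ∈ A := by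
  by_contra h
  exact hj (big_apply_notMem h)

theorem Wit.exists_fst {l : List (σ × σ)} {k : ℕ} {u : σ →₀ ℕ} {G : Set σ}
    (hu : Wit (W l k k) u G) : ∃ p ∈ l, p.1 ∈ G := by
  obtain ⟨j, hj, hj'⟩ := hu.mem_of (isUpperSet_W _ _ _) (w := big {j | ∃ p ∈ l, j = p.1} (2 * k))
    (by
      rw [mem_W_iff]
      intro q hq
      rw [big_apply_mem (A := {j | ∃ p ∈ l, j = p.1}) (j := q.1) (Pr_fst hq)]
      omega)
  obtain ⟨p, hp, rfl⟩ := mem_of_big_ne hj'
  exact ⟨p, hp, hj⟩

theorem Wit.exists_snd {l : List (σ × σ)} {k : ℕ} {u : σ →₀ ℕ} {G : Set σ}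
    (hu : Wit (W l k k) u G) : ∃ p ∈ l, p.2 ∈ G := by
  obtain ⟨j, hj, hj'⟩ := hu.mem_of (isUpperSet_W _ _ _) (w := big {j | ∃ p ∈ l, j = p.2} (3 * k))
    (by
      rw [mem_W_iff]
      intro q hq
      rw [big_apply_mem (A := {j | ∃ p ∈ l, j = p.2}) (j := q.2) (Pr_snd hq)]
      omega)
  obtain ⟨p, hp, rfl⟩ := mem_of_big_ne hj'
  exact ⟨p, hp, hj⟩

/-- The associated primes of the powers. -/
theorem WS_W {l : List (σ × σ)} (hl : Good l) {k : ℕ} (hk : 1 ≤ k) :
    WS (W l k k) = {G | ∃ q ∈ Pr l, G = {q.1, q.2}} := by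
  ext G
  constructor
  · rintro ⟨u, hu⟩
    have h1 := hu.notMem
    rw [mem_W_iff] at h1
    push Not at h1
    obtain ⟨q, hq, hlt⟩ := h1
    refine ⟨q, hq, ?_⟩
    have hsub : G ⊆ {q.1, q.2} := by
      intro j hj
      by_contra hjq
      simp only [Set.mem_insert_iff, Set.mem_singleton_iff, not_or] at hjq
      have h2 := (mem_W_iff l).1 (hu.single_mem hj) q hq
      rw [Finsupp.add_apply, Finsupp.add_apply, Finsupp.single_eq_of_ne' hjq.1,
        Finsupp.single_eq_of_ne' hjq.2, add_zero, add_zero] at h2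
      omega
    refine Set.Subset.antisymm hsub ?_
    obtain ⟨p, hp, hpG⟩ := hu.exists_fst
    obtain ⟨p', hp', hpG'⟩ := hu.exists_snd
    obtain ⟨r, hr, hr1⟩ := Pr_fst hq
    obtain ⟨r', hr', hr2⟩ := Pr_snd hq
    have h3 : p.1 = q.1 := by
      rcases hsub hpG with h | h
      · exact h
      · exact absurd (h.trans hr2) (fst_ne_snd hl hp hr')
    have h4 : p'.2 = q.2 := by
      rcases hsub hpG' with h | h
      · exact absurd (hr1.symm.trans h.symm) (fst_ne_snd hl hr hp')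
      · exact h
    rintro j (rfl | rfl)
    · rw [← h3]; exact hpG
    · rw [← h4]; exact hpG'
  · rintro ⟨q, hq, rfl⟩
    obtain ⟨r, hr, hr1⟩ := Pr_fst hq
    obtain ⟨r', hr', hr2⟩ := Pr_snd hq
    have hne : q.1 ≠ q.2 := by rw [hr1, hr2]; exact fst_ne_snd hl hr hr'
    refine ⟨mix {q.1, q.2} (two q.1 q.2 1 (3 * k - 1)) (big Set.univ (3 * k)), fun w => ?_⟩
    rw [mem_W_iff]
    have hb1 : mix {q.1, q.2} (two q.1 q.2 1 (3 * k - 1)) (big Set.univ (3 * k)) q.1 = 1 := by
      rw [mix_apply_mem (by simp), two_apply_left hne]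
    have hb2 : mix {q.1, q.2} (two q.1 q.2 1 (3 * k - 1)) (big Set.univ (3 * k)) q.2 =
        3 * k - 1 := by
      rw [mix_apply_mem (by simp), two_apply_right hne]
    have hb3 : ∀ j, j ≠ q.1 → j ≠ q.2 →
        mix {q.1, q.2} (two q.1 q.2 1 (3 * k - 1)) (big Set.univ (3 * k)) j = 3 * k := by
      intro j h1 h2
      rw [mix_apply_notMem (by simp [h1, h2]), big_apply_mem (Set.mem_univ _)]
    constructor
    · intro h1
      by_contra hcon
      push Not at hcon
      have h2 := h1 q hq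
      rw [Finsupp.add_apply, Finsupp.add_apply, hb1, hb2, hcon q.1 (by simp),
        hcon q.2 (by simp)] at h2
      omega
    · intro h1 s hs
      rw [Finsupp.add_apply, Finsupp.add_apply]
      obtain ⟨r₁, hr₁, hr₁'⟩ := Pr_fst hs
      obtain ⟨r₂, hr₂, hr₂'⟩ := Pr_snd hs
      by_cases h2 : s.1 = q.1
      · by_cases h3 : s.2 = q.2
        · rw [h2, h3, hb1, hb2]
          obtain ⟨j, (rfl | rfl), hj⟩ := h1 <;> omega
        · have h4 : s.2 ≠ q.1 := by
            rw [hr₂', hr1]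
            exact (fst_ne_snd hl hr hr₂).symm
          rw [hb3 _ h4 h3]
          omega
      · have h4 : s.1 ≠ q.2 := by
          rw [hr₁', hr2]
          exact fst_ne_snd hl hr₁ hr'
        rw [hb3 _ h2 h4]
        omega

/-- The degree in the variables of the list. -/
def dl (l : List (σ × σ)) (w : σ →₀ ℕ) : ℕ := (l.map fun p => w p.1 + w p.2).sum

theorem dl_cons (p : σ × σ) (l : List (σ × σ)) (w : σ →₀ ℕ) :
    dl (p :: l) w = w p.1 + w p.2 + dl l w := by
  simp [dl]

/-- The restriction to the variables of the list. -/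
noncomputable def rl : List (σ × σ) → (σ →₀ ℕ) → (σ →₀ ℕ)
  | [], _ => 0
  | p :: l, w => two p.1 p.2 (w p.1) (w p.2) + rl l w

theorem rl_apply (l : List (σ × σ)) (w : σ →₀ ℕ) {j : σ} (hj : j ∉ vars l) : rl l w j = 0 := by
  induction l with
  | nil => rfl
  | cons p l ih =>
    rw [vars_cons] at hj
    simp only [Set.mem_union, Set.mem_insert_iff, Set.mem_singleton_iff, not_or] at hj
    rw [rl, Finsupp.add_apply, two_apply_of_ne hj.1.1 hj.1.2, ih hj.2]

theorem degree_rl (l : List (σ × σ)) (w : σ →₀ ℕ) : (rl l w).degree = dl l w := by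
  induction l with
  | nil => simp [rl, dl]
  | cons p l ih => rw [rl, map_add, degree_two, ih, dl_cons]

theorem rl_le {l : List (σ × σ)} (hl : Good l) (w : σ →₀ ℕ) : rl l w ≤ w := by
  induction l with
  | nil => exact zero_le
  | cons p l ih =>
    obtain ⟨h1, h2, h3, h4⟩ := hl
    intro j
    rw [rl, Finsupp.add_apply]
    by_cases hjx : j = p.1
    · subst hjx
      rw [two_apply_left h1, rl_apply l w h2, add_zero]
    · by_cases hjy : j = p.2
      · subst hjy
        rw [two_apply_right h1, rl_apply l w h3, add_zero]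
      · rw [two_apply_of_ne hjx hjy, zero_add]
        exact ih h4 j

theorem dl_le {l : List (σ × σ)} (hl : Good l) (w : σ →₀ ℕ) : dl l w ≤ w.degree := by
  rw [← degree_rl]
  exact Finsupp.degree_mono (rl_le hl w)

theorem dl_W {l : List (σ × σ)} {k s : ℕ} {w : σ →₀ ℕ} (hs : s ≤ k) (hw : w ∈ W l k s) :
    2 * k * l.length ≤ dl l w ∧ ∀ q ∈ l, 1 ≤ w q.2 → 2 * k * l.length + 1 ≤ dl l w := by
  induction l generalizing s with
  | nil => simp
  | cons p l ih =>
    obtain ⟨α, h1, h2, h3, h4⟩ := hw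
    obtain ⟨h5, h6⟩ := ih (by omega) h4
    rw [dl_cons, List.length_cons]
    have e : 2 * k * (l.length + 1) = 2 * k * l.length + 2 * k := by ring
    rw [e]
    refine ⟨by omega, fun q hq hq1 => ?_⟩
    rcases List.mem_cons.1 hq with rfl | hq
    · omega
    · have := h6 q hq hq1
      omega

theorem LB_W {l : List (σ × σ)} (hl : Good l) (k : ℕ) : LB (W l k k) (2 * k * l.length) := by
  intro w hw
  exact (dl_W le_rfl hw).1.trans (dl_le hl w)

theorem LW_W {l : List (σ × σ)} (hl : Good l) (k : ℕ) : LW (W l k k) (2 * k * l.length) := by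
  intro u G hu
  obtain ⟨p, hp, hpG⟩ := hu.exists_snd
  have h1 := (dl_W le_rfl (hu.single_mem hpG)).2 p hp (by simp)
  have h2 := h1.trans (dl_le hl _)
  rw [map_add, Finsupp.degree_single] at h2
  omega

end Pool.Agent.Lib.MP_0db35b_al
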