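import Pool.Agent.Lib.MP_0db35b_al.WitUA
import Pool.Agent.Lib.MP_0db35b_al.WitW

set_option autoImplicit false
set_option linter.unusedSectionVars false

/-!
# Constructions and nonvanishing homology for the product
-/

universe u

namespace Pool.Agent.Lib.MP_0db35b_al

variable {σ : Type} [Fintype σ] [LinearOrder σ] {K : Type u} [Field K]

/-- The largest gap in the second factor. -/
def gV (v : ℕ) : ℕ := max 2 (2 * v - 1)

theorem gV_pos (v : ℕ) : 1 ≤ gV v := by rw [gV]; omega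

theorem BV_bound {v k e : ℕ} (hv : 1 ≤ v) (he : e ∈ ksum (BV v) k) : e ≤ k * (2 * v + 1) :=
  ksum_bound (fun _ hb => BV_le hv hb) he

theorem nice_UV {V : Set σ} {x y : σ} (hx : x ∈ V) (hy : y ∈ V) (hxy : x ≠ y) {v : ℕ} (hv : 1 ≤ v)
    (k : ℕ) : Nice V (UV v x y k) 1 (k * (2 * v + 1) + gV v - 1) := by
  refine nice_St hx hy hxy (fun e he => BV_bound hv he) (gV_pos v) ?_
  intro e he hex
  obtain ⟨i, j, hij, rfl⟩ := mem_ksum_BV.1 he
  rcases i with _ | i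
  · rcases j with _ | j
    · obtain ⟨e', _, h⟩ := hex
      omega
    · refine ⟨2 * 1 + (2 * v + 1) * j, mem_ksum_BV.2 ⟨1, j, by omega, rfl⟩, ?_, ?_⟩
      · have : (2 * v + 1) * (j + 1) = (2 * v + 1) * j + (2 * v + 1) := by ring
        omega
      · have : (2 * v + 1) * (j + 1) = (2 * v + 1) * j + (2 * v + 1) := by ring
        rw [gV]
        omega
  · refine ⟨2 * i + (2 * v + 1) * j, mem_ksum_BV.2 ⟨i, j, by omega, rfl⟩, by omega, ?_⟩
    rw [gV]
    omega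

/-- The largest gap is attained. -/
theorem exists_gap_V {v k : ℕ} (hv : 1 ≤ v) (hk : 1 ≤ k) : ∃ e ∈ ksum (BV v) k,
    ∃ e' ∈ ksum (BV v) k, e = e' + gV v ∧ ∀ f ∈ ksum (BV v) k, f ≤ e' ∨ e ≤ f := by
  by_cases hv1 : v = 1
  · subst hv1
    refine ⟨2, mem_ksum_BV.2 ⟨1, 0, by omega, by omega⟩, 0, mem_ksum_BV.2 ⟨0, 0, by omega, by omega⟩,
      by rw [gV]; omega, ?_⟩
    intro f hf
    obtain ⟨i, j, _, rfl⟩ := mem_ksum_BV.1 hf
    omega
  · obtain ⟨k, rfl⟩ : ∃ k', k = k' + 1 := ⟨k - 1, by omega⟩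
    refine ⟨(2 * v + 1) * (k + 1), mem_ksum_BV.2 ⟨0, k + 1, by omega, by omega⟩,
      2 * 1 + (2 * v + 1) * k, mem_ksum_BV.2 ⟨1, k, by omega, rfl⟩, ?_, ?_⟩
    · have : (2 * v + 1) * (k + 1) = (2 * v + 1) * k + (2 * v + 1) := by ring
      rw [gV]
      omega
    · intro f hf
      obtain ⟨i, j, hij, rfl⟩ := mem_ksum_BV.1 hf
      by_cases hj : j = k + 1
      · subst hj
        right; omega
      · left
        obtain ⟨m, rfl⟩ := Nat.exists_eq_add_of_le (show j ≤ k by omega)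
        have h1 : (2 * v + 1) * (j + m) = (2 * v + 1) * j + (2 * v + 1) * m := by ring
        have h2 : 2 * m ≤ (2 * v + 1) * m := Nat.mul_le_mul_right _ (by omega)
        omega

theorem zero_mem_ksum_BR (r k : ℕ) : 0 ∈ dbl (ksum (BR r) k) := by
  refine ⟨0, ?_, rfl⟩
  have := ksum_mul (B := BR r) (b := 0) (Or.inl rfl) k
  simpa using this

theorem top_mem_ksum_BR {r : ℕ} (k : ℕ) : k * (4 * r + 4) ∈ dbl (ksum (BR r) k) :=
  ⟨k * (2 * r + 2), ksum_mul (Or.inr (Or.inr ⟨by omega, le_rfl⟩)) k, by ring⟩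

theorem zero_mem_ksum_BV (v k : ℕ) : 0 ∈ ksum (BV v) k := mem_ksum_BV.2 ⟨0, 0, by omega, by omega⟩

theorem top_mem_ksum_BV (v k : ℕ) : k * (2 * v + 1) ∈ ksum (BV v) k :=
  mem_ksum_BV.2 ⟨0, k, by omega, by ring⟩

theorem nice_UR {V : Set σ} {x y : σ} (hx : x ∈ V) (hy : y ∈ V) (hxy : x ≠ y) {r : ℕ} (hr : 1 ≤ r)
    {k : ℕ} (hk : r ≤ k) : Nice V (UR r x y k) 1 (k * (4 * r + 4) + 1) := by
  refine nice_St (g := 2) hx hy hxy (fun e he => dbl_BR_le e he) (by omega) ?_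
  rintro _ ⟨f, hf, rfl⟩ ⟨e', _, h⟩
  have h1 := ksum_bound (fun b hb => BR_le hb) hf
  exact ⟨2 * (f - 1), ⟨f - 1, BR_full hr hk (by omega), rfl⟩, by omega, by omega⟩

theorem nice_UR' {V : Set σ} {x y : σ} (hx : x ∈ V) (hy : y ∈ V) (hxy : x ≠ y) {r : ℕ} {k : ℕ}
    (hk : 1 ≤ k) :
    Nice V (UR r x y k) 1 (k * (4 * r + 4) + k * (4 * r + 4) - 1) := by
  have hM : 4 * r + 4 ≤ k * (4 * r + 4) := Nat.le_mul_of_pos_left _ hk
  refine nice_St (g := k * (4 * r + 4)) hx hy hxy (fun e he => dbl_BR_le e he) (by omega) ?_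
  rintro e he ⟨e', _, h⟩
  have h1 := dbl_BR_le e he
  exact ⟨0, zero_mem_ksum_BR r k, by omega, by omega⟩

namespace Data

variable {D : Data σ}

/-- The regularity of the product of the last three factors. -/
def ρ2 (D : Data σ) (k : ℕ) : ℕ := (k * (2 * D.v + 1) + gV D.v - 1) +
  ((2 * (k * (2 * D.a + 2)) + D.h + 2) + (3 * k * D.l.length + 1))

/-- The regularity for large powers. -/
def ρ (D : Data σ) (k : ℕ) : ℕ := (k * (4 * D.r + 4) + 1) + D.ρ2 k

theorem constr4 (hD : D.OK) {k : ℕ} (hk : 1 ≤ k) :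
    Constr (D.T4 k) (min D.l.length k) (3 * k * D.l.length + 1) := by
  have h := nice_W (V := vars D.l) D.l hD.l (fun _ h => h) k k le_rfl Set.univ 0 0 (indep_univ _)
    Constr.univ
  rw [Set.inter_univ] at h
  refine Constr.mono (by omega) ?_ h
  split_ifs <;> omega

theorem constr3 (hD : D.OK) {k : ℕ} (hk : 1 ≤ k) :
    Constr (D.T3 k) (2 + min D.l.length k)
      ((2 * (k * (2 * D.a + 2)) + D.h + 2) + (3 * k * D.l.length + 1)) :=
  nice_UA (V := {D.x, D.y, D.z, D.t}) (by simp) (by simp) (by simp) (by simp) hD.hxy hD.hxz hD.hyz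
    hD.hxt hD.hyt hD.a hk le_rfl _ _ _ (indT4 hD k) (constr4 hD hk)

theorem constr2 (hD : D.OK) {k : ℕ} (hk : 1 ≤ k) :
    Constr (D.T2 k) (1 + (2 + min D.l.length k)) (D.ρ2 k) :=
  nice_UV (V := {D.xV, D.yV}) (by simp) (by simp) hD.hV hD.v k _ _ _ (indT3 hD k) (constr3 hD hk)

theorem constr (hD : D.OK) {k : ℕ} (hk : D.r ≤ k) :
    Constr (D.T k) (4 + min D.l.length k) (D.ρ k) := by
  have hr := hD.r
  have h := nice_UR (V := {D.xR, D.yR}) (by simp) (by simp) hD.hR hD.r hk _ _ _ (indT2 hD k)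
    (constr2 hD (by omega))
  exact Constr.mono (by omega) le_rfl h

theorem constr' (hD : D.OK) {k : ℕ} (hk : 1 ≤ k) :
    ∃ ρ', Constr (D.T k) (4 + min D.l.length k) ρ' := by
  have h := nice_UR' (V := {D.xR, D.yR}) (by simp) (by simp) hD.hR (r := D.r) hk _ _ _ (indT2 hD k)
    (constr2 hD (by omega))
  exact ⟨_, Constr.mono (by omega) le_rfl h⟩

theorem notMem_of_disjoint {α : Type*} {A B : Set α} (h : Disjoint A B) {j : α} (hj : j ∈ A) :
    j ∉ B := Set.disjoint_left.1 h hj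

/-- Nonvanishing homology of the product. -/
theorem not_van (hD : D.OK) {k : ℕ} (hk : 1 ≤ k) {b4 : σ →₀ ℕ} {t4 : ℕ}
    (hb4 : ∀ j, j ∉ vars D.l → b4 j = 0) (h4 : ¬ Van K (fam (D.T4 k) b4) t4) {f f' : ℕ}
    (hf : f ∈ dbl (ksum (BR D.r) k)) (hf' : f' ∈ dbl (ksum (BR D.r) k)) (hlt : f' < f)
    (hcons : ∀ g ∈ dbl (ksum (BR D.r) k), g ≤ f' ∨ f ≤ g) :
    ∃ b : σ →₀ ℕ, ¬ Van K (fam (D.T k) b) (t4 + 4) ∧
      b.degree = b4.degree + (2 * (k * (2 * D.a + 2)) + 4 + D.h) +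
        (k * (2 * D.v + 1) + gV D.v) + (k * (4 * D.r + 4) + (f - f')) := by
  have ha := hD.a
  obtain ⟨b3, hb3⟩ : ∃ b3, b3 = two D.x D.y (2 * (k * (2 * D.a + 2))) 4 +
    Finsupp.single D.t D.h + b4 := ⟨_, rfl⟩
  have h3 : ¬ Van K (fam (D.T3 k) b3) (t4 + 2) := by
    intro h
    apply h4
    rw [hb3] at h
    refine Van.of_UA (isUpperT4 k) hD.hxy hD.hxt hD.hyt (indT4 hD k) hD.a ?_ hk
      (hb4 _ ?_) (hb4 _ ?_) (hb4 _ ?_) h
    · rw [Data.h]; omega
    · exact notMem_of_disjoint hD.dAl (by simp)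
    · exact notMem_of_disjoint hD.dAl (by simp)
    · exact notMem_of_disjoint hD.dAl (by simp)
  have hb3' : ∀ j, j ∉ ({D.x, D.y, D.z, D.t} : Set σ) → j ∉ vars D.l → b3 j = 0 := by
    intro j hj hj'
    simp only [Set.mem_insert_iff, Set.mem_singleton_iff, not_or] at hj
    rw [hb3, Finsupp.add_apply, Finsupp.add_apply, two_apply_of_ne hj.1 hj.2.1,
      Finsupp.single_eq_of_ne hj.2.2.2, hb4 j hj', add_zero, add_zero]
  obtain ⟨e, he, e', he', hee, hcons'⟩ := exists_gap_V hD.v hk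
  have hgV := gV_pos D.v
  have heM := BV_bound hD.v he
  obtain ⟨b2, hb2⟩ : ∃ b2, b2 = two D.xV D.yV e (k * (2 * D.v + 1) - e') + b3 := ⟨_, rfl⟩
  have h2 : ¬ Van K (fam (D.T2 k) b2) (t4 + 3) := by
    intro h
    apply h3
    rw [hb2] at h
    refine Van.of_St (isUpperT3 k) hD.hV (indT3 hD k) he he' (by omega) heM hcons'
      (hb3' _ ?_ ?_) (hb3' _ ?_ ?_) h
    · exact notMem_of_disjoint hD.dVA (by simp)
    · exact notMem_of_disjoint hD.dVl (by simp)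
    · exact notMem_of_disjoint hD.dVA (by simp)
    · exact notMem_of_disjoint hD.dVl (by simp)
  have hb2' : ∀ j, j ∉ ({D.xV, D.yV} : Set σ) → j ∉ ({D.x, D.y, D.z, D.t} : Set σ) →
      j ∉ vars D.l → b2 j = 0 := by
    intro j hj hj' hj''
    simp only [Set.mem_insert_iff, Set.mem_singleton_iff, not_or] at hj
    rw [hb2, Finsupp.add_apply, two_apply_of_ne hj.1 hj.2, hb3' j hj' hj'']
  have hfM := dbl_BR_le f hf
  refine ⟨two D.xR D.yR f (k * (4 * D.r + 4) - f') + b2, ?_, ?_⟩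
  · intro h
    apply h2
    refine Van.of_St (isUpperT2 k) hD.hR (indT2 hD k) hf hf' hlt hfM hcons
      (hb2' _ ?_ ?_ ?_) (hb2' _ ?_ ?_ ?_) h
    · exact notMem_of_disjoint hD.dRV (by simp)
    · exact notMem_of_disjoint hD.dRA (by simp)
    · exact notMem_of_disjoint hD.dRl (by simp)
    · exact notMem_of_disjoint hD.dRV (by simp)
    · exact notMem_of_disjoint hD.dRA (by simp)
    · exact notMem_of_disjoint hD.dRl (by simp)
  · rw [hb2, hb3, map_add, map_add, map_add, map_add, degree_two, degree_two, degree_two,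
      Finsupp.degree_single]
    omega

theorem not_van_sphere (hD : D.OK) {k : ℕ} (hk : D.l.length ≤ k) :
    ¬ Van K (fam (D.T4 k) (bS k D.l)) D.l.length := by
  have h := not_van_W_sphere (K := K) (E := Set.univ) isUpperSet_univ D.l hD.l (indep_univ _)
    (k := k) (b' := 0) (fun _ _ => rfl) not_van_base k hk le_rfl
  rwa [Set.inter_univ, add_zero, zero_add] at h

theorem not_van_one (hD : D.OK) (hl : D.l ≠ []) {k : ℕ} (hk : 1 ≤ k) :
    ∃ b4 : σ →₀ ℕ, (∀ j, j ∉ vars D.l → b4 j = 0) ∧ ¬ Van K (fam (D.T4 k) b4) 1 ∧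
      b4.degree = 3 * k * D.l.length + 2 := by
  obtain ⟨p, l, hpl⟩ : ∃ p l, D.l = p :: l := by
    cases h : D.l with
    | nil => exact absurd h hl
    | cons p l => exact ⟨p, l, rfl⟩
  have hg := hD.l
  rw [hpl] at hg
  have h := not_van_W_one (K := K) (E := Set.univ) isUpperSet_univ hg (indep_univ _) hk
    (b' := 0) (fun _ _ => rfl) not_van_base
  rw [Set.inter_univ, add_zero, zero_add, ← hpl] at h
  refine ⟨_, ?_, h, ?_⟩
  · intro j hj
    rw [hpl, vars_cons] at hj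
    simp only [Set.mem_union, Set.mem_insert_iff, Set.mem_singleton_iff, not_or] at hj
    rw [Finsupp.add_apply, two_apply_of_ne hj.1.1 hj.1.2, bZ_apply k l hj.2]
  · rw [map_add, degree_two, degree_bZ, hpl, List.length_cons]
    ring

/-- The standard gap in the first factor. -/
theorem gap_R {r : ℕ} {k : ℕ} (hk : 1 ≤ k) :
    2 ∈ dbl (ksum (BR r) k) ∧ ∀ g ∈ dbl (ksum (BR r) k), g ≤ 0 ∨ 2 ≤ g := by
  refine ⟨⟨1, ksum_le (Or.inl rfl) (ksum_one.2 (Or.inr (Or.inl rfl))) hk, rfl⟩, ?_⟩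
  rintro _ ⟨f, _, rfl⟩
  omega

/-- The large gap in the first factor for `k = r - 1`. -/
theorem gap_R' {r : ℕ} {k : ℕ} (hk : 1 ≤ k) (hr : r = k + 1) :
    2 * k + 4 ∈ dbl (ksum (BR r) k) ∧ 2 * k ∈ dbl (ksum (BR r) k) ∧
      ∀ g ∈ dbl (ksum (BR r) k), g ≤ 2 * k ∨ 2 * k + 4 ≤ g := by
  refine ⟨⟨k + 2, ksum_le (Or.inl rfl) (ksum_one.2 (Or.inr (Or.inr ⟨by omega, by omega⟩))) hk,
    by ring⟩, ⟨k, ?_, rfl⟩, ?_⟩
  · have := ksum_mul (B := BR r) (b := 1) (Or.inr (Or.inl rfl)) k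
    rwa [mul_one] at this
  · rintro _ ⟨f, hf, rfl⟩
    have : f ≠ k + 1 := by
      rintro rfl
      rw [hr] at hf
      exact c_notMem (by omega : k < k + 1) hf
    omega

theorem nonempty (D : Data σ) (k : ℕ) : (D.T k).Nonempty := by
  refine ⟨big Set.univ (k * (4 * D.r + 4) + k * (2 * D.v + 1) + 2 * (k * (2 * D.a + 2)) + 3 * k),
    ?_, ?_, ?_, ?_⟩
  · refine ⟨_, top_mem_ksum_BR k, ?_, ?_⟩
    · rw [big_apply_mem (Set.mem_univ _)]; omega
    · rw [big_apply_mem (Set.mem_univ _)]; omega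
  · refine ⟨_, top_mem_ksum_BV D.v k, ?_, ?_⟩
    · rw [big_apply_mem (Set.mem_univ _)]; omega
    · rw [big_apply_mem (Set.mem_univ _)]; omega
  · left
    refine ⟨0, Nat.zero_le _, _, top_mem_FA k, ?_, ?_⟩
    · rw [big_apply_mem (Set.mem_univ _)]; omega
    · rw [big_apply_mem (Set.mem_univ _)]; omega
  · rw [T4, mem_W_iff]
    intro q _
    rw [big_apply_mem (Set.mem_univ _), big_apply_mem (Set.mem_univ _)]
    omega

end Data

end Pool.Agent.Lib.MP_0db35b_al
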