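import Pool.Agent.Lib.MP_0db35b_al.WitSum

set_option autoImplicit false
set_option linter.unusedSectionVars false

/-!
# Witnesses for staircases
-/

namespace Pool.Agent.Lib.MP_0db35b_al

variable {σ : Type} [Fintype σ] [LinearOrder σ]

theorem single_x_mem_St {x y : σ} {M : ℕ} {F : Set ℕ} (hM : M ∈ F) :
    Finsupp.single x M ∈ St x y M F :=
  ⟨M, hM, by simp, by simp⟩

theorem single_y_mem_St {x y : σ} {M : ℕ} {F : Set ℕ} (h0 : 0 ∈ F) :
    Finsupp.single y M ∈ St x y M F :=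
  ⟨0, h0, by simp, by simp⟩

theorem eq_of_mem_single {x : σ} {M : ℕ} {F : Set σ}
    (h : ∃ j ∈ F, (Finsupp.single x M : σ →₀ ℕ) j ≠ 0) : x ∈ F := by
  obtain ⟨j, hj, hj'⟩ := h
  by_cases hjx : j = x
  · exact hjx ▸ hj
  · rw [Finsupp.single_eq_of_ne hjx] at hj'
    exact absurd rfl hj'

theorem Wit.eq_of_St {x y : σ} {M : ℕ} {F : Set ℕ} (h0 : 0 ∈ F) (hM : M ∈ F) {u : σ →₀ ℕ}
    {G : Set σ} (h : Wit (St x y M F) u G) : G = {x, y} := by
  refine Set.Subset.antisymm (h.subset (dep_St x y M F)) ?_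
  rintro j (rfl | rfl)
  · exact eq_of_mem_single (h.mem_of (isUpperSet_St _ _ _ _) (single_x_mem_St hM))
  · exact eq_of_mem_single (h.mem_of (isUpperSet_St _ _ _ _) (single_y_mem_St h0))

/-- The witness given by two consecutive positions. -/
theorem wit_St {x y : σ} {M : ℕ} {F : Set ℕ} (hF : ∀ e ∈ F, e ≤ M) {e e' : ℕ}
    (he : e ∈ F) (he' : e' ∈ F) (hlt : e' < e) (hcons : ∀ f ∈ F, f ≤ e' ∨ e ≤ f) {u : σ →₀ ℕ}
    (hx : u x = e - 1) (hy : u y = M - e' - 1) : Wit (St x y M F) u {x, y} := by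
  intro w
  have h1 := hF e he
  rw [mem_St, Finsupp.add_apply, Finsupp.add_apply, hx, hy]
  constructor
  · rintro ⟨f, hf, h3, h4⟩
    by_contra hcon
    push Not at hcon
    have h5 := hcon x (by simp)
    have h6 := hcon y (by simp)
    have h7 := hcons f hf
    omega
  · rintro ⟨j, (rfl | rfl), hj⟩
    · exact ⟨e, he, by omega, by omega⟩
    · exact ⟨e', he', by omega, by omega⟩

theorem WS_St {x y : σ} {M : ℕ} {F : Set ℕ} (hF : ∀ e ∈ F, e ≤ M)
    (h0 : 0 ∈ F) (hM : M ∈ F) (hM1 : 1 ≤ M) (hxy : x ≠ y) : WS (St x y M F) = {{x, y}} := by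
  ext G
  rw [Set.mem_singleton_iff]
  constructor
  · rintro ⟨u, hu⟩
    exact hu.eq_of_St h0 hM
  · rintro rfl
    classical
    have hex : ∃ e, e ∈ F ∧ 1 ≤ e := ⟨M, hM, hM1⟩
    have h1 := Nat.find_spec hex
    have h2 := fun {m : ℕ} => Nat.find_min hex (m := m)
    refine ⟨two x y (Nat.find hex - 1) (M - 0 - 1), wit_St hF h1.1 h0 (by omega) ?_
      (two_apply_left hxy _ _) (two_apply_right hxy _ _)⟩
    intro f hf
    by_contra hcon
    push Not at hcon
    exact h2 hcon.2 ⟨hf, by omega⟩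

theorem LB_St {x y : σ} (hxy : x ≠ y) {M : ℕ} {F : Set ℕ} (hF : ∀ e ∈ F, e ≤ M) :
    LB (St x y M F) M := by
  rintro w ⟨e, he, h1, h2⟩
  have h3 : two x y e (M - e) ≤ w := (two_le hxy).2 ⟨h1, h2⟩
  have h4 := Finsupp.degree_mono h3
  rw [degree_two] at h4
  have := hF e he
  omega

/-- If there are no two positions with difference one, then the witnesses have degree at least
`M`. -/
theorem LW_St {x y : σ} (hxy : x ≠ y) {M : ℕ} {F : Set ℕ} (hF : ∀ e ∈ F, e ≤ M) (h0 : 0 ∈ F)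
    (hM : M ∈ F) (hadj : ∀ e ∈ F, e + 1 ∉ F) : LW (St x y M F) M := by
  intro u G hu
  have hG := hu.eq_of_St h0 hM
  subst hG
  have h1 := hu.single_mem (j := x) (by simp)
  have h2 := hu.single_mem (j := y) (by simp)
  have h3 := hu.notMem
  rw [mem_St] at h1 h2 h3
  obtain ⟨e, he, h4, h5⟩ := h1
  obtain ⟨e', he', h6, h7⟩ := h2
  simp only [Finsupp.add_apply, Finsupp.single_eq_same, Finsupp.single_eq_of_ne hxy,
    Finsupp.single_eq_of_ne hxy.symm] at h4 h5 h6 h7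
  have h8 : ¬ (e ≤ u x ∧ M - e ≤ u y) := fun h => h3 ⟨e, he, h.1, h.2⟩
  have h9 : ¬ (e' ≤ u x ∧ M - e' ≤ u y) := fun h => h3 ⟨e', he', h.1, h.2⟩
  have h10 := hF e he
  have h11 := hF e' he'
  have h12 : e ≠ e' + 1 := by
    rintro rfl
    exact hadj e' he' he
  have h13 : two x y (u x) (u y) ≤ u := (two_le hxy).2 ⟨le_rfl, le_rfl⟩
  have h14 := Finsupp.degree_mono h13
  rw [degree_two] at h14
  omega

end Pool.Agent.Lib.MP_0db35b_al
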