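import Pool.Agent.Lib.MP_0db35b_al.Power

set_option autoImplicit false
set_option linter.unusedSectionVars false

/-!
# Witnesses for products in disjoint sets of variables
-/

namespace Pool.Agent.Lib.MP_0db35b_al

variable {σ : Type} [Fintype σ] [LinearOrder σ]

/-- The sets of variables generating the associated primes. -/
def WS (U : Set (σ →₀ ℕ)) : Set (Set σ) := {F | ∃ u, Wit U u F}

theorem Wit.notMem {U : Set (σ →₀ ℕ)} {u : σ →₀ ℕ} {F : Set σ} (h : Wit U u F) : u ∉ U := by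
  intro hu
  have := (h 0).1 (by rwa [add_zero])
  obtain ⟨j, _, hj⟩ := this
  exact hj rfl

theorem Wit.single_mem {U : Set (σ →₀ ℕ)} {u : σ →₀ ℕ} {F : Set σ} (h : Wit U u F) {j : σ}
    (hj : j ∈ F) : u + Finsupp.single j 1 ∈ U := by
  rw [h]
  exact ⟨j, hj, by simp⟩

theorem Wit.subset {U : Set (σ →₀ ℕ)} {u : σ →₀ ℕ} {F : Set σ} (h : Wit U u F) {V : Set σ}
    (hV : DepOn V U) : F ⊆ V := by
  intro j hj
  by_contra hjV
  apply h.notMem
  refine hV _ _ (fun l hl => ?_) (h.single_mem hj)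
  have : l ≠ j := fun h => hjV (h ▸ hl)
  rw [Finsupp.add_apply, Finsupp.single_eq_of_ne this, add_zero]

theorem Wit.mem_of {U : Set (σ →₀ ℕ)} (hU : IsUpperSet U) {u : σ →₀ ℕ} {F : Set σ}
    (h : Wit U u F) {w : σ →₀ ℕ} (hw : w ∈ U) : ∃ j ∈ F, w j ≠ 0 :=
  (h w).1 (hU le_add_self hw)

theorem mix_add_mem_iff {V : Set σ} {U : Set (σ →₀ ℕ)} (hU : DepOn V U) {u e w : σ →₀ ℕ} :
    mix V u e + w ∈ U ↔ u + w ∈ U := by
  have h : ∀ j, j ∈ V → (mix V u e + w) j = (u + w) j := by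
    intro j hj
    rw [Finsupp.add_apply, Finsupp.add_apply, mix_apply_mem hj]
  exact ⟨hU _ _ h, hU _ _ fun j hj => (h j hj).symm⟩

theorem mix_add_mem_iff' {V : Set σ} {E : Set (σ →₀ ℕ)} (hE : Indep V E) {u e w : σ →₀ ℕ} :
    mix V u e + w ∈ E ↔ e + w ∈ E := by
  have h : ∀ j, j ∉ V → (mix V u e + w) j = (e + w) j := by
    intro j hj
    rw [Finsupp.add_apply, Finsupp.add_apply, mix_apply_notMem hj]
  exact ⟨hE _ _ h, hE _ _ fun j hj => (h j hj).symm⟩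

theorem Wit.inter {V : Set σ} {U E : Set (σ →₀ ℕ)} (hU : DepOn V U) (hE : Indep V E)
    (hUu : IsUpperSet U) (hEu : IsUpperSet E) {u : σ →₀ ℕ} {F : Set σ} (h : Wit (U ∩ E) u F)
    (hUne : U.Nonempty) (hEne : E.Nonempty) :
    (Wit U u F ∧ u ∈ E) ∨ (Wit E u F ∧ u ∈ U) := by
  by_cases hu : u ∈ U
  · right
    refine ⟨fun w => ?_, hu⟩
    rw [← h w, Set.mem_inter_iff]
    exact ⟨fun h1 => ⟨hUu le_self_add hu, h1⟩, fun h1 => h1.2⟩
  · left
    -- `F ⊆ V`
    have hFV : F ⊆ V := by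
      intro j hj
      by_contra hjV
      apply hu
      refine hU _ _ (fun l hl => ?_) (h.single_mem hj).1
      have : l ≠ j := fun h => hjV (h ▸ hl)
      rw [Finsupp.add_apply, Finsupp.single_eq_of_ne this, add_zero]
    have huE : u ∈ E := by
      obtain ⟨j, hj, _⟩ : ∃ j ∈ F, (0 : σ →₀ ℕ) j = 0 := by
        obtain ⟨a, ha⟩ := hUne
        obtain ⟨e, he⟩ := hEne
        obtain ⟨j, hj, _⟩ := h.mem_of (hUu.inter hEu) (w := a + e)
          ⟨hUu le_self_add ha, hEu le_add_self he⟩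
        exact ⟨j, hj, rfl⟩
      refine hE _ _ (fun l hl => ?_) (h.single_mem hj).2
      have : l ≠ j := fun h => hl (h ▸ hFV hj)
      rw [Finsupp.add_apply, Finsupp.single_eq_of_ne this, add_zero]
    refine ⟨fun w => ?_, huE⟩
    rw [← h w, Set.mem_inter_iff]
    exact ⟨fun h1 => ⟨h1, hEu le_self_add huE⟩, fun h1 => h1.1⟩

theorem WS_inter {V : Set σ} {U E : Set (σ →₀ ℕ)} (hU : DepOn V U) (hE : Indep V E)
    (hUu : IsUpperSet U) (hEu : IsUpperSet E) (hUne : U.Nonempty) (hEne : E.Nonempty) :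
    WS (U ∩ E) = WS U ∪ WS E := by
  ext F
  constructor
  · rintro ⟨u, hu⟩
    rcases hu.inter hU hE hUu hEu hUne hEne with h | h
    · exact Or.inl ⟨u, h.1⟩
    · exact Or.inr ⟨u, h.1⟩
  · rintro (⟨u, hu⟩ | ⟨u, hu⟩)
    · obtain ⟨e, he⟩ := hEne
      refine ⟨mix V u e, fun w => ?_⟩
      rw [← hu w, Set.mem_inter_iff, mix_add_mem_iff hU, mix_add_mem_iff' hE]
      exact ⟨fun h => h.1, fun h => ⟨h, hEu le_self_add he⟩⟩
    · obtain ⟨e, he⟩ := hUne
      refine ⟨mix V e u, fun w => ?_⟩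
      rw [← hu w, Set.mem_inter_iff, mix_add_mem_iff hU, mix_add_mem_iff' hE]
      exact ⟨fun h => h.2, fun h => ⟨hUu le_self_add he, h⟩⟩

theorem degree_mix (V : Set σ) (u : σ →₀ ℕ) :
    (mix V u 0).degree + (mix V 0 u).degree = u.degree := by
  rw [← map_add]
  congr 1
  ext j
  rw [Finsupp.add_apply]
  by_cases hj : j ∈ V
  · rw [mix_apply_mem hj, mix_apply_mem hj]; rfl
  · rw [mix_apply_notMem hj, mix_apply_notMem hj]
    exact zero_add _

/-- A lower bound for the degrees of the members. -/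
def LB (U : Set (σ →₀ ℕ)) (n : ℕ) : Prop := ∀ w ∈ U, n ≤ w.degree

/-- A lower bound for the degrees of the witnesses. -/
def LW (U : Set (σ →₀ ℕ)) (n : ℕ) : Prop := ∀ u F, Wit U u F → n ≤ u.degree

theorem LB.inter {V : Set σ} {U E : Set (σ →₀ ℕ)} (hU : DepOn V U) (hE : Indep V E) {n m q : ℕ}
    (h1 : LB U n) (h2 : LB E m) (hq : q ≤ n + m) : LB (U ∩ E) q := by
  intro w hw
  have h3 := h1 _ (hU.mix_mem (v₂ := 0) hw.1)
  have h4 := h2 _ (hE.mix_mem (v₁ := 0) hw.2)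
  rw [← degree_mix V w]
  omega

theorem LW.inter {V : Set σ} {U E : Set (σ →₀ ℕ)} (hU : DepOn V U) (hE : Indep V E)
    (hUu : IsUpperSet U) (hEu : IsUpperSet E) (hUne : U.Nonempty) (hEne : E.Nonempty)
    {n n' m m' q : ℕ} (h1 : LB U n) (h1' : LW U n') (h2 : LB E m) (h2' : LW E m')
    (hq : q ≤ n' + m) (hq' : q ≤ n + m') : LW (U ∩ E) q := by
  intro u F hu
  rw [← degree_mix V u]
  rcases hu.inter hU hE hUu hEu hUne hEne with ⟨h3, h4⟩ | ⟨h3, h4⟩
  · have h5 := h1' (mix V u 0) F (fun w => by rw [mix_add_mem_iff hU]; exact h3 w)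
    have h6 := h2 _ (hE.mix_mem (v₁ := 0) h4)
    omega
  · have h5 := h2' (mix V 0 u) F (fun w => by rw [mix_add_mem_iff' hE]; exact h3 w)
    have h6 := h1 _ (hU.mix_mem (v₂ := 0) h4)
    omega

/-- The general lower bound. -/
theorem LW.of_LB {U : Set (σ →₀ ℕ)} (hU : IsUpperSet U) (hne : U.Nonempty) {n : ℕ} (h : LB U n) :
    LW U (n - 1) := by
  intro u F hu
  obtain ⟨w, hw⟩ := hne
  obtain ⟨j, hj, _⟩ := hu.mem_of hU hw
  have := h _ (hu.single_mem hj)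
  rw [map_add, Finsupp.degree_single] at this
  omega

end Pool.Agent.Lib.MP_0db35b_al
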