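import Pool.Agent.Lib.MP_0db35b_al.WitSt

set_option autoImplicit false
set_option linter.unusedSectionVars false

/-!
# Witnesses for the third ideal
-/

namespace Pool.Agent.Lib.MP_0db35b_al

variable {σ : Type} [Fintype σ] [LinearOrder σ] {c h : ℕ} {x y z t : σ}

theorem single_x_mem_UA (k : ℕ) : Finsupp.single x (2 * (k * (2 * c + 2))) ∈ UA c h x y z t k := by
  left
  exact ⟨0, Nat.zero_le _, k * (2 * c + 2), top_mem_FA k, by simp, by simp⟩

theorem single_y_mem_UA (k : ℕ) : Finsupp.single y (2 * (k * (2 * c + 2))) ∈ UA c h x y z t k := by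
  left
  exact ⟨0, Nat.zero_le _, 0, zero_mem_FA k, by simp, by simp⟩

theorem Wit.x_mem_UA {k : ℕ} {u : σ →₀ ℕ} {G : Set σ} (hu : Wit (UA c h x y z t k) u G) :
    x ∈ G := eq_of_mem_single (hu.mem_of (isUpperSet_UA _) (single_x_mem_UA k))

theorem Wit.y_mem_UA {k : ℕ} {u : σ →₀ ℕ} {G : Set σ} (hu : Wit (UA c h x y z t k) u G) :
    y ∈ G := eq_of_mem_single (hu.mem_of (isUpperSet_UA _) (single_y_mem_UA k))

/-- For large `k`, the ideal does not involve `z`. -/
theorem depUA_full (hc : 1 ≤ c) {k : ℕ} (hk : c ≤ k) : DepOn {x, y, t} (UA c h x y z t k) := by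
  rintro w w' hw (⟨i, _, e, he, h2, h3⟩ | ⟨h1, h2, h3⟩)
  · have hx := hw x (by simp)
    have hy := hw y (by simp)
    left
    refine ⟨0, Nat.zero_le _, e, ?_, by omega, by omega⟩
    have := FA_bound hc he
    rw [FA_zero_eq]
    have hN : 2 * c + 2 ≤ k * (2 * c + 2) := Nat.le_mul_of_pos_left _ (by omega)
    exact BA_full hc hk (by omega) (by omega)
  · have hx := hw x (by simp)
    have hy := hw y (by simp)
    have ht := hw t (by simp)
    exact Or.inr ⟨by omega, by omega, by omega⟩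

/-- The first witness. -/
theorem wit_UA_xy (hxy : x ≠ y) (hc : 1 ≤ c) {k : ℕ} (hk : 1 ≤ k) :
    Wit (UA c h x y z t k) (two x y 1 (2 * (k * (2 * c + 2)) - 1)) {x, y} := by
  obtain ⟨N, hN⟩ : ∃ N, N = k * (2 * c + 2) := ⟨_, rfl⟩
  have hN2 : 2 * c + 2 ≤ N := by
    rw [hN]; exact Nat.le_mul_of_pos_left _ hk
  intro w
  rw [UA, Set.mem_union, mem_AS, mem_AT, ← hN]
  simp only [Finsupp.add_apply, two_apply_left hxy, two_apply_right hxy]
  constructor
  · intro h1
    by_contra hcon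
    push Not at hcon
    have h5 := hcon x (by simp)
    have h6 := hcon y (by simp)
    rcases h1 with ⟨i, _, e, he, h2, h3⟩ | ⟨h2, h3, h4⟩
    · omega
    · omega
  · rintro ⟨j, (rfl | rfl), hj⟩
    · refine Or.inl ⟨0, Nat.zero_le _, 1, ?_, by omega, by omega⟩
      rw [FA_zero_eq]
      exact ksum_le (Or.inl rfl) (ksum_one.2 (Or.inr (Or.inl rfl))) hk
    · exact Or.inl ⟨0, Nat.zero_le _, 0, zero_mem_FA k, by omega, by omega⟩

/-- The second witness. -/
theorem wit_UA_xyt (hxy : x ≠ y) (hxt : x ≠ t) (hyt : y ≠ t) (hc : 1 ≤ c) (hh : 1 ≤ h) {k : ℕ}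
    (hk : 1 ≤ k) :
    Wit (UA c h x y z t k)
      (two x y (2 * (k * (2 * c + 2)) - 1) 3 + Finsupp.single t (h - 1)) {x, y, t} := by
  obtain ⟨N, hN⟩ : ∃ N, N = k * (2 * c + 2) := ⟨_, rfl⟩
  have hN2 : 2 * c + 2 ≤ N := by
    rw [hN]; exact Nat.le_mul_of_pos_left _ hk
  intro w
  obtain ⟨b, hb⟩ : ∃ b, b = two x y (2 * (k * (2 * c + 2)) - 1) 3 + Finsupp.single t (h - 1) + w :=
    ⟨_, rfl⟩
  rw [← hb]
  have hbx : b x = 2 * N - 1 + w x := by
    rw [hb, Finsupp.add_apply, Finsupp.add_apply, two_apply_left hxy,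
      Finsupp.single_eq_of_ne hxt, add_zero, hN]
  have hby : b y = 3 + w y := by
    rw [hb, Finsupp.add_apply, Finsupp.add_apply, two_apply_right hxy,
      Finsupp.single_eq_of_ne hyt, add_zero]
  have hbt : b t = h - 1 + w t := by
    rw [hb, Finsupp.add_apply, Finsupp.add_apply, two_apply_of_ne hxt.symm hyt.symm,
      Finsupp.single_eq_same, zero_add]
  rw [UA, Set.mem_union, mem_AS_of_AT hc hk (by rw [hbx, ← hN]; omega) (by rw [hby]; omega),
    mem_AT, hbx, hby, hbt, ← hN]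
  constructor
  · intro h1
    by_contra hcon
    push Not at hcon
    have h5 := hcon x (by simp)
    have h6 := hcon y (by simp)
    have h7 := hcon t (by simp)
    omega
  · rintro ⟨j, (rfl | rfl | rfl), hj⟩
    · left; left; omega
    · left; right; omega
    · right; omega

/-- The witness for `k = c - 1`. -/
theorem wit_UA_xyz (hxy : x ≠ y) (hxz : x ≠ z) (hyz : y ≠ z) (hc : 2 ≤ c) {k : ℕ}
    (hk : k + 1 = c) :
    Wit (UA c h x y z t k)
      (two x y (2 * c + 1) (2 * (k * (2 * c + 2) - c) + 1)) {x, y, z} := by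
  obtain ⟨N, hN⟩ : ∃ N, N = k * (2 * c + 2) := ⟨_, rfl⟩
  have hN2 : 2 * c + 2 ≤ N := by
    rw [hN]; exact Nat.le_mul_of_pos_left _ (by omega)
  intro w
  rw [UA, Set.mem_union, mem_AS, mem_AT, ← hN]
  simp only [Finsupp.add_apply, two_apply_left hxy, two_apply_right hxy,
    two_apply_of_ne hxz.symm hyz.symm, zero_add]
  constructor
  · intro h1
    by_contra hcon
    push Not at hcon
    have h5 := hcon x (by simp)
    have h6 := hcon y (by simp)
    have h7 := hcon z (by simp)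
    rcases h1 with ⟨i, h8, e, he, h2, h3⟩ | ⟨h2, h3, h4⟩
    · have hi : i = 0 := by omega
      subst hi
      have hec : e = c := by omega
      subst hec
      rw [FA_zero_eq] at he
      exact c_notMem (by omega : k < e) (ksum_mono (BA_sub_BR e) k he)
    · omega
  · rintro ⟨j, (rfl | rfl | rfl), hj⟩
    · refine Or.inl ⟨0, Nat.zero_le _, c + 1, ?_, by omega, by omega⟩
      rw [FA_zero_eq]
      exact ksum_le (Or.inl rfl) (ksum_one.2 (Or.inr (Or.inr (Or.inl ⟨le_rfl, by omega⟩))))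
        (by omega : 1 ≤ k)
    · refine Or.inl ⟨0, Nat.zero_le _, c - 1, ?_, by omega, by omega⟩
      rw [FA_zero_eq]
      have := ksum_mul (B := BA c) (b := 1) (Or.inr (Or.inl rfl)) k
      have e : k * 1 = c - 1 := by omega
      rwa [e] at this
    · refine Or.inl ⟨1, by omega, c, ?_, by omega, by omega⟩
      obtain ⟨k', rfl⟩ : ∃ k', k = k' + 1 := ⟨k - 1, by omega⟩
      exact Or.inr ⟨0, rfl, 0, zero_mem_FA k', by omega⟩

theorem WS_UA (hxy : x ≠ y) (hxt : x ≠ t) (hyt : y ≠ t) (hc : 1 ≤ c) (hh : 1 ≤ h) {k : ℕ}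
    (hk : c ≤ k) : WS (UA c h x y z t k) = {{x, y}, {x, y, t}} := by
  ext G
  rw [Set.mem_insert_iff, Set.mem_singleton_iff]
  constructor
  · rintro ⟨u, hu⟩
    have h1 := hu.x_mem_UA
    have h2 := hu.y_mem_UA
    have h3 := hu.subset (depUA_full hc hk)
    by_cases ht : t ∈ G
    · right
      refine Set.Subset.antisymm h3 ?_
      rintro j (rfl | rfl | rfl) <;> assumption
    · left
      refine Set.Subset.antisymm ?_ ?_
      · intro j hj
        rcases h3 hj with rfl | rfl | rfl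
        · simp
        · simp
        · exact absurd hj ht
      · rintro j (rfl | rfl) <;> assumption
  · rintro (rfl | rfl)
    · exact ⟨_, wit_UA_xy hxy hc (by omega)⟩
    · exact ⟨_, wit_UA_xyt hxy hxt hyt hc hh (by omega)⟩

theorem degree_xyzt_le (hxy : x ≠ y) (hxz : x ≠ z) (hyz : y ≠ z) (hxt : x ≠ t) (hyt : y ≠ t)
    (hzt : z ≠ t) (w : σ →₀ ℕ) : w x + w y + w z + w t ≤ w.degree := by
  have h1 : two x y (w x) (w y) + two z t (w z) (w t) ≤ w := by
    intro j
    rw [Finsupp.add_apply]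
    by_cases hjx : j = x
    · subst hjx
      rw [two_apply_left hxy, two_apply_of_ne hxz hxt, add_zero]
    · by_cases hjy : j = y
      · subst hjy
        rw [two_apply_right hxy, two_apply_of_ne hyz hyt, add_zero]
      · by_cases hjz : j = z
        · subst hjz
          rw [two_apply_left hzt, two_apply_of_ne hjx hjy, zero_add]
        · by_cases hjt : j = t
          · subst hjt
            rw [two_apply_right hzt, two_apply_of_ne hjx hjy, zero_add]
          · rw [two_apply_of_ne hjx hjy, two_apply_of_ne hjz hjt]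
            exact Nat.zero_le _
  have h2 := Finsupp.degree_mono h1
  rw [map_add, degree_two, degree_two] at h2
  omega

theorem mem_UA_cases (hxy : x ≠ y) (hxz : x ≠ z) (hyz : y ≠ z) (hxt : x ≠ t) (hyt : y ≠ t)
    (hzt : z ≠ t) (hc : 1 ≤ c) (hh : 1 ≤ h) {k : ℕ} {w : σ →₀ ℕ}
    (hk : 1 ≤ k) (hw : w ∈ UA c h x y z t k) :
    2 * (k * (2 * c + 2)) + 1 ≤ w.degree ∨ (2 * (k * (2 * c + 2)) ≤ w.degree ∧
      ∃ e, w x = 2 * e) := by
  have h1 := degree_xyzt_le hxy hxz hyz hxt hyt hzt w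
  have hN : 2 * c + 2 ≤ k * (2 * c + 2) := Nat.le_mul_of_pos_left _ hk
  rcases hw with ⟨i, h2, e, he, h3, h4⟩ | ⟨h2, h3, h4⟩
  · have := FA_le hc he
    by_cases h5 : w x = 2 * e
    · right
      exact ⟨by omega, e, h5⟩
    · left; omega
  · left; omega

theorem LB_UA (hxy : x ≠ y) (hxz : x ≠ z) (hyz : y ≠ z) (hxt : x ≠ t) (hyt : y ≠ t)
    (hzt : z ≠ t) (hc : 1 ≤ c) (hh : 1 ≤ h) {k : ℕ} (hk : 1 ≤ k) :
    LB (UA c h x y z t k) (2 * (k * (2 * c + 2))) := by
  intro w hw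
  have := mem_UA_cases hxy hxz hyz hxt hyt hzt hc hh hk hw
  omega

theorem LW_UA (hxy : x ≠ y) (hxz : x ≠ z) (hyz : y ≠ z) (hxt : x ≠ t) (hyt : y ≠ t)
    (hzt : z ≠ t) (hc : 1 ≤ c) (hh : 1 ≤ h) {k : ℕ} (hk : 1 ≤ k) :
    LW (UA c h x y z t k) (2 * (k * (2 * c + 2))) := by
  intro u G hu
  have h1 := mem_UA_cases hxy hxz hyz hxt hyt hzt hc hh hk (hu.single_mem hu.x_mem_UA)
  have h2 := mem_UA_cases hxy hxz hyz hxt hyt hzt hc hh hk (hu.single_mem hu.y_mem_UA)
  simp only [Finsupp.add_apply, Finsupp.single_eq_same, Finsupp.single_eq_of_ne hxy,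
    map_add, Finsupp.degree_single] at h1 h2
  rcases h1 with h1 | ⟨h1, e, he⟩
  · omega
  · rcases h2 with h2 | ⟨h2, e', he'⟩
    · omega
    · omega

end Pool.Agent.Lib.MP_0db35b_al
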